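import Mathlib

set_option autoImplicit false
set_option linter.unusedSectionVars false
set_option linter.unusedSimpArgs false

namespace Pool.Agent.H551R3.CD

universe u

/-- A nonassociative algebra over a commutative ring together with a linear map, called
conjugation. -/
structure StarAlg (R : Type u) [CommRing R] where
  /-- the underlying space -/
  carrier : Type u
  [ring : NonUnitalNonAssocRing carrier]
  [module : Module R carrier]
  [tower : IsScalarTower R carrier carrier]
  [comm : SMulCommClass R carrier carrier]
  /-- the conjugation -/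
  conj : carrier →ₗ[R] carrier

attribute [instance] StarAlg.ring StarAlg.module StarAlg.tower StarAlg.comm

section Dbl

variable {R : Type u} [CommRing R] {A : Type u} [NonUnitalNonAssocRing A] [Module R A]
  [IsScalarTower R A A] [SMulCommClass R A A]

/-- The space `A + A v` of the doubling of `A` with parameter `γ` and conjugation `c`. -/
def Dbl (_γ : R) (_c : A →ₗ[R] A) : Type u := A × A

variable {γ : R} {c : A →ₗ[R] A}

/-- The element `a + b v`. -/
def Dbl.mk (a b : A) : Dbl γ c := (a, b)

/-- The first component. -/
def Dbl.re (x : Dbl γ c) : A := Prod.fst x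

/-- The second component. -/
def Dbl.im (x : Dbl γ c) : A := Prod.snd x

instance : AddCommGroup (Dbl γ c) := inferInstanceAs (AddCommGroup (A × A))
instance : Module R (Dbl γ c) := inferInstanceAs (Module R (A × A))

/-- `(a + b v)(d + e v) = (a d + γ (conj e) b) + (e a + b (conj d)) v`. -/
instance : Mul (Dbl γ c) :=
  ⟨fun x y => Dbl.mk (x.re * y.re + γ • (c y.im * x.im)) (y.im * x.re + x.im * c y.re)⟩

@[simp] theorem Dbl.re_mk (a b : A) : (Dbl.mk a b : Dbl γ c).re = a := rfl
@[simp] theorem Dbl.im_mk (a b : A) : (Dbl.mk a b : Dbl γ c).im = b := rfl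
@[simp] theorem Dbl.re_add (x y : Dbl γ c) : (x + y).re = x.re + y.re := rfl
@[simp] theorem Dbl.im_add (x y : Dbl γ c) : (x + y).im = x.im + y.im := rfl
@[simp] theorem Dbl.re_sub (x y : Dbl γ c) : (x - y).re = x.re - y.re := rfl
@[simp] theorem Dbl.im_sub (x y : Dbl γ c) : (x - y).im = x.im - y.im := rfl
@[simp] theorem Dbl.re_neg (x : Dbl γ c) : (-x).re = -x.re := rfl
@[simp] theorem Dbl.im_neg (x : Dbl γ c) : (-x).im = -x.im := rfl
@[simp] theorem Dbl.re_zero : (0 : Dbl γ c).re = 0 := rfl
@[simp] theorem Dbl.im_zero : (0 : Dbl γ c).im = 0 := rfl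
@[simp] theorem Dbl.re_smul (r : R) (x : Dbl γ c) : (r • x).re = r • x.re := rfl
@[simp] theorem Dbl.im_smul (r : R) (x : Dbl γ c) : (r • x).im = r • x.im := rfl
@[simp] theorem Dbl.re_mul (x y : Dbl γ c) :
    (x * y).re = x.re * y.re + γ • (c y.im * x.im) := rfl
@[simp] theorem Dbl.im_mul (x y : Dbl γ c) : (x * y).im = y.im * x.re + x.im * c y.re := rfl

@[ext] theorem Dbl.ext {x y : Dbl γ c} (h1 : x.re = y.re) (h2 : x.im = y.im) : x = y :=
  Prod.ext h1 h2

instance : NonUnitalNonAssocRing (Dbl γ c) :=
  { (inferInstance : AddCommGroup (Dbl γ c)), (inferInstance : Mul (Dbl γ c)) with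
    left_distrib := by
      intro x y z
      ext
      · simp only [Dbl.re_mul, Dbl.re_add, Dbl.im_add, map_add, mul_add, add_mul, smul_add]
        abel
      · simp only [Dbl.im_mul, Dbl.re_add, Dbl.im_add, map_add, mul_add, add_mul]
        abel
    right_distrib := by
      intro x y z
      ext
      · simp only [Dbl.re_mul, Dbl.re_add, Dbl.im_add, mul_add, add_mul, smul_add]
        abel
      · simp only [Dbl.im_mul, Dbl.re_add, Dbl.im_add, mul_add, add_mul]
        abel
    zero_mul := by
      intro x
      ext
      · simp
      · simp
    mul_zero := by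
      intro x
      ext
      · simp
      · simp }

instance : IsScalarTower R (Dbl γ c) (Dbl γ c) := ⟨by
  intro r x y
  ext
  · simp only [smul_eq_mul, Dbl.re_mul, Dbl.re_smul, Dbl.im_smul, smul_mul_assoc,
      mul_smul_comm, smul_add]
    rw [smul_comm]
  · simp only [smul_eq_mul, Dbl.im_mul, Dbl.re_smul, Dbl.im_smul, smul_mul_assoc,
      mul_smul_comm, smul_add]⟩

instance : SMulCommClass R (Dbl γ c) (Dbl γ c) := ⟨by
  intro r x y
  ext
  · simp only [smul_eq_mul, Dbl.re_mul, Dbl.re_smul, Dbl.im_smul, smul_mul_assoc,
      mul_smul_comm, smul_add, map_smul]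
    rw [smul_comm]
  · simp only [smul_eq_mul, Dbl.im_mul, Dbl.re_smul, Dbl.im_smul, smul_mul_assoc,
      mul_smul_comm, smul_add, map_smul]⟩

end Dbl

/-- One step of the Cayley-Dickson process: `A + A v` with
`(a + b v)(d + e v) = (a d + γ (conj e) b) + (e a + b (conj d)) v` and
`conj (a + b v) = conj a - b v`. -/
def double {R : Type u} [CommRing R] (S : StarAlg R) (γ : R) : StarAlg R where
  carrier := Dbl γ S.conj
  conj :=
    { toFun := fun x => Dbl.mk (S.conj x.re) (-x.im)
      map_add' := by
        intro x y
        ext
        · simp
        · simp [add_comm]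
      map_smul' := by
        intro r x
        ext
        · simp
        · simp }

section First

variable {R : Type u} [CommRing R]

/-- The space of `R[u]` with `u ^ 2 = u + α`. -/
def First (_α : R) : Type u := R × R

variable {α : R}

/-- The element `a + b u`. -/
def First.mk (a b : R) : First α := (a, b)

/-- The first coordinate. -/
def First.re (x : First α) : R := Prod.fst x

/-- The second coordinate. -/
def First.im (x : First α) : R := Prod.snd x

instance : AddCommGroup (First α) := inferInstanceAs (AddCommGroup (R × R))
instance : Module R (First α) := inferInstanceAs (Module R (R × R))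

/-- `(a + b u)(d + e u) = (a d + α b e) + (a e + b d + b e) u`. -/
instance : Mul (First α) :=
  ⟨fun x y => First.mk (x.re * y.re + α * (x.im * y.im))
    (x.re * y.im + x.im * y.re + x.im * y.im)⟩

@[simp] theorem First.re_mk (a b : R) : (First.mk a b : First α).re = a := rfl
@[simp] theorem First.im_mk (a b : R) : (First.mk a b : First α).im = b := rfl
@[simp] theorem First.re_add (x y : First α) : (x + y).re = x.re + y.re := rfl
@[simp] theorem First.im_add (x y : First α) : (x + y).im = x.im + y.im := rfl
@[simp] theorem First.re_sub (x y : First α) : (x - y).re = x.re - y.re := rfl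
@[simp] theorem First.im_sub (x y : First α) : (x - y).im = x.im - y.im := rfl
@[simp] theorem First.re_neg (x : First α) : (-x).re = -x.re := rfl
@[simp] theorem First.im_neg (x : First α) : (-x).im = -x.im := rfl
@[simp] theorem First.re_zero : (0 : First α).re = 0 := rfl
@[simp] theorem First.im_zero : (0 : First α).im = 0 := rfl
@[simp] theorem First.re_smul (r : R) (x : First α) : (r • x).re = r * x.re := rfl
@[simp] theorem First.im_smul (r : R) (x : First α) : (r • x).im = r * x.im := rfl
@[simp] theorem First.re_mul (x y : First α) :
    (x * y).re = x.re * y.re + α * (x.im * y.im) := rfl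
@[simp] theorem First.im_mul (x y : First α) :
    (x * y).im = x.re * y.im + x.im * y.re + x.im * y.im := rfl

@[ext] theorem First.ext {x y : First α} (h1 : x.re = y.re) (h2 : x.im = y.im) : x = y :=
  Prod.ext h1 h2

instance : NonUnitalNonAssocRing (First α) :=
  { (inferInstance : AddCommGroup (First α)), (inferInstance : Mul (First α)) with
    left_distrib := by
      intro x y z
      ext
      · simp; ring
      · simp; ring
    right_distrib := by
      intro x y z
      ext
      · simp; ring
      · simp; ring
    zero_mul := by
      intro x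
      ext
      · simp
      · simp
    mul_zero := by
      intro x
      ext
      · simp
      · simp }

instance : IsScalarTower R (First α) (First α) := ⟨by
  intro r x y
  ext
  · simp; ring
  · simp; ring⟩

instance : SMulCommClass R (First α) (First α) := ⟨by
  intro r x y
  ext
  · simp; ring
  · simp; ring⟩

end First

/-- The algebra `A_1 = R[u]`, `u ^ 2 = u + α`, with conjugation `conj u = 1 - u`. -/
def first {R : Type u} [CommRing R] (α : R) : StarAlg R where
  carrier := First α
  conj :=
    { toFun := fun x => First.mk (x.re + x.im) (-x.im)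
      map_add' := by
        intro x y
        ext
        · simp; ring
        · simp; ring
      map_smul' := by
        intro r x
        ext
        · simp; ring
        · simp }

/-- The algebra `A_0 = R` with trivial conjugation. -/
def ground (R : Type u) [CommRing R] : StarAlg R where
  carrier := R
  conj := LinearMap.id

/-- The algebra `A_n` of the Cayley-Dickson process over `R`: `A_0 = R`, `A_1 = R[u]` with
`u ^ 2 = u + α`, and `A_(k+1) = A_k + A_k v` with parameter `γ (k+1)` for `k ≥ 1`. -/
def cayleyDickson {R : Type u} [CommRing R] (α : R) (γ : ℕ → R) : ℕ → StarAlg R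
  | 0 => ground R
  | 1 => first α
  | n + 2 => double (cayleyDickson α γ (n + 1)) (γ (n + 2))

end Pool.Agent.H551R3.CD
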