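import Pool.Agent.H551R3.CDBasic

set_option autoImplicit false
set_option linter.unusedSectionVars false
set_option linter.unusedSimpArgs false

namespace Pool.Agent.H551R3.CD

universe u

/-- Semilinear homomorphisms of algebras with conjugation. -/
structure SHom {R R' : Type u} [CommRing R] [CommRing R'] (φ : R →+* R')
    (S : StarAlg R) (S' : StarAlg R') where
  toFun : S.carrier → S'.carrier
  map_add : ∀ x y, toFun (x + y) = toFun x + toFun y
  map_mul : ∀ x y, toFun (x * y) = toFun x * toFun y
  map_smul : ∀ (r : R) x, toFun (r • x) = φ r • toFun x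
  map_conj : ∀ x, toFun (S.conj x) = S'.conj (toFun x)

namespace SHom

variable {R R' : Type u} [CommRing R] [CommRing R'] {φ : R →+* R'}
  {S : StarAlg R} {S' : StarAlg R'}

theorem map_zero (m : SHom φ S S') : m.toFun 0 = 0 := by
  have := m.map_smul 0 0
  simpa using this

theorem map_neg (m : SHom φ S S') (x : S.carrier) : m.toFun (-x) = -m.toFun x := by
  have := m.map_smul (-1) x
  simpa using this

/-- The doubled homomorphism. -/
def dbl (m : SHom φ S S') (γ : R) (γ' : R') (h : φ γ = γ') :
    SHom φ (double S γ) (double S' γ') where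
  toFun := fun x : Dbl γ S.conj => (Dbl.mk (m.toFun x.re) (m.toFun x.im) : Dbl γ' S'.conj)
  map_add := by
    intro x y
    refine Dbl.ext ?_ ?_
    · exact m.map_add _ _
    · exact m.map_add _ _
  map_mul := by
    intro x y
    refine Dbl.ext ?_ ?_
    · change m.toFun (Dbl.re x * Dbl.re y + γ • (S.conj (Dbl.im y) * Dbl.im x)) = _
      rw [m.map_add, m.map_mul, m.map_smul, m.map_mul, m.map_conj, h]
      rfl
    · change m.toFun (Dbl.im y * Dbl.re x + Dbl.im x * S.conj (Dbl.re y)) = _
      rw [m.map_add, m.map_mul, m.map_mul, m.map_conj]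
      rfl
  map_smul := by
    intro r x
    refine Dbl.ext ?_ ?_
    · exact m.map_smul _ _
    · exact m.map_smul _ _
  map_conj := by
    intro x
    refine Dbl.ext ?_ ?_
    · exact m.map_conj _
    · exact m.map_neg _

/-- The induced homomorphism of `A_1`. -/
def fst (φ : R →+* R') (α : R) (α' : R') (h : φ α = α') :
    SHom φ (first α) (first α') where
  toFun := fun x : First α => (First.mk (φ x.re) (φ x.im) : First α')
  map_add := by
    intro x y
    refine First.ext ?_ ?_
    · exact _root_.map_add φ _ _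
    · exact _root_.map_add φ _ _
  map_mul := by
    intro x y
    refine First.ext ?_ ?_
    · change φ (First.re x * First.re y + α * (First.im x * First.im y)) = _
      rw [_root_.map_add, _root_.map_mul, _root_.map_mul, _root_.map_mul, h]
      rfl
    · change φ (First.re x * First.im y + First.im x * First.re y + First.im x * First.im y) = _
      rw [_root_.map_add, _root_.map_add, _root_.map_mul, _root_.map_mul, _root_.map_mul]
      rfl
  map_smul := by
    intro r x
    refine First.ext ?_ ?_
    · exact _root_.map_mul φ _ _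
    · exact _root_.map_mul φ _ _
  map_conj := by
    intro x
    refine First.ext ?_ ?_
    · exact _root_.map_add φ _ _
    · exact _root_.map_neg φ _

/-- The induced homomorphism of `A_0`. -/
def zeroth (φ : R →+* R') : SHom φ (ground R) (ground R') where
  toFun := fun x : R => (φ x : R')
  map_add := fun x y => _root_.map_add φ x y
  map_mul := fun x y => _root_.map_mul φ x y
  map_smul := fun r x => _root_.map_mul φ r x
  map_conj := fun _ => rfl

end SHom

/-- Change of coefficients in the algebras of the Cayley-Dickson process. -/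
def changeHom {R R' : Type u} [CommRing R] [CommRing R'] (φ : R →+* R') (α : R) (γ : ℕ → R)
    (α' : R') (γ' : ℕ → R') (hα : φ α = α') (hγ : ∀ k, φ (γ k) = γ' k) :
    (n : ℕ) → SHom φ (cayleyDickson α γ n) (cayleyDickson α' γ' n)
  | 0 => SHom.zeroth φ
  | 1 => SHom.fst φ α α' hα
  | n + 2 => SHom.dbl (changeHom φ α γ α' γ' hα hγ (n + 1)) (γ (n + 2)) (γ' (n + 2)) (hγ _)

/-- Index type of the coordinates. -/
def Idx : ℕ → Type
  | 0 => Unit
  | n + 1 => Idx n ⊕ Idx n

/-- The element with given coordinates. -/
def assemble {R : Type u} [CommRing R] (α : R) (γ : ℕ → R) :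
    (n : ℕ) → (Idx n → R) → (cayleyDickson α γ n).carrier
  | 0, f => (f () : R)
  | 1, f => (First.mk (f (Sum.inl ())) (f (Sum.inr ())) : First α)
  | n + 2, f =>
      (Dbl.mk (assemble α γ (n + 1) (fun i => f (Sum.inl i)))
        (assemble α γ (n + 1) (fun i => f (Sum.inr i))) :
          Dbl (γ (n + 2)) (cayleyDickson α γ (n + 1)).conj)

theorem assemble_surjective {R : Type u} [CommRing R] (α : R) (γ : ℕ → R) :
    ∀ n : ℕ, Function.Surjective (assemble α γ n)
  | 0 => fun x => ⟨fun _ => (x : R), rfl⟩
  | 1 => fun x => ⟨Sum.elim (fun _ => First.re (α := α) x) (fun _ => First.im (α := α) x), rfl⟩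
  | n + 2 => fun x => by
      obtain ⟨f, hf⟩ := assemble_surjective α γ (n + 1)
        (Dbl.re (γ := γ (n + 2)) (c := (cayleyDickson α γ (n + 1)).conj) x)
      obtain ⟨g, hg⟩ := assemble_surjective α γ (n + 1)
        (Dbl.im (γ := γ (n + 2)) (c := (cayleyDickson α γ (n + 1)).conj) x)
      refine ⟨Sum.elim f g, ?_⟩
      refine Dbl.ext (γ := γ (n + 2)) (c := (cayleyDickson α γ (n + 1)).conj) ?_ ?_
      · exact hf
      · exact hg

theorem change_assemble {R R' : Type u} [CommRing R] [CommRing R'] (φ : R →+* R') (α : R)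
    (γ : ℕ → R) (α' : R') (γ' : ℕ → R') (hα : φ α = α') (hγ : ∀ k, φ (γ k) = γ' k) :
    ∀ (n : ℕ) (f : Idx n → R),
      (changeHom φ α γ α' γ' hα hγ n).toFun (assemble α γ n f) =
        assemble α' γ' n (fun i => φ (f i))
  | 0, f => rfl
  | 1, f => rfl
  | n + 2, f => by
      refine Dbl.ext (γ := γ' (n + 2)) (c := (cayleyDickson α' γ' (n + 1)).conj) ?_ ?_
      · exact change_assemble φ α γ α' γ' hα hγ (n + 1) (fun i => f (Sum.inl i))
      · exact change_assemble φ α γ α' γ' hα hγ (n + 1) (fun i => f (Sum.inr i))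

/-- Jointly injective families of coefficient changes are jointly injective on the algebras. -/
theorem joint_injective {R : Type u} [CommRing R] {ι : Type u} {R' : Type u} [CommRing R']
    (φ : ι → R →+* R') (hφ : ∀ r : R, (∀ i, φ i r = 0) → r = 0) (α : R) (γ : ℕ → R)
    (α' : R') (γ' : ℕ → R') (hα : ∀ i, φ i α = α') (hγ : ∀ i k, φ i (γ k) = γ' k) :
    ∀ (n : ℕ) (x : (cayleyDickson α γ n).carrier),
      (∀ i, (changeHom (φ i) α γ α' γ' (hα i) (hγ i) n).toFun x = 0) → x = 0
  | 0, x, h => hφ x h
  | 1, x, h => by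
      refine First.ext (α := α) ?_ ?_
      · exact hφ _ fun i => congrArg (First.re (α := α')) (h i)
      · exact hφ _ fun i => congrArg (First.im (α := α')) (h i)
  | n + 2, x, h => by
      refine Dbl.ext (γ := γ (n + 2)) (c := (cayleyDickson α γ (n + 1)).conj) ?_ ?_
      · exact joint_injective φ hφ α γ α' γ' hα hγ (n + 1) _ fun i =>
          congrArg (Dbl.re (γ := γ' (n + 2))
            (c := (cayleyDickson α' γ' (n + 1)).conj)) (h i)
      · exact joint_injective φ hφ α γ α' γ' hα hγ (n + 1) _ fun i =>
          congrArg (Dbl.im (γ := γ' (n + 2))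
            (c := (cayleyDickson α' γ' (n + 1)).conj)) (h i)

/-- Evaluation of a nonassociative polynomial with coefficients pushed along `φ`. -/
noncomputable def ev {F R : Type u} [CommRing F] [CommRing R] (φ : F →+* R) {A : Type u}
    [NonUnitalNonAssocRing A] [Module R A] (v : ℕ → A)
    (f : FreeNonUnitalNonAssocAlgebra F ℕ) : A :=
  Finsupp.sum (MonoidAlgebra.coeff f) (fun w r => φ r • FreeMagma.lift v w)

theorem lift_word {A A' : Type u} [Mul A] [Mul A'] (g : A → A')
    (hm : ∀ x y, g (x * y) = g x * g y) (v : ℕ → A) (w : FreeMagma ℕ) :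
    g (FreeMagma.lift v w) = FreeMagma.lift (fun i => g (v i)) w := by
  induction w with
  | ih1 i => simp
  | ih2 a b iha ihb => rw [map_mul, map_mul, hm, iha, ihb]

theorem ev_map {F R R' : Type u} [CommRing F] [CommRing R] [CommRing R'] (ψ : F →+* R)
    (φ : R →+* R') {A A' : Type u} [NonUnitalNonAssocRing A] [Module R A]
    [NonUnitalNonAssocRing A'] [Module R' A'] (g : A → A')
    (ha : ∀ x y, g (x + y) = g x + g y) (hm : ∀ x y, g (x * y) = g x * g y)
    (hs : ∀ (r : R) x, g (r • x) = φ r • g x) (v : ℕ → A)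
    (f : FreeNonUnitalNonAssocAlgebra F ℕ) :
    g (ev ψ v f) = ev (φ.comp ψ) (fun i => g (v i)) f := by
  have h0 : g 0 = 0 := by simpa using hs 0 0
  let G : A →+ A' := { toFun := g, map_zero' := h0, map_add' := ha }
  change G (ev ψ v f) = _
  unfold ev
  rw [map_finsuppSum]
  refine Finsupp.sum_congr fun w _ => ?_
  change g (ψ _ • FreeMagma.lift v w) = _
  rw [hs, lift_word g hm]
  rfl

theorem lift_eq_ev {F : Type u} [CommRing F] {A : Type u} [NonUnitalNonAssocRing A] [Module F A]
    [IsScalarTower F A A] [SMulCommClass F A A] (v : ℕ → A)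
    (f : FreeNonUnitalNonAssocAlgebra F ℕ) :
    FreeNonUnitalNonAssocAlgebra.lift F v f = ev (RingHom.id F) v f := rfl

/-- Over an infinite field an identity of `A_n` stays an identity after extending the scalars. -/
theorem identity_extends {F K : Type u} [Field F] [Infinite F] [CommRing K] (φ : F →+* K)
    (α : F) (γ : ℕ → F) (n : ℕ) (f : FreeNonUnitalNonAssocAlgebra F ℕ)
    (hf : ∀ v : ℕ → (cayleyDickson α γ n).carrier, ev (RingHom.id F) v f = 0)
    (w : ℕ → (cayleyDickson (φ α) (fun k => φ (γ k)) n).carrier) : ev φ w f = 0 := by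
  let σ := ULift.{u} (ℕ × Idx n)
  let C' : F →+* MvPolynomial σ F := MvPolynomial.C
  -- the generic elements
  let g : ℕ → (cayleyDickson (C' α) (fun k => C' (γ k)) n).carrier := fun j =>
    assemble (C' α) (fun k => C' (γ k)) n (fun i => MvPolynomial.X ⟨(j, i)⟩)
  have key : ev C' g f = 0 := by
    refine joint_injective (ι := σ → F) (R' := F)
      (fun e => (MvPolynomial.eval e : MvPolynomial σ F →+* F)) ?_ (C' α) (fun k => C' (γ k))
      α γ (fun e => MvPolynomial.eval_C α) (fun e k => MvPolynomial.eval_C (γ k)) n _ ?_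
    · intro r hr
      exact MvPolynomial.funext fun e => by
        rw [map_zero]
        exact hr e
    · intro e
      have h1 := ev_map C' (MvPolynomial.eval e : MvPolynomial σ F →+* F)
        (changeHom (MvPolynomial.eval e : MvPolynomial σ F →+* F) (C' α) (fun k => C' (γ k))
          α γ (MvPolynomial.eval_C α) (fun k => MvPolynomial.eval_C (γ k)) n).toFun
        (SHom.map_add _) (SHom.map_mul _) (SHom.map_smul _) g f
      rw [h1]
      have h2 : (MvPolynomial.eval e : MvPolynomial σ F →+* F).comp C' = RingHom.id F := by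
        ext r
        exact MvPolynomial.eval_C r
      rw [h2]
      exact hf _
  have hw : ∀ j, ∃ c : Idx n → K, assemble (φ α) (fun k => φ (γ k)) n c = w j :=
    fun j => assemble_surjective _ _ n (w j)
  choose c hc using hw
  let ψ : MvPolynomial σ F →+* K := MvPolynomial.eval₂Hom φ (fun s => c s.down.1 s.down.2)
  have hψα : ψ (C' α) = φ α := MvPolynomial.eval₂Hom_C _ _ _
  have hψγ : ∀ k, ψ (C' (γ k)) = φ (γ k) := fun k => MvPolynomial.eval₂Hom_C _ _ _
  have h1 := ev_map C' ψ
    (changeHom ψ (C' α) (fun k => C' (γ k)) (φ α) (fun k => φ (γ k)) hψα hψγ n).toFun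
    (SHom.map_add _) (SHom.map_mul _) (SHom.map_smul _) g f
  rw [key, SHom.map_zero] at h1
  have h2 : ψ.comp C' = φ := by
    ext r
    exact MvPolynomial.eval₂Hom_C _ _ _
  have h3 : (fun j => (changeHom ψ (C' α) (fun k => C' (γ k)) (φ α) (fun k => φ (γ k))
      hψα hψγ n).toFun (g j)) = w := by
    funext j
    rw [← hc j]
    change (changeHom ψ (C' α) (fun k => C' (γ k)) (φ α) (fun k => φ (γ k))
      hψα hψγ n).toFun (assemble (C' α) (fun k => C' (γ k)) n
        (fun i => MvPolynomial.X ⟨(j, i)⟩)) = _
    rw [change_assemble]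
    congr 1
    funext i
    exact MvPolynomial.eval₂Hom_X' _ _ _
  rw [h2, h3] at h1
  exact h1.symm

end Pool.Agent.H551R3.CD
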