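import Mathlib

set_option autoImplicit false

namespace Pool.Agent.H551R3.CD

universe u

/-- Simplicity: nonzero multiplication and no two-sided ideals except the trivial ones. -/
def IsSimpleAlg (F : Type u) [Field F] (A : Type u) [NonUnitalNonAssocRing A] [Module F A] :
    Prop :=
  (∃ x y : A, x * y ≠ 0) ∧
    ∀ I : Submodule F A, (∀ x ∈ I, ∀ a : A, a * x ∈ I ∧ x * a ∈ I) → I = ⊥ ∨ I = ⊤

/-- `B` satisfies every polynomial identity of `A`, i.e. `B` belongs to `var(A)`. -/
def InVar (F : Type u) [Field F] (A : Type u) [NonUnitalNonAssocRing A] [Module F A]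
    [IsScalarTower F A A] [SMulCommClass F A A] (B : Type u) [NonUnitalNonAssocRing B]
    [Module F B] [IsScalarTower F B B] [SMulCommClass F B B] : Prop :=
  ∀ f : FreeNonUnitalNonAssocAlgebra F ℕ,
    (∀ v : ℕ → A, FreeNonUnitalNonAssocAlgebra.lift F v f = 0) →
      ∀ w : ℕ → B, FreeNonUnitalNonAssocAlgebra.lift F w f = 0

/-- A subalgebra is nilpotent: for some `m ≥ 1` all products of `m` of its elements, under every
bracketing, vanish. -/
def SubNilpotent {F : Type u} [Field F] {B : Type u} [NonUnitalNonAssocRing B] [Module F B]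
    (S : NonUnitalSubalgebra F B) : Prop :=
  ∃ m : ℕ, 1 ≤ m ∧ ∀ (w : FreeMagma ℕ) (v : ℕ → B), (∀ i, v i ∈ S) → w.length = m →
    FreeMagma.lift v w = 0

/-- Every finitely generated subalgebra is nilpotent. -/
def LocallyNilpotent (F : Type u) [Field F] (B : Type u) [NonUnitalNonAssocRing B] [Module F B]
    [IsScalarTower F B B] [SMulCommClass F B B] : Prop :=
  ∀ s : Finset B, SubNilpotent (NonUnitalAlgebra.adjoin F (s : Set B))

/-- The variety generated by `A` is locally admissible: each of its anticommutative members is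
locally nilpotent. -/
def VarLocallyAdmissible (F : Type u) [Field F] (A : Type u) [NonUnitalNonAssocRing A]
    [Module F A] [IsScalarTower F A A] [SMulCommClass F A A] : Prop :=
  ∀ (B : Type u) [NonUnitalNonAssocRing B] [Module F B] [IsScalarTower F B B]
    [SMulCommClass F B B], InVar F A B → (∀ x y : B, x * y = -(y * x)) → LocallyNilpotent F B

end Pool.Agent.H551R3.CD
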