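import Pool.Agent.H551R3.CDChange

set_option autoImplicit false
set_option linter.unusedSectionVars false
set_option linter.unusedSimpArgs false

namespace Pool.Agent.H551R3.CD

universe u

/-- A pair `u, v` with `u v = v = - v u` and `u u = v v = 0`, linearly independent. -/
def HasPair {K : Type u} [Field K] (S : StarAlg K) : Prop :=
  ∃ u v : S.carrier, u * v = v ∧ v * u = -v ∧ u * u = 0 ∧ v * v = 0 ∧
    ∀ a b : K, a • u + b • v = 0 → a = 0 ∧ b = 0

theorem HasPair.double {K : Type u} [Field K] {S : StarAlg K} (h : HasPair S) (γ : K) :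
    HasPair (double S γ) := by
  obtain ⟨u, v, h1, h2, h3, h4, h5⟩ := h
  refine ⟨(Dbl.mk u 0 : Dbl γ S.conj), (Dbl.mk v 0 : Dbl γ S.conj), ?_, ?_, ?_, ?_, ?_⟩
  · refine Dbl.ext (γ := γ) (c := S.conj) ?_ ?_
    · change u * v + γ • (S.conj 0 * 0) = v
      simp [h1]
    · change 0 * u + 0 * S.conj v = 0
      simp
  · refine Dbl.ext (γ := γ) (c := S.conj) ?_ ?_
    · change v * u + γ • (S.conj 0 * 0) = -v
      simp [h2]
    · change 0 * v + 0 * S.conj u = -0
      simp
  · refine Dbl.ext (γ := γ) (c := S.conj) ?_ ?_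
    · change u * u + γ • (S.conj 0 * 0) = 0
      simp [h3]
    · change 0 * u + 0 * S.conj u = 0
      simp
  · refine Dbl.ext (γ := γ) (c := S.conj) ?_ ?_
    · change v * v + γ • (S.conj 0 * 0) = 0
      simp [h4]
    · change 0 * v + 0 * S.conj v = 0
      simp
  · intro a b hab
    exact h5 a b (congrArg (Dbl.re (γ := γ) (c := S.conj)) hab)

/-- The matrix units used in the construction. -/
structure Units {K : Type u} [Field K] (S : StarAlg K) where
  e11 : S.carrier
  e12 : S.carrier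
  e21 : S.carrier
  e22 : S.carrier
  ne : e12 ≠ 0
  ind : ∀ a b : K, a • e11 + b • e12 = 0 → a = 0 ∧ b = 0
  c12 : S.conj e12 = -e12
  c21 : S.conj e21 = -e21
  c11 : S.conj e11 = e22
  h1212 : e12 * e12 = 0
  h2121 : e21 * e21 = 0
  h1112 : e11 * e12 = e12
  h1121 : e11 * e21 = 0
  h1221 : e12 * e21 = e11
  h2211 : e22 * e11 = 0
  h2212 : e22 * e12 = 0
  h1211 : e12 * e11 = 0

theorem Units.hasPair {K : Type u} [Field K] {S : StarAlg K} (E : Units S) (γ₃ γ₄ : K)
    (l : K) (hl : l ^ 4 = γ₄) (hγ : γ₄ ≠ 0) : HasPair (CD.double (CD.double S γ₃) γ₄) := by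
  have l0 : l ≠ 0 := by
    rintro rfl
    apply hγ
    rw [← hl]
    simp
  obtain ⟨p, hp⟩ : ∃ p : S.carrier, p = E.e11 + l • E.e12 := ⟨_, rfl⟩
  obtain ⟨q, hq⟩ : ∃ q : S.carrier, q = (l⁻¹ ^ 2) • E.e11 - l⁻¹ • E.e12 := ⟨_, rfl⟩
  have p21 : p * E.e21 = l • E.e11 := by
    rw [hp, add_mul, smul_mul_assoc, E.h1121, E.h1221, zero_add]
  have p12 : p * E.e12 = E.e12 := by
    rw [hp, add_mul, smul_mul_assoc, E.h1212, E.h1112, smul_zero, add_zero]
  have q21 : q * E.e21 = -(l⁻¹ • E.e11) := by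
    rw [hq, sub_mul, smul_mul_assoc, smul_mul_assoc, E.h1121, E.h1221, smul_zero, zero_sub]
  have q12 : q * E.e12 = (l⁻¹ ^ 2) • E.e12 := by
    rw [hq, sub_mul, smul_mul_assoc, smul_mul_assoc, E.h1212, E.h1112, smul_zero, sub_zero]
  have pp : S.conj p * p = 0 := by
    rw [hp]
    simp only [map_add, map_smul, E.c11, E.c12, add_mul, mul_add, smul_mul_assoc, mul_smul_comm,
      E.h2211, E.h2212, neg_mul, E.h1211, E.h1212]
    simp
  have qq : S.conj q * q = 0 := by
    rw [hq]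
    simp only [map_sub, map_smul, E.c11, E.c12, sub_mul, mul_sub, smul_mul_assoc, mul_smul_comm,
      E.h2211, E.h2212, neg_mul, E.h1211, E.h1212, smul_neg]
    simp
  -- the crucial relations
  have r1 : p * E.e21 + γ₄ • (q * E.e12) = l • p := by
    rw [p21, q12, hp, smul_add, smul_smul, smul_smul, ← hl]
    congr 2
    field_simp
  have r2 : -(q * E.e21) + -(p * E.e12) = l • q := by
    rw [q21, p12, hq, smul_sub, smul_smul, smul_smul, neg_neg]
    have e1 : l * l⁻¹ ^ 2 = l⁻¹ := by field_simp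
    have e2 : l * l⁻¹ = 1 := by field_simp
    rw [e1, e2, one_smul]
    abel
  set T := CD.double S γ₃ with hT
  let a : T.carrier := (Dbl.mk E.e21 0 : Dbl γ₃ S.conj)
  let b : T.carrier := (Dbl.mk E.e12 0 : Dbl γ₃ S.conj)
  let c : T.carrier := (Dbl.mk 0 p : Dbl γ₃ S.conj)
  let d : T.carrier := (Dbl.mk 0 q : Dbl γ₃ S.conj)
  have conj_a : T.conj a = -a := by
    refine Dbl.ext (γ := γ₃) (c := S.conj) ?_ ?_
    · exact E.c21
    · change -(0 : S.carrier) = -0
      rfl
  have conj_b : T.conj b = -b := by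
    refine Dbl.ext (γ := γ₃) (c := S.conj) ?_ ?_
    · exact E.c12
    · change -(0 : S.carrier) = -0
      rfl
  have conj_c : T.conj c = -c := by
    refine Dbl.ext (γ := γ₃) (c := S.conj) ?_ ?_
    · change S.conj 0 = -0
      simp
    · rfl
  have conj_d : T.conj d = -d := by
    refine Dbl.ext (γ := γ₃) (c := S.conj) ?_ ?_
    · change S.conj 0 = -0
      simp
    · rfl
  have aa : a * a = 0 := by
    refine Dbl.ext (γ := γ₃) (c := S.conj) ?_ ?_
    · change E.e21 * E.e21 + γ₃ • (S.conj 0 * 0) = 0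
      simp [E.h2121]
    · change 0 * E.e21 + 0 * S.conj E.e21 = 0
      simp
  have bb : b * b = 0 := by
    refine Dbl.ext (γ := γ₃) (c := S.conj) ?_ ?_
    · change E.e12 * E.e12 + γ₃ • (S.conj 0 * 0) = 0
      simp [E.h1212]
    · change 0 * E.e12 + 0 * S.conj E.e12 = 0
      simp
  have cc : c * c = 0 := by
    refine Dbl.ext (γ := γ₃) (c := S.conj) ?_ ?_
    · change 0 * 0 + γ₃ • (S.conj p * p) = 0
      simp [pp]
    · change p * 0 + p * S.conj 0 = 0
      simp
  have dd : d * d = 0 := by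
    refine Dbl.ext (γ := γ₃) (c := S.conj) ?_ ?_
    · change 0 * 0 + γ₃ • (S.conj q * q) = 0
      simp [qq]
    · change q * 0 + q * S.conj 0 = 0
      simp
  have ac : a * c = (Dbl.mk 0 (p * E.e21) : Dbl γ₃ S.conj) := by
    refine Dbl.ext (γ := γ₃) (c := S.conj) ?_ ?_
    · change E.e21 * 0 + γ₃ • (S.conj p * 0) = 0
      simp
    · change p * E.e21 + 0 * S.conj 0 = p * E.e21
      simp
  have ca : c * a = (Dbl.mk 0 (-(p * E.e21)) : Dbl γ₃ S.conj) := by
    refine Dbl.ext (γ := γ₃) (c := S.conj) ?_ ?_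
    · change 0 * E.e21 + γ₃ • (S.conj 0 * p) = 0
      simp
    · change 0 * 0 + p * S.conj E.e21 = -(p * E.e21)
      simp [E.c21]
  have db : d * b = (Dbl.mk 0 (-(q * E.e12)) : Dbl γ₃ S.conj) := by
    refine Dbl.ext (γ := γ₃) (c := S.conj) ?_ ?_
    · change 0 * E.e12 + γ₃ • (S.conj 0 * q) = 0
      simp
    · change 0 * 0 + q * S.conj E.e12 = -(q * E.e12)
      simp [E.c12]
  have bd : b * d = (Dbl.mk 0 (q * E.e12) : Dbl γ₃ S.conj) := by
    refine Dbl.ext (γ := γ₃) (c := S.conj) ?_ ?_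
    · change E.e12 * 0 + γ₃ • (S.conj q * 0) = 0
      simp
    · change q * E.e12 + 0 * S.conj 0 = q * E.e12
      simp
  have da : d * a = (Dbl.mk 0 (-(q * E.e21)) : Dbl γ₃ S.conj) := by
    refine Dbl.ext (γ := γ₃) (c := S.conj) ?_ ?_
    · change 0 * E.e21 + γ₃ • (S.conj 0 * q) = 0
      simp
    · change 0 * 0 + q * S.conj E.e21 = -(q * E.e21)
      simp [E.c21]
  have bc : b * c = (Dbl.mk 0 (p * E.e12) : Dbl γ₃ S.conj) := by
    refine Dbl.ext (γ := γ₃) (c := S.conj) ?_ ?_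
    · change E.e12 * 0 + γ₃ • (S.conj p * 0) = 0
      simp
    · change p * E.e12 + 0 * S.conj 0 = p * E.e12
      simp
  let u : (CD.double T γ₄).carrier := (Dbl.mk a b : Dbl γ₄ T.conj)
  let v : (CD.double T γ₄).carrier := (Dbl.mk c d : Dbl γ₄ T.conj)
  have s1 : a * c + γ₄ • (T.conj d * b) = l • c := by
    rw [conj_d, neg_mul, db, ac]
    refine Dbl.ext (γ := γ₃) (c := S.conj) ?_ ?_
    · change (0 : S.carrier) + γ₄ • (-(0 : S.carrier)) = l • (0 : S.carrier)
      simp
    · change p * E.e21 + γ₄ • (- -(q * E.e12)) = l • p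
      rw [neg_neg, r1]
  have s2 : d * a + b * T.conj c = l • d := by
    rw [conj_c, mul_neg, bc, da]
    refine Dbl.ext (γ := γ₃) (c := S.conj) ?_ ?_
    · change (0 : S.carrier) + (-(0 : S.carrier)) = l • (0 : S.carrier)
      simp
    · change -(q * E.e21) + -(p * E.e12) = l • q
      rw [r2]
  have uv : u * v = l • v := by
    refine Dbl.ext (γ := γ₄) (c := T.conj) ?_ ?_
    · exact s1
    · exact s2
  have vu : v * u = -(l • v) := by
    refine Dbl.ext (γ := γ₄) (c := T.conj) ?_ ?_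
    · change c * a + γ₄ • (T.conj b * d) = -(l • c)
      rw [← s1, conj_b, conj_d, neg_mul, neg_mul, bd, db, ca, ac]
      refine Dbl.ext (γ := γ₃) (c := S.conj) ?_ ?_
      · change (0 : S.carrier) + γ₄ • (-(0 : S.carrier)) = -((0 : S.carrier) + γ₄ • (-(0 : S.carrier)))
        simp
      · change -(p * E.e21) + γ₄ • (-(q * E.e12)) = -(p * E.e21 + γ₄ • (- -(q * E.e12)))
        simp [add_comm]
    · change b * c + d * T.conj a = -(l • d)
      rw [← s2, conj_a, conj_c, mul_neg, mul_neg]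
      abel
  have uu : u * u = 0 := by
    refine Dbl.ext (γ := γ₄) (c := T.conj) ?_ ?_
    · change a * a + γ₄ • (T.conj b * b) = 0
      rw [conj_b, neg_mul, aa, bb]
      simp
    · change b * a + b * T.conj a = 0
      rw [conj_a, mul_neg]
      simp
  have vv : v * v = 0 := by
    refine Dbl.ext (γ := γ₄) (c := T.conj) ?_ ?_
    · change c * c + γ₄ • (T.conj d * d) = 0
      rw [conj_d, neg_mul, cc, dd]
      simp
    · change d * c + d * T.conj c = 0
      rw [conj_c, mul_neg]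
      simp
  refine ⟨l⁻¹ • u, v, ?_, ?_, ?_, vv, ?_⟩
  · rw [smul_mul_assoc, uv, smul_smul, inv_mul_cancel₀ l0, one_smul]
  · rw [mul_smul_comm, vu, smul_neg, smul_smul, inv_mul_cancel₀ l0, one_smul]
  · rw [smul_mul_assoc, mul_smul_comm, uu, smul_zero, smul_zero]
  · intro x y hxy
    have h1 : x • (l⁻¹ • E.e12) + y • (0 : S.carrier) = 0 :=
      congrArg (fun z => Dbl.re (γ := γ₃) (c := S.conj) (Dbl.im (γ := γ₄) (c := T.conj) z)) hxy
    have h2 : x • (l⁻¹ • (0 : S.carrier)) + y • p = 0 :=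
      congrArg (fun z => Dbl.im (γ := γ₃) (c := S.conj) (Dbl.re (γ := γ₄) (c := T.conj) z)) hxy
    rw [smul_zero, add_zero, smul_smul] at h1
    rw [smul_zero, smul_zero, zero_add, hp, smul_add, smul_smul] at h2
    constructor
    · have := (smul_eq_zero.mp h1).resolve_right E.ne
      exact (mul_eq_zero.mp this).resolve_right (inv_ne_zero l0)
    · exact (E.ind _ _ h2).1

end Pool.Agent.H551R3.CD
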