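import Pool.Agent.H551R3.CDPair
import Pool.Agent.H551R3.CDDefs

set_option autoImplicit false
set_option linter.unusedSectionVars false
set_option linter.unusedSimpArgs false

namespace Pool.Agent.H551R3.CD

universe u

/-- Unital quadratic structure with nondegenerate norm. -/
structure Quad {F : Type u} [Field F] (S : StarAlg F) where
  one : S.carrier
  t : S.carrier → F
  B : S.carrier → S.carrier → F
  one_mul' : ∀ x, one * x = x
  mul_one' : ∀ x, x * one = x
  t_one : t one = 2
  one_ne : one ≠ 0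
  t_sub : ∀ x y, t (x - y) = t x - t y
  t_smul : ∀ (r : F) x, t (r • x) = r * t x
  conj_eq : ∀ x, S.conj x = t x • one - x
  norm : ∀ x y, x * S.conj y + y * S.conj x = B x y • one
  norm' : ∀ x y, S.conj x * y + S.conj y * x = B x y • one
  B_add : ∀ x y z, B x (y + z) = B x y + B x z
  B_smul : ∀ (r : F) x y, B x (r • y) = r * B x y
  B_zero : ∀ x, B 0 x = 0
  nondeg : ∀ x, (∀ y, B x y = 0) → x = 0

variable {F : Type u} [Field F]

theorem Quad.conj_conj {S : StarAlg F} (Q : Quad S) (x : S.carrier) : S.conj (S.conj x) = x := by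
  rw [Q.conj_eq (S.conj x), Q.conj_eq x, Q.t_sub, Q.t_smul, Q.t_one, ← sub_add, ← sub_smul]
  have : Q.t x * 2 - Q.t x - Q.t x = 0 := by ring
  rw [this, zero_smul, zero_add]

/-- Doubling keeps the structure. -/
def Quad.double {S : StarAlg F} (Q : Quad S) (γ : F) (hγ : γ ≠ 0) : Quad (CD.double S γ) where
  one := (Dbl.mk Q.one 0 : Dbl γ S.conj)
  t := fun x => Q.t (Dbl.re (γ := γ) (c := S.conj) x)
  B := fun x y => Q.B (Dbl.re (γ := γ) (c := S.conj) x) (Dbl.re (γ := γ) (c := S.conj) y) -
    γ * Q.B (Dbl.im (γ := γ) (c := S.conj) x) (Dbl.im (γ := γ) (c := S.conj) y)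
  one_mul' := by
    intro x
    refine Dbl.ext (γ := γ) (c := S.conj) ?_ ?_
    · change Q.one * Dbl.re (γ := γ) (c := S.conj) x +
        γ • (S.conj (Dbl.im (γ := γ) (c := S.conj) x) * 0) = _
      rw [Q.one_mul', mul_zero, smul_zero, add_zero]
    · change Dbl.im (γ := γ) (c := S.conj) x * Q.one +
        0 * S.conj (Dbl.re (γ := γ) (c := S.conj) x) = _
      rw [Q.mul_one', zero_mul, add_zero]
  mul_one' := by
    intro x
    refine Dbl.ext (γ := γ) (c := S.conj) ?_ ?_
    · change Dbl.re (γ := γ) (c := S.conj) x * Q.one +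
        γ • (S.conj 0 * Dbl.im (γ := γ) (c := S.conj) x) = _
      rw [Q.mul_one', map_zero, zero_mul, smul_zero, add_zero]
    · change 0 * Dbl.re (γ := γ) (c := S.conj) x +
        Dbl.im (γ := γ) (c := S.conj) x * S.conj Q.one = _
      rw [Q.conj_eq, Q.t_one, two_smul, add_sub_cancel_right, Q.mul_one', zero_mul, zero_add]
  t_one := Q.t_one
  one_ne := fun h => Q.one_ne (congrArg (Dbl.re (γ := γ) (c := S.conj)) h)
  t_sub := fun x y => Q.t_sub _ _
  t_smul := fun r x => Q.t_smul _ _
  conj_eq := by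
    intro x
    refine Dbl.ext (γ := γ) (c := S.conj) ?_ ?_
    · exact Q.conj_eq _
    · change -(Dbl.im (γ := γ) (c := S.conj) x) =
        Q.t (Dbl.re (γ := γ) (c := S.conj) x) • (0 : S.carrier) -
          Dbl.im (γ := γ) (c := S.conj) x
      rw [smul_zero, zero_sub]
  norm := by
    intro x y
    obtain ⟨a, ha⟩ : ∃ a, a = Dbl.re (γ := γ) (c := S.conj) x := ⟨_, rfl⟩
    obtain ⟨b, hb⟩ : ∃ a, a = Dbl.im (γ := γ) (c := S.conj) x := ⟨_, rfl⟩
    obtain ⟨c, hc⟩ : ∃ a, a = Dbl.re (γ := γ) (c := S.conj) y := ⟨_, rfl⟩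
    obtain ⟨d, hd⟩ : ∃ a, a = Dbl.im (γ := γ) (c := S.conj) y := ⟨_, rfl⟩
    refine Dbl.ext (γ := γ) (c := S.conj) ?_ ?_
    · change (Dbl.re (γ := γ) (c := S.conj) x * S.conj (Dbl.re (γ := γ) (c := S.conj) y) +
          γ • (S.conj (-(Dbl.im (γ := γ) (c := S.conj) y)) * Dbl.im (γ := γ) (c := S.conj) x)) +
        (Dbl.re (γ := γ) (c := S.conj) y * S.conj (Dbl.re (γ := γ) (c := S.conj) x) +
          γ • (S.conj (-(Dbl.im (γ := γ) (c := S.conj) x)) * Dbl.im (γ := γ) (c := S.conj) y)) =
        (Q.B (Dbl.re (γ := γ) (c := S.conj) x) (Dbl.re (γ := γ) (c := S.conj) y) -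
          γ * Q.B (Dbl.im (γ := γ) (c := S.conj) x) (Dbl.im (γ := γ) (c := S.conj) y)) • Q.one
      rw [← ha, ← hb, ← hc, ← hd]
      rw [sub_smul, mul_smul, ← Q.norm a c, ← Q.norm' b d, map_neg, map_neg, neg_mul, neg_mul,
        smul_neg, smul_neg, smul_add]
      abel
    · change (-(Dbl.im (γ := γ) (c := S.conj) y) * Dbl.re (γ := γ) (c := S.conj) x +
          Dbl.im (γ := γ) (c := S.conj) x * S.conj (S.conj (Dbl.re (γ := γ) (c := S.conj) y))) +
        (-(Dbl.im (γ := γ) (c := S.conj) x) * Dbl.re (γ := γ) (c := S.conj) y +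
          Dbl.im (γ := γ) (c := S.conj) y * S.conj (S.conj (Dbl.re (γ := γ) (c := S.conj) x))) =
        (Q.B (Dbl.re (γ := γ) (c := S.conj) x) (Dbl.re (γ := γ) (c := S.conj) y) -
          γ * Q.B (Dbl.im (γ := γ) (c := S.conj) x) (Dbl.im (γ := γ) (c := S.conj) y)) •
            (0 : S.carrier)
      rw [← ha, ← hb, ← hc, ← hd, Q.conj_conj, Q.conj_conj, smul_zero, neg_mul, neg_mul]
      abel
  norm' := by
    intro x y
    obtain ⟨a, ha⟩ : ∃ a, a = Dbl.re (γ := γ) (c := S.conj) x := ⟨_, rfl⟩
    obtain ⟨b, hb⟩ : ∃ a, a = Dbl.im (γ := γ) (c := S.conj) x := ⟨_, rfl⟩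
    obtain ⟨c, hc⟩ : ∃ a, a = Dbl.re (γ := γ) (c := S.conj) y := ⟨_, rfl⟩
    obtain ⟨d, hd⟩ : ∃ a, a = Dbl.im (γ := γ) (c := S.conj) y := ⟨_, rfl⟩
    refine Dbl.ext (γ := γ) (c := S.conj) ?_ ?_
    · change (S.conj (Dbl.re (γ := γ) (c := S.conj) x) * Dbl.re (γ := γ) (c := S.conj) y +
          γ • (S.conj (Dbl.im (γ := γ) (c := S.conj) y) * -(Dbl.im (γ := γ) (c := S.conj) x))) +
        (S.conj (Dbl.re (γ := γ) (c := S.conj) y) * Dbl.re (γ := γ) (c := S.conj) x +
          γ • (S.conj (Dbl.im (γ := γ) (c := S.conj) x) * -(Dbl.im (γ := γ) (c := S.conj) y))) =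
        (Q.B (Dbl.re (γ := γ) (c := S.conj) x) (Dbl.re (γ := γ) (c := S.conj) y) -
          γ * Q.B (Dbl.im (γ := γ) (c := S.conj) x) (Dbl.im (γ := γ) (c := S.conj) y)) • Q.one
      rw [← ha, ← hb, ← hc, ← hd]
      rw [sub_smul, mul_smul, ← Q.norm' a c, ← Q.norm' b d, mul_neg, mul_neg,
        smul_neg, smul_neg, smul_add]
      abel
    · change (Dbl.im (γ := γ) (c := S.conj) y * S.conj (Dbl.re (γ := γ) (c := S.conj) x) +
          -(Dbl.im (γ := γ) (c := S.conj) x) * S.conj (Dbl.re (γ := γ) (c := S.conj) y)) +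
        (Dbl.im (γ := γ) (c := S.conj) x * S.conj (Dbl.re (γ := γ) (c := S.conj) y) +
          -(Dbl.im (γ := γ) (c := S.conj) y) * S.conj (Dbl.re (γ := γ) (c := S.conj) x)) =
        (Q.B (Dbl.re (γ := γ) (c := S.conj) x) (Dbl.re (γ := γ) (c := S.conj) y) -
          γ * Q.B (Dbl.im (γ := γ) (c := S.conj) x) (Dbl.im (γ := γ) (c := S.conj) y)) •
            (0 : S.carrier)
      rw [← ha, ← hb, ← hc, ← hd, smul_zero, neg_mul, neg_mul]
      abel
  B_add := by
    intro x y z
    change Q.B (Dbl.re (γ := γ) (c := S.conj) x)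
        (Dbl.re (γ := γ) (c := S.conj) y + Dbl.re (γ := γ) (c := S.conj) z) -
      γ * Q.B (Dbl.im (γ := γ) (c := S.conj) x)
        (Dbl.im (γ := γ) (c := S.conj) y + Dbl.im (γ := γ) (c := S.conj) z) = _
    rw [Q.B_add, Q.B_add]
    ring
  B_smul := by
    intro r x y
    change Q.B (Dbl.re (γ := γ) (c := S.conj) x) (r • Dbl.re (γ := γ) (c := S.conj) y) -
      γ * Q.B (Dbl.im (γ := γ) (c := S.conj) x) (r • Dbl.im (γ := γ) (c := S.conj) y) = _
    rw [Q.B_smul, Q.B_smul]
    ring
  B_zero := by
    intro x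
    change Q.B 0 _ - γ * Q.B 0 _ = _
    rw [Q.B_zero, Q.B_zero]
    ring
  nondeg := by
    intro x hx
    have hB0 : ∀ z, Q.B z 0 = 0 := fun z => by
      have := Q.B_smul 0 z 0
      rwa [zero_smul, zero_mul] at this
    refine Dbl.ext (γ := γ) (c := S.conj) ?_ ?_
    · refine Q.nondeg _ fun y => ?_
      have := hx (Dbl.mk y 0 : Dbl γ S.conj)
      change Q.B _ y - γ * Q.B _ 0 = 0 at this
      rwa [hB0, mul_zero, sub_zero] at this
    · refine Q.nondeg _ fun y => ?_
      have := hx (Dbl.mk 0 y : Dbl γ S.conj)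
      change Q.B _ 0 - γ * Q.B _ y = 0 at this
      rw [hB0, zero_sub, neg_eq_zero] at this
      exact (mul_eq_zero.mp this).resolve_left hγ

/-- The structure on `A_1`. -/
def quadFirst (α : F) (hα : 1 + 4 * α ≠ 0) : Quad (first α) where
  one := (First.mk 1 0 : First α)
  t := fun x => 2 * First.re (α := α) x + First.im (α := α) x
  B := fun x y => 2 * (First.re (α := α) x * First.re (α := α) y) +
    First.re (α := α) x * First.im (α := α) y + First.im (α := α) x * First.re (α := α) y -
    2 * α * (First.im (α := α) x * First.im (α := α) y)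
  one_mul' := by
    intro x
    refine First.ext (α := α) ?_ ?_
    · change 1 * First.re (α := α) x + α * (0 * First.im (α := α) x) = _
      ring
    · change 1 * First.im (α := α) x + 0 * First.re (α := α) x + 0 * First.im (α := α) x = _
      ring
  mul_one' := by
    intro x
    refine First.ext (α := α) ?_ ?_
    · change First.re (α := α) x * 1 + α * (First.im (α := α) x * 0) = _
      ring
    · change First.re (α := α) x * 0 + First.im (α := α) x * 1 + First.im (α := α) x * 0 = _
      ring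
  t_one := by
    change (2 : F) * 1 + 0 = 2
    ring
  one_ne := fun h => one_ne_zero (congrArg (First.re (α := α)) h)
  t_sub := by
    intro x y
    change 2 * (First.re (α := α) x - First.re (α := α) y) +
      (First.im (α := α) x - First.im (α := α) y) = _
    ring
  t_smul := by
    intro r x
    change 2 * (r * First.re (α := α) x) + (r * First.im (α := α) x) = _
    ring
  conj_eq := by
    intro x
    refine First.ext (α := α) ?_ ?_
    · change First.re (α := α) x + First.im (α := α) x =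
        (2 * First.re (α := α) x + First.im (α := α) x) * 1 - First.re (α := α) x
      ring
    · change -(First.im (α := α) x) =
        (2 * First.re (α := α) x + First.im (α := α) x) * 0 - First.im (α := α) x
      ring
  norm := by
    intro x y
    obtain ⟨a, ha⟩ : ∃ a, a = First.re (α := α) x := ⟨_, rfl⟩
    obtain ⟨b, hb⟩ : ∃ a, a = First.im (α := α) x := ⟨_, rfl⟩
    obtain ⟨c, hc⟩ : ∃ a, a = First.re (α := α) y := ⟨_, rfl⟩
    obtain ⟨d, hd⟩ : ∃ a, a = First.im (α := α) y := ⟨_, rfl⟩
    refine First.ext (α := α) ?_ ?_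
    · change (First.re (α := α) x * (First.re (α := α) y + First.im (α := α) y) +
          α * (First.im (α := α) x * -(First.im (α := α) y))) +
        (First.re (α := α) y * (First.re (α := α) x + First.im (α := α) x) +
          α * (First.im (α := α) y * -(First.im (α := α) x))) =
        (2 * (First.re (α := α) x * First.re (α := α) y) +
    First.re (α := α) x * First.im (α := α) y + First.im (α := α) x * First.re (α := α) y -
    2 * α * (First.im (α := α) x * First.im (α := α) y)) * 1
      rw [← ha, ← hb, ← hc, ← hd]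
      ring
    · change (First.re (α := α) x * -(First.im (α := α) y) +
          First.im (α := α) x * (First.re (α := α) y + First.im (α := α) y) +
          First.im (α := α) x * -(First.im (α := α) y)) +
        (First.re (α := α) y * -(First.im (α := α) x) +
          First.im (α := α) y * (First.re (α := α) x + First.im (α := α) x) +
          First.im (α := α) y * -(First.im (α := α) x)) =
        (2 * (First.re (α := α) x * First.re (α := α) y) +
    First.re (α := α) x * First.im (α := α) y + First.im (α := α) x * First.re (α := α) y -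
    2 * α * (First.im (α := α) x * First.im (α := α) y)) * 0
      rw [← ha, ← hb, ← hc, ← hd]
      ring
  norm' := by
    intro x y
    obtain ⟨a, ha⟩ : ∃ a, a = First.re (α := α) x := ⟨_, rfl⟩
    obtain ⟨b, hb⟩ : ∃ a, a = First.im (α := α) x := ⟨_, rfl⟩
    obtain ⟨c, hc⟩ : ∃ a, a = First.re (α := α) y := ⟨_, rfl⟩
    obtain ⟨d, hd⟩ : ∃ a, a = First.im (α := α) y := ⟨_, rfl⟩
    refine First.ext (α := α) ?_ ?_
    · change ((First.re (α := α) x + First.im (α := α) x) * First.re (α := α) y +
          α * (-(First.im (α := α) x) * First.im (α := α) y)) +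
        ((First.re (α := α) y + First.im (α := α) y) * First.re (α := α) x +
          α * (-(First.im (α := α) y) * First.im (α := α) x)) =
        (2 * (First.re (α := α) x * First.re (α := α) y) +
    First.re (α := α) x * First.im (α := α) y + First.im (α := α) x * First.re (α := α) y -
    2 * α * (First.im (α := α) x * First.im (α := α) y)) * 1
      rw [← ha, ← hb, ← hc, ← hd]
      ring
    · change ((First.re (α := α) x + First.im (α := α) x) * First.im (α := α) y +
          -(First.im (α := α) x) * First.re (α := α) y +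
          -(First.im (α := α) x) * First.im (α := α) y) +
        ((First.re (α := α) y + First.im (α := α) y) * First.im (α := α) x +
          -(First.im (α := α) y) * First.re (α := α) x +
          -(First.im (α := α) y) * First.im (α := α) x) =
        (2 * (First.re (α := α) x * First.re (α := α) y) +
    First.re (α := α) x * First.im (α := α) y + First.im (α := α) x * First.re (α := α) y -
    2 * α * (First.im (α := α) x * First.im (α := α) y)) * 0
      rw [← ha, ← hb, ← hc, ← hd]
      ring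
  B_add := by
    intro x y z
    change 2 * (First.re (α := α) x * (First.re (α := α) y + First.re (α := α) z)) +
      First.re (α := α) x * (First.im (α := α) y + First.im (α := α) z) +
      First.im (α := α) x * (First.re (α := α) y + First.re (α := α) z) -
      2 * α * (First.im (α := α) x * (First.im (α := α) y + First.im (α := α) z)) = _
    ring
  B_smul := by
    intro r x y
    change 2 * (First.re (α := α) x * (r * First.re (α := α) y)) +
      First.re (α := α) x * (r * First.im (α := α) y) +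
      First.im (α := α) x * (r * First.re (α := α) y) -
      2 * α * (First.im (α := α) x * (r * First.im (α := α) y)) = _
    ring
  B_zero := by
    intro x
    change 2 * (0 * First.re (α := α) x) + 0 * First.im (α := α) x + 0 * First.re (α := α) x -
      2 * α * (0 * First.im (α := α) x) = 0
    ring
  nondeg := by
    intro x hx
    have h1 := hx (First.mk 1 0 : First α)
    have h2 := hx (First.mk 0 1 : First α)
    change 2 * (First.re (α := α) x * 1) + First.re (α := α) x * 0 + First.im (α := α) x * 1 -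
      2 * α * (First.im (α := α) x * 0) = 0 at h1
    change 2 * (First.re (α := α) x * 0) + First.re (α := α) x * 1 + First.im (α := α) x * 0 -
      2 * α * (First.im (α := α) x * 1) = 0 at h2
    have h3 : (1 + 4 * α) * First.re (α := α) x = 0 := by linear_combination h2 + 2 * α * h1
    have h4 := (mul_eq_zero.mp h3).resolve_left hα
    refine First.ext (α := α) h4 ?_
    change First.im (α := α) x = 0
    linear_combination h1 - 2 * h4

/-- The structure on all `A_n`, `n ≥ 1`. -/
def quadCD (α : F) (hα : 1 + 4 * α ≠ 0) (γ : ℕ → F) (hγ : ∀ k, γ k ≠ 0) :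
    (n : ℕ) → Quad (cayleyDickson α γ (n + 1))
  | 0 => quadFirst α hα
  | n + 1 => (quadCD α hα γ hγ n).double (γ (n + 2)) (hγ _)

/-- Three linearly independent vectors, one of them the unit. -/
def Three {S : StarAlg F} (Q : Quad S) : Prop :=
  ∃ y z : S.carrier, ∀ a b c : F, a • y + b • z + c • Q.one = 0 → a = 0 ∧ b = 0 ∧ c = 0

theorem three_of_two {S : StarAlg F} (Q : Quad S) (γ : F) (hγ : γ ≠ 0) (y : S.carrier)
    (h : ∀ a b : F, a • y + b • Q.one = 0 → a = 0 ∧ b = 0) : Three (Q.double γ hγ) := by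
  refine ⟨(Dbl.mk y 0 : Dbl γ S.conj), (Dbl.mk 0 Q.one : Dbl γ S.conj), ?_⟩
  intro a b c habc
  have h1 : a • y + b • (0 : S.carrier) + c • Q.one = 0 :=
    congrArg (Dbl.re (γ := γ) (c := S.conj)) habc
  have h2 : a • (0 : S.carrier) + b • Q.one + c • (0 : S.carrier) = 0 :=
    congrArg (Dbl.im (γ := γ) (c := S.conj)) habc
  rw [smul_zero, add_zero] at h1
  rw [smul_zero, smul_zero, add_zero, zero_add] at h2
  exact ⟨(h _ _ h1).1, (smul_eq_zero.mp h2).resolve_right Q.one_ne, (h _ _ h1).2⟩

theorem Three.double {S : StarAlg F} {Q : Quad S} (h : Three Q) (γ : F) (hγ : γ ≠ 0) :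
    Three (Q.double γ hγ) := by
  obtain ⟨y, z, hyz⟩ := h
  refine ⟨(Dbl.mk y 0 : Dbl γ S.conj), (Dbl.mk z 0 : Dbl γ S.conj), ?_⟩
  intro a b c habc
  exact hyz a b c (congrArg (Dbl.re (γ := γ) (c := S.conj)) habc)

theorem three_CD (α : F) (hα : 1 + 4 * α ≠ 0) (γ : ℕ → F) (hγ : ∀ k, γ k ≠ 0) :
    ∀ n : ℕ, Three (quadCD α hα γ hγ (n + 1))
  | 0 => by
    refine three_of_two _ _ _ (First.mk 0 1 : First α) ?_
    intro a b hab
    have h1 : a * 0 + b * 1 = 0 := congrArg (First.re (α := α)) hab
    have h2 : a * 1 + b * 0 = 0 := congrArg (First.im (α := α)) hab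
    constructor
    · linear_combination h2
    · linear_combination h1
  | n + 1 => (three_CD α hα γ hγ n).double _ _

theorem simple_of_three {S : StarAlg F} (Q : Quad S) (h3 : Three Q) :
    IsSimpleAlg F S.carrier := by
  have B_one : ∀ z, Q.B z Q.one = Q.t z := by
    intro z
    have h := Q.norm z Q.one
    have e1 : S.conj Q.one = Q.one := by
      rw [Q.conj_eq, Q.t_one, two_smul, add_sub_cancel_right]
    rw [e1, Q.mul_one', Q.one_mul', Q.conj_eq, add_sub_cancel] at h
    have : (Q.t z - Q.B z Q.one) • Q.one = 0 := by rw [sub_smul, h, sub_self]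
    have := (smul_eq_zero.mp this).resolve_right Q.one_ne
    linear_combination -this
  refine ⟨⟨Q.one, Q.one, by rw [Q.one_mul']; exact Q.one_ne⟩, ?_⟩
  intro I hI
  by_cases h1 : Q.one ∈ I
  · right
    rw [Submodule.eq_top_iff']
    intro x
    have := (hI _ h1 x).1
    rwa [Q.mul_one'] at this
  left
  have hconj : ∀ x ∈ I, ∀ y ∈ I, x * S.conj y ∈ I := by
    intro x hx y hy
    rw [Q.conj_eq, mul_sub, mul_smul_comm, Q.mul_one']
    exact I.sub_mem (I.smul_mem _ hx) ((hI _ hy _).1)
  have hiso : ∀ x ∈ I, ∀ y ∈ I, Q.B x y = 0 := by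
    intro x hx y hy
    by_contra hne
    apply h1
    have hm : Q.B x y • Q.one ∈ I := by
      rw [← Q.norm]
      exact I.add_mem (hconj x hx y hy) (hconj y hy x hx)
    have := I.smul_mem (Q.B x y)⁻¹ hm
    rwa [smul_smul, inv_mul_cancel₀ hne, one_smul] at this
  have hred : ∀ x ∈ I, ∀ y, Q.B x y • Q.one - Q.t x • y ∈ I := by
    intro x hx y
    have : Q.B x y • Q.one - Q.t x • y = x * S.conj y - y * x := by
      rw [← Q.norm, Q.conj_eq x, mul_sub, mul_smul_comm, Q.mul_one']
      abel
    rw [this]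
    refine I.sub_mem ?_ (hI _ hx _).1
    exact (hI _ hx _).2
  by_cases ht : ∀ x ∈ I, Q.t x = 0
  · rw [Submodule.eq_bot_iff]
    intro x hx
    refine Q.nondeg x fun y => ?_
    by_contra hne
    apply h1
    have := hred x hx y
    rw [ht x hx, zero_smul, sub_zero] at this
    have := I.smul_mem (Q.B x y)⁻¹ this
    rwa [smul_smul, inv_mul_cancel₀ hne, one_smul] at this
  exfalso
  push Not at ht
  obtain ⟨x, hx, htx⟩ := ht
  -- every element is congruent to a multiple of one modulo I
  have hmod : ∀ y, ∃ r : F, y - r • Q.one ∈ I := by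
    intro y
    refine ⟨(Q.t x)⁻¹ * Q.B x y, ?_⟩
    have := I.smul_mem (-(Q.t x)⁻¹) (hred x hx y)
    have e : -(Q.t x)⁻¹ • (Q.B x y • Q.one - Q.t x • y) =
        y - ((Q.t x)⁻¹ * Q.B x y) • Q.one := by
      rw [smul_sub, smul_smul, smul_smul, neg_mul, neg_mul, inv_mul_cancel₀ htx, neg_smul,
        neg_smul, one_smul]
      abel
    rwa [e] at this
  have hker : ∀ z ∈ I, Q.t z = 0 → z = 0 := by
    intro z hz htz
    refine Q.nondeg z fun y => ?_
    obtain ⟨r, hr⟩ := hmod y
    have e : y = (y - r • Q.one) + r • Q.one := by abel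
    rw [e, Q.B_add, Q.B_smul, B_one, htz, mul_zero, add_zero]
    exact hiso _ hz _ hr
  obtain ⟨y, z, hyz⟩ := h3
  obtain ⟨r, hr⟩ := hmod y
  obtain ⟨s, hs⟩ := hmod z
  have hw : Q.t (z - s • Q.one) • (y - r • Q.one) - Q.t (y - r • Q.one) • (z - s • Q.one) = 0 := by
    refine hker _ (I.sub_mem (I.smul_mem _ hr) (I.smul_mem _ hs)) ?_
    rw [Q.t_sub, Q.t_smul, Q.t_smul]
    ring
  have hw' : Q.t (z - s • Q.one) • y + (-Q.t (y - r • Q.one)) • z +
      (-(Q.t (z - s • Q.one) * r) + Q.t (y - r • Q.one) * s) • Q.one = 0 := by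
    rw [← hw]
    module
  obtain ⟨-, h5, -⟩ := hyz _ _ _ hw'
  have h6 : y - r • Q.one = 0 := hker _ hr (neg_eq_zero.mp h5)
  have h7 : (1 : F) • y + (0 : F) • z + (-r) • Q.one = 0 := by
    rw [← h6]
    module
  exact one_ne_zero (hyz _ _ _ h7).1

/-- For `n ≥ 2` every algebra of the process is simple. -/
theorem simple_CD (α : F) (hα : 1 + 4 * α ≠ 0) (γ : ℕ → F) (hγ : ∀ k, γ k ≠ 0) (n : ℕ)
    (hn : 2 ≤ n) : IsSimpleAlg F (cayleyDickson α γ n).carrier := by
  obtain ⟨k, rfl⟩ := Nat.exists_eq_add_of_le hn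
  have e : 2 + k = k + 1 + 1 := by omega
  rw [e]
  exact simple_of_three _ (three_CD α hα γ hγ k)

end Pool.Agent.H551R3.CD
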