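import Pool.Agent.H551R3.CDSimple

set_option autoImplicit false
set_option linter.unusedSectionVars false

namespace Pool.Agent.H551R3.CD

universe u

section Two

variable (F : Type u) [Field F]

/-- The two-dimensional algebra with basis `u, v` and `u v = v = - v u`, `u u = v v = 0`. -/
def Two : Type u := F × F

instance : AddCommGroup (Two F) := inferInstanceAs (AddCommGroup (F × F))
instance : Module F (Two F) := inferInstanceAs (Module F (F × F))

variable {F}

/-- The coordinate at `u`. -/
def Two.p (x : Two F) : F := Prod.fst x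

/-- The coordinate at `v`. -/
def Two.q (x : Two F) : F := Prod.snd x

/-- The element with the given coordinates. -/
def Two.mk (a b : F) : Two F := (a, b)

instance : Mul (Two F) := ⟨fun x y => Two.mk 0 (x.p * y.q - x.q * y.p)⟩

theorem Two.ext' {x y : Two F} (h1 : x.p = y.p) (h2 : x.q = y.q) : x = y := Prod.ext h1 h2

theorem Two.p_mul (x y : Two F) : (x * y).p = 0 := rfl
theorem Two.q_mul (x y : Two F) : (x * y).q = x.p * y.q - x.q * y.p := rfl
theorem Two.p_add (x y : Two F) : (x + y).p = x.p + y.p := rfl
theorem Two.q_add (x y : Two F) : (x + y).q = x.q + y.q := rfl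
theorem Two.p_smul (r : F) (x : Two F) : (r • x).p = r * x.p := rfl
theorem Two.q_smul (r : F) (x : Two F) : (r • x).q = r * x.q := rfl
theorem Two.p_zero : (0 : Two F).p = 0 := rfl
theorem Two.q_zero : (0 : Two F).q = 0 := rfl
theorem Two.p_neg (x : Two F) : (-x).p = -x.p := rfl
theorem Two.q_neg (x : Two F) : (-x).q = -x.q := rfl

instance : NonUnitalNonAssocRing (Two F) :=
  { (inferInstance : AddCommGroup (Two F)), (inferInstance : Mul (Two F)) with
    left_distrib := by
      intro x y z
      refine Two.ext' ?_ ?_
      · rw [Two.p_mul, Two.p_add, Two.p_mul, Two.p_mul, add_zero]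
      · change x.p * (y.q + z.q) - x.q * (y.p + z.p) =
          (x.p * y.q - x.q * y.p) + (x.p * z.q - x.q * z.p)
        ring
    right_distrib := by
      intro x y z
      refine Two.ext' ?_ ?_
      · rw [Two.p_mul, Two.p_add, Two.p_mul, Two.p_mul, add_zero]
      · change (x.p + y.p) * z.q - (x.q + y.q) * z.p =
          (x.p * z.q - x.q * z.p) + (y.p * z.q - y.q * z.p)
        ring
    zero_mul := by
      intro x
      refine Two.ext' rfl ?_
      rw [Two.q_mul, Two.q_zero, Two.p_zero]
      ring
    mul_zero := by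
      intro x
      refine Two.ext' rfl ?_
      rw [Two.q_mul, Two.q_zero, Two.p_zero]
      ring }

instance : IsScalarTower F (Two F) (Two F) := ⟨by
  intro r x y
  refine Two.ext' ?_ ?_
  · change (0 : F) = r * 0
    ring
  · change (r * x.p) * y.q - (r * x.q) * y.p = r * (x.p * y.q - x.q * y.p)
    ring⟩

instance : SMulCommClass F (Two F) (Two F) := ⟨by
  intro r x y
  refine Two.ext' ?_ ?_
  · change r * 0 = (0 : F)
    ring
  · change r * (x.p * y.q - x.q * y.p) = x.p * (r * y.q) - x.q * (r * y.p)
    ring⟩

theorem Two.anti (x y : Two F) : x * y = -(y * x) := by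
  refine Two.ext' ?_ ?_
  · rw [Two.p_neg, Two.p_mul, Two.p_mul, neg_zero]
  · rw [Two.q_neg, Two.q_mul, Two.q_mul]
    ring

/-- The word `x_0 (x_0 (... (x_0 x_1)))` with `k` letters `x_0`. -/
def leftWord : ℕ → FreeMagma ℕ
  | 0 => FreeMagma.of 1
  | k + 1 => FreeMagma.of 0 * leftWord k

theorem leftWord_length (k : ℕ) : (leftWord k).length = k + 1 := by
  induction k with
  | zero => rfl
  | succ k ih =>
    change (FreeMagma.of 0).length + (leftWord k).length = _
    rw [ih]
    change 1 + (k + 1) = _
    omega

/-- The values at the variables. -/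
def vals (i : ℕ) : Two F := if i = 0 then Two.mk 1 0 else Two.mk 0 1

theorem leftWord_val (k : ℕ) : FreeMagma.lift (vals (F := F)) (leftWord k) = Two.mk 0 1 := by
  induction k with
  | zero => simp [leftWord, vals]
  | succ k ih =>
    change FreeMagma.lift vals (FreeMagma.of 0 * leftWord k) = _
    rw [map_mul, ih, FreeMagma.lift_of]
    refine Two.ext' rfl ?_
    change (1 : F) * 1 - 0 * 0 = 1
    ring

theorem two_not_locallyNilpotent : ¬ LocallyNilpotent F (Two F) := by
  classical
  intro h
  obtain ⟨m, hm1, hm⟩ := h {Two.mk 1 0, Two.mk 0 1}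
  have h1 := hm (leftWord (m - 1)) (vals (F := F)) (by
    intro i
    refine NonUnitalAlgebra.subset_adjoin F ?_
    unfold vals
    split_ifs <;> simp) (by rw [leftWord_length]; omega)
  rw [leftWord_val] at h1
  exact one_ne_zero (congrArg Two.q h1)

end Two

/-- If the extension of `A_n` to a field `K` contains a pair as in `HasPair`, the
two-dimensional algebra lies in the variety. -/
theorem two_inVar {F K : Type u} [Field F] [Infinite F] [Field K] (φ : F →+* K) (α : F)
    (γ : ℕ → F) (n : ℕ) (h : HasPair (cayleyDickson (φ α) (fun k => φ (γ k)) n)) :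
    InVar F (cayleyDickson α γ n).carrier (Two F) := by
  intro f hf w
  obtain ⟨u, v, huv, hvu, huu, hvv, hind⟩ := h
  let g : Two F → (cayleyDickson (φ α) (fun k => φ (γ k)) n).carrier :=
    fun x => φ x.p • u + φ x.q • v
  have hadd : ∀ x y, g (x + y) = g x + g y := by
    intro x y
    simp only [g, Two.p_add, Two.q_add, map_add, add_smul]
    abel
  have hmul : ∀ x y, g (x * y) = g x * g y := by
    intro x y
    simp only [g, Two.p_mul, Two.q_mul, map_zero, zero_smul, zero_add, map_sub, map_mul,
      mul_add, add_mul, smul_mul_assoc, mul_smul_comm, huv, hvu, huu, hvv, smul_zero, add_zero,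
      smul_smul, smul_neg, sub_smul]
    rw [mul_comm (φ y.p) (φ x.q), mul_comm (φ y.q) (φ x.p)]
    abel
  have hsmul : ∀ (r : F) x, g (r • x) = φ r • g x := by
    intro r x
    simp only [g, Two.p_smul, Two.q_smul, map_mul, smul_add, smul_smul]
  have h0 : g (FreeNonUnitalNonAssocAlgebra.lift F w f) = 0 := by
    rw [lift_eq_ev, ev_map (RingHom.id F) φ g hadd hmul hsmul w f, RingHom.comp_id]
    exact identity_extends φ α γ n f (fun v => hf v) _
  obtain ⟨h1, h2⟩ := hind _ _ h0
  refine Two.ext' ?_ ?_
  · exact (map_eq_zero φ).mp h1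
  · exact (map_eq_zero φ).mp h2

/-- Conjugation of `A_1`. -/
def cj {K : Type u} [Field K] {α : K} (x : First α) : First α := First.mk (x.re + x.im) (-x.im)

theorem cj_zero {K : Type u} [Field K] {α : K} : cj (0 : First α) = 0 := by
  refine First.ext ?_ ?_
  · change (0 : K) + 0 = 0
    ring
  · change -(0 : K) = 0
    ring

theorem cj_smul {K : Type u} [Field K] {α : K} (r : K) (x : First α) :
    cj (r • x) = r • cj x := by
  refine First.ext ?_ ?_
  · change r * x.re + r * x.im = r * (x.re + x.im)
    ring
  · change -(r * x.im) = r * (-x.im)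
    ring

/-- The element `a + b v` of `A_2`. -/
def mk2 {K : Type u} [Field K] {α : K} (g : K) (a b : First α) :
    (double (first α) g).carrier := (Dbl.mk a b : Dbl g (first α).conj)

theorem mk2_mul {K : Type u} [Field K] {α : K} (g : K) (a b c d : First α) :
    mk2 g a b * mk2 g c d = mk2 g (a * c + g • (cj d * b)) (d * a + b * cj c) := rfl

theorem mk2_conj {K : Type u} [Field K] {α : K} (g : K) (a b : First α) :
    (double (first α) g).conj (mk2 g a b) = mk2 g (cj a) (-b) := rfl

theorem mk2_neg {K : Type u} [Field K] {α : K} (g : K) (a b : First α) :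
    -(mk2 g a b) = mk2 g (-a) (-b) := rfl

theorem mk2_zero {K : Type u} [Field K] {α : K} (g : K) :
    (0 : (double (first α) g).carrier) = mk2 g 0 0 := rfl

theorem mk2_lin {K : Type u} [Field K] {α : K} (g : K) (r s : K) (a b c d : First α) :
    r • mk2 g a b + s • mk2 g c d = mk2 g (r • a + s • c) (r • b + s • d) := rfl

theorem mk2_inj {K : Type u} [Field K] {α : K} (g : K) {a b c d : First α}
    (h : mk2 g a b = mk2 g c d) : a = c ∧ b = d :=
  ⟨congrArg (Dbl.re (γ := g) (c := (first α).conj)) h,
    congrArg (Dbl.im (γ := g) (c := (first α).conj)) h⟩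

/-- The matrix units inside `A_2` over a field containing both roots of `x ^ 2 = x + α`. -/
def unitsTwo {K : Type u} [Field K] (α : K) (g : K) (r s : K) (hr : r * s = -α)
    (hs : r + s = 1) (hrs : r - s ≠ 0) (hγ : g ≠ 0) : Units (double (first α) g) := by
  let d : K := (r - s)⁻¹
  have hd : d * (r - s) = 1 := inv_mul_cancel₀ hrs
  let e₁ : First α := First.mk (-s * d) d
  let e₂ : First α := First.mk (r * d) (-d)
  have hs' : s = 1 - r := by linear_combination hs
  have hα : α = -(r * (1 - r)) := by rw [← hs', hr, neg_neg]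
  have hd' : d * (2 * r - 1) = 1 := by linear_combination hd + d * hs
  have h11 : e₁ * e₁ = e₁ := by
    refine First.ext ?_ ?_
    · change (-s * d) * (-s * d) + α * (d * d) = -s * d
      rw [hs', hα]
      linear_combination ((1 - r) * (-d)) * hd'
    · change (-s * d) * d + d * (-s * d) + d * d = d
      rw [hs']
      linear_combination d * hd'
  have h12 : e₁ * e₂ = 0 := by
    refine First.ext ?_ ?_
    · change (-s * d) * (r * d) + α * (d * (-d)) = 0
      rw [hs', hα]
      ring
    · change (-s * d) * (-d) + d * (r * d) + d * (-d) = 0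
      rw [hs']
      ring
  have h21 : e₂ * e₁ = 0 := by
    refine First.ext ?_ ?_
    · change (r * d) * (-s * d) + α * ((-d) * d) = 0
      rw [hs', hα]
      ring
    · change (r * d) * d + (-d) * (-s * d) + (-d) * d = 0
      rw [hs']
      ring
  have hc1 : cj e₁ = e₂ := by
    refine First.ext (α := α) ?_ ?_
    · change -s * d + d = r * d
      rw [hs']
      ring
    · rfl
  have hc2 : cj e₂ = e₁ := by
    refine First.ext (α := α) ?_ ?_
    · change r * d + -d = -s * d
      rw [hs']
      ring
    · change - -d = d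
      ring
  have hd0 : d ≠ 0 := inv_ne_zero hrs
  have e1ne : e₁ ≠ 0 := fun h => hd0 (congrArg First.im h)
  exact
    { e11 := mk2 g e₁ 0
      e12 := mk2 g 0 e₁
      e21 := mk2 g 0 (g⁻¹ • e₂)
      e22 := mk2 g e₂ 0
      ne := fun h => e1ne (mk2_inj g (h.trans (mk2_zero g))).2
      ind := by
        intro a b hab
        rw [mk2_lin, mk2_zero] at hab
        obtain ⟨h1, h2⟩ := mk2_inj g hab
        rw [smul_zero, add_zero] at h1
        rw [smul_zero, zero_add] at h2
        exact ⟨(smul_eq_zero.mp h1).resolve_right e1ne, (smul_eq_zero.mp h2).resolve_right e1ne⟩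
      c12 := by rw [mk2_conj, mk2_neg, cj_zero, neg_zero]
      c21 := by rw [mk2_conj, mk2_neg, cj_zero, neg_zero]
      c11 := by rw [mk2_conj, hc1, neg_zero]
      h1212 := by
        rw [mk2_mul, mk2_zero, hc1, h21, cj_zero, mul_zero, mul_zero, smul_zero, add_zero]
      h2121 := by
        rw [mk2_mul, mk2_zero, cj_smul, hc2, cj_zero, smul_mul_assoc, mul_smul_comm, h12, mul_zero,
          mul_zero, smul_zero, smul_zero, smul_zero, add_zero]
      h1112 := by
        rw [mk2_mul, h11, mul_zero, mul_zero, zero_mul, smul_zero, add_zero, add_zero]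
      h1121 := by
        rw [mk2_mul, mk2_zero, mul_zero, mul_zero, zero_mul, smul_mul_assoc, h21, smul_zero,
          smul_zero, add_zero]
      h1221 := by
        rw [mk2_mul, cj_smul, hc2, cj_zero, smul_mul_assoc, h11, smul_smul, mul_inv_cancel₀ hγ,
          one_smul, mul_zero, mul_zero, mul_zero, zero_add, add_zero]
      h2211 := by
        rw [mk2_mul, mk2_zero, h21, mul_zero, zero_mul, zero_mul, smul_zero, add_zero]
      h2212 := by
        simp only [mk2_mul, mk2_zero, h12, mul_zero, zero_mul, smul_zero, add_zero]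
      h1211 := by
        simp only [mk2_mul, mk2_zero, hc1, h12, cj_zero, mul_zero, zero_mul, smul_zero,
          add_zero] }

theorem hasPair_algClosed {K : Type u} [Field K] [IsAlgClosed K] (α : K) (hα : 1 + 4 * α ≠ 0)
    (γ : ℕ → K) (hγ : ∀ k, γ k ≠ 0) : ∀ n : ℕ, HasPair (cayleyDickson α γ (n + 4))
  | 0 => by
    obtain ⟨r, hr⟩ : ∃ r : K, r * (1 - r) = -α := by
      have hdeg : (Polynomial.X ^ 2 - Polynomial.X - Polynomial.C α : Polynomial K).degree ≠ 0 := by
        have : (Polynomial.X ^ 2 - Polynomial.X - Polynomial.C α : Polynomial K).natDegree = 2 := by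
          compute_degree!
        intro h
        rw [Polynomial.natDegree_eq_of_degree_eq_some h] at this
        exact absurd this (by norm_num)
      obtain ⟨r, hr⟩ := IsAlgClosed.exists_root _ hdeg
      refine ⟨r, ?_⟩
      simp only [Polynomial.IsRoot.def, Polynomial.eval_sub, Polynomial.eval_pow,
        Polynomial.eval_X, Polynomial.eval_C] at hr
      linear_combination -hr
    obtain ⟨l, hl⟩ := IsAlgClosed.exists_pow_nat_eq (γ 4) (n := 4) (by norm_num)
    have hrs : r - (1 - r) ≠ 0 := by
      intro h
      apply hα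
      have h2 : (2 * r - 1) ^ 2 = 1 + 4 * α := by linear_combination -4 * hr
      rw [← h2]
      have : 2 * r - 1 = 0 := by linear_combination h
      rw [this]
      ring
    exact (unitsTwo α (γ 2) r (1 - r) hr (by ring) hrs (hγ 2)).hasPair (γ 3) (γ 4) l hl (hγ 4)
  | n + 1 => (hasPair_algClosed α hα γ hγ n).double (γ (n + 5))

end Pool.Agent.H551R3.CD
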