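import Pool.Agent.H551R3.KokDefs

set_option autoImplicit false
set_option linter.unusedSectionVars false

namespace Pool.Agent.H551R3.Kok

universe u

section Basic

variable {A : Type u} [NonUnitalNonAssocRing A]

/-- The symmetrised product. -/
def P (a b : A) : A := a * b + b * a

theorem P_comm (a b : A) : P a b = P b a := add_comm _ _

theorem P_add (a b c : A) : P a (b + c) = P a b + P a c := by
  simp only [P, mul_add, add_mul]; abel

theorem add_P (a b c : A) : P (a + b) c = P a c + P b c := by
  simp only [P, mul_add, add_mul]; abel

theorem P_zero (a : A) : P a 0 = 0 := by simp [P]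

theorem zero_P (a : A) : P 0 a = 0 := by simp [P]

theorem br_add (a b c : A) : br a (b + c) = br a b + br a c := by
  simp only [br, mul_add, add_mul]; abel

theorem add_br (a b c : A) : br (a + b) c = br a c + br b c := by
  simp only [br, mul_add, add_mul]; abel

theorem br_self (a : A) : br a a = 0 := sub_self _

theorem br_swap (a b : A) : br a b = -br b a := by simp [br]

theorem br_zero (a : A) : br a 0 = 0 := by simp [br]

theorem zero_br (a : A) : br 0 a = 0 := by simp [br]

theorem two_mul' (a b : A) : (2 : ℤ) • (a * b) = P a b + br a b := by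
  simp only [P, br]; abel

/-- No 2-torsion. -/
def NoTwo (A : Type u) [AddCommGroup A] : Prop := ∀ x : A, (2 : ℤ) • x = 0 → x = 0

theorem NoTwo.four (h : NoTwo A) {x : A} (hx : (4 : ℤ) • x = 0) : x = 0 := by
  apply h
  apply h
  rw [smul_smul]
  exact hx

theorem P_assoc (h2 : NoTwo A) (hK : IsKokoris A) (a b c : A) : P (P a b) c = P a (P b c) := by
  rw [← sub_eq_zero]
  apply h2.four
  have h1 := hK a b c
  have h3 := hK c b a
  have h4 := hK b a c
  have h5 := hK c a b
  have h6 := hK a c b
  have h7 := hK b c a
  simp only [jac, br, asc, P, mul_add, add_mul, mul_sub, sub_mul] at *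
  linear_combination (norm := module) -h1 + h3 - h4 + h5 - h6 + h7

theorem br_P (h2 : NoTwo A) (hK : IsKokoris A) (a b c : A) :
    br (P a b) c = P a (br b c) + P (br a c) b := by
  rw [← sub_eq_zero]
  apply h2.four
  have h1 := hK a b c
  have h3 := hK c b a
  have h4 := hK b a c
  have h5 := hK c a b
  have h6 := hK a c b
  have h7 := hK b c a
  simp only [jac, br, asc, P, mul_add, add_mul, mul_sub, sub_mul] at *
  linear_combination (norm := module) -h1 - h3 - h4 - h5 + h6 + h7

end Basic

end Pool.Agent.H551R3.Kok
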