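import Pool.Agent.H551R3.KokExt

set_option autoImplicit false
set_option linter.unusedSectionVars false

open TensorProduct

namespace Pool.Agent.H551R3.Kok

universe u

section NilFacts

variable {A : Type u} [NonUnitalNonAssocRing A] [KokA A]

theorem em_pw (c : A) (k : ℕ) : em (pw c k) = em c ^ (k + 1) := by
  induction k with
  | zero => rw [pw, zero_add, pow_one]
  | succ k ih => rw [pw, em_P, ih, pow_succ _ (k + 1)]

theorem nil_of_pw {c : A} {k : ℕ} (h : Nil (pw c k)) : Nil c := by
  obtain ⟨n, hn⟩ := h
  refine ⟨(k + 1) * n, ?_⟩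
  rw [pow_mul, ← em_pw, hn]

theorem nil_zero : Nil (0 : A) := ⟨1, by rw [em_zero, pow_one]⟩

theorem nil_of_pw_eq_zero {c : A} {k : ℕ} (h : pw c k = 0) : Nil c :=
  nil_of_pw (h ▸ nil_zero)

theorem nil_P {x : A} (h : Nil x) (a : A) : Nil (P a x) := by
  obtain ⟨n, hn⟩ := h
  refine ⟨n, ?_⟩
  rw [em_P, mul_pow, hn, mul_zero]

theorem nil_add {x y : A} (hx : Nil x) (hy : Nil y) : Nil (x + y) := by
  unfold Nil at *
  rw [em_add]
  exact (Commute.all _ _).isNilpotent_add hx hy

variable {F : Type u} [Field F] [Module F A] [IsScalarTower F A A] [SMulCommClass F A A]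

theorem nil_smul {x : A} (hx : Nil x) (r : F) : Nil (r • x) := by
  have h : pw (r • x) 1 = P (r • r • x) x := by
    change P (r • x) (r • x) = _
    rw [P_smul, smul_P, smul_P, smul_P]
  apply nil_of_pw (k := 1)
  rw [h]
  exact nil_P hx _

variable (F A) in
/-- The nilpotent elements. -/
def nilSub : Submodule F A where
  carrier := {x | Nil x}
  add_mem' := fun hx hy => nil_add hx hy
  zero_mem' := nil_zero
  smul_mem' := fun r _ hx => nil_smul hx r

end NilFacts

section Character

variable {C : Type u} [Field C] {A : Type u} [NonUnitalNonAssocRing A] [Module C A]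
  [IsScalarTower C A A] [SMulCommClass C A A] [KokA A]

instance : Module C (Plus A) := inferInstanceAs (Module C A)

instance : IsScalarTower C (Plus A) (Plus A) :=
  ⟨fun r x y => smul_P (A := A) r x y⟩

instance : SMulCommClass C (Plus A) (Plus A) :=
  ⟨fun r x y => (P_smul (A := A) r x y).symm⟩

/-- The identity map to `Plus A`. -/
def tp (a : A) : Plus A := a

theorem tp_P (a b : A) : tp (P a b) = tp a * tp b := rfl

theorem tp_eq_zero {a : A} (h : tp a = 0) : a = 0 := h

variable (C) in
/-- The embedding in the unitization over `C`. -/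
def inU (a : A) : Unitization C (Plus A) := Unitization.inr (tp a)

theorem inU_P (a b : A) : inU C (P a b) = inU C a * inU C b := by
  unfold inU
  rw [← Unitization.inr_mul, tp_P]

theorem inU_add (a b : A) : inU C (a + b) = inU C a + inU C b :=
  Unitization.inr_add C (tp a) (tp b)

theorem inU_smul (r : C) (a : A) : inU C (r • a) = r • inU C a :=
  Unitization.inr_smul C r (tp a)

theorem inU_eq_zero {a : A} (h : inU C a = 0) : a = 0 :=
  tp_eq_zero (Unitization.inr_injective (R := C) (A := Plus A)
    (h.trans (Unitization.inr_zero C).symm))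

theorem inU_pw (c : A) (k : ℕ) : inU C (pw c k) = inU C c ^ (k + 1) := by
  induction k with
  | zero => rw [pw, zero_add, pow_one]
  | succ k ih => rw [pw, inU_P, ih, pow_succ _ (k + 1)]

/-- Existence of characters. -/
theorem exists_char (c : A) (hc : ¬ Nil c) :
    ∃ (K : Type u) (_ : Field K) (_ : Algebra C K) (χ : A →ₗ[C] K),
      (∀ x y, χ (P x y) = χ x * χ y) ∧ χ c ≠ 0 := by
  have hx : ¬ IsNilpotent (inU C c) := by
    rintro ⟨n, hn⟩
    have h1 : inU C c ^ (n + 1) = 0 := by rw [pow_succ, hn, zero_mul]
    rw [← inU_pw] at h1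
    exact hc (nil_of_pw_eq_zero (inU_eq_zero h1))
  rw [nilpotent_iff_mem_prime] at hx
  push Not at hx
  obtain ⟨p, hp, hxp⟩ := hx
  let q : Unitization C (Plus A) →ₐ[C] FractionRing (Unitization C (Plus A) ⧸ p) :=
    (IsScalarTower.toAlgHom C (Unitization C (Plus A) ⧸ p)
      (FractionRing (Unitization C (Plus A) ⧸ p))).comp (Ideal.Quotient.mkₐ C p)
  let χ : A →ₗ[C] FractionRing (Unitization C (Plus A) ⧸ p) :=
    { toFun := fun a => q (inU C a)
      map_add' := fun a b => by rw [inU_add, map_add]
      map_smul' := fun r a => by rw [inU_smul, map_smul, RingHom.id_apply] }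
  refine ⟨FractionRing (Unitization C (Plus A) ⧸ p), inferInstance, inferInstance, χ, ?_, ?_⟩
  · intro a b
    change q (inU C (P a b)) = q (inU C a) * q (inU C b)
    rw [← map_mul, ← inU_P]
  · change algebraMap (Unitization C (Plus A) ⧸ p)
      (FractionRing (Unitization C (Plus A) ⧸ p)) (Ideal.Quotient.mk p (inU C c)) ≠ 0
    intro h
    rw [map_eq_zero_iff _ (IsFractionRing.injective (Unitization C (Plus A) ⧸ p)
      (FractionRing (Unitization C (Plus A) ⧸ p))), Ideal.Quotient.eq_zero_iff_mem] at h
    exact hxp h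

/-- A nondegeneracy statement for characters. -/
theorem char_nondeg {K : Type u} [Field K] (χ : A → K) (hadd : ∀ x y, χ (x + y) = χ x + χ y)
    (hmul : ∀ x y, χ (P x y) = χ x * χ y) {a b : A} (hc : χ (br a b) ≠ 0) :
    ∃ x y z w : A, χ y * χ w * χ (br x z) - χ y * χ z * χ (br x w) -
      χ x * χ w * χ (br y z) + χ x * χ z * χ (br y w) ≠ 0 := by
  by_contra hcon
  push Not at hcon
  have hself : χ (br (br a b) (br a b)) = 0 := by
    rw [br_self]
    have := hadd 0 0
    rw [add_zero] at this
    exact left_eq_add.mp this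
  have hskew : ∀ z, χ (br (br a b) z) = -χ (br z (br a b)) := by
    intro z
    have h1 : χ (br (br a b) z + br z (br a b)) = χ (br (br a b) z) + χ (br z (br a b)) :=
      hadd _ _
    rw [br_swap (br a b) z, neg_add_cancel] at h1
    have h0 : χ (0 : A) = 0 := by
      have := hadd 0 0
      rw [add_zero] at this
      exact left_eq_add.mp this
    rw [h0] at h1
    rw [br_swap (br a b) z]
    exact eq_neg_of_add_eq_zero_left h1.symm
  have h1 : ∀ x z, χ (br a b) * χ (br x z) =
      χ z * χ (br x (br a b)) - χ x * χ (br z (br a b)) := by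
    intro x z
    have h2 := hcon x (br a b) z (br a b)
    rw [hself, hskew] at h2
    apply mul_left_cancel₀ hc
    linear_combination h2
  have h3 : ∀ x y z, χ (br (P x y) z) = χ x * χ (br y z) + χ y * χ (br x z) := by
    intro x y z
    rw [BP, hadd, hmul, hmul]
    ring
  have h4 : ∀ z, χ (br z (br a b)) = 0 := by
    intro z
    have h5 := h1 (P (br a b) (br a b)) z
    rw [h3, h3, hmul] at h5
    have h6 := h1 (br a b) z
    rw [hself] at h5 h6
    have h7 : χ (br a b) * χ (br a b) * χ (br z (br a b)) = 0 := by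
      linear_combination -h5 + 2 * χ (br a b) * h6
    rcases mul_eq_zero.mp h7 with h8 | h8
    · exact absurd (mul_self_eq_zero.mp h8) hc
    · exact h8
  have h9 := h1 a b
  rw [h4 a, h4 b, mul_zero, mul_zero, sub_zero] at h9
  exact hc (mul_self_eq_zero.mp h9)

end Character

section TensorKok

variable {C : Type u} [Field C] {A : Type u} [NonUnitalNonAssocRing A] [Module C A]
  [IsScalarTower C A A] [SMulCommClass C A A] {K : Type u} [Field K] [Algebra C K]

theorem kokoris_tensor (hA : IsKokoris A) : IsKokoris (K ⊗[C] A) := by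
  intro x y z
  have key : ∀ x y z : K ⊗[C] A,
      jac x y z - ((4 : ℤ) • asc x y z - br (br x z) y) = 0 := by
    intro x y z
    induction x with
    | zero => simp [jac, asc, br]
    | add x x' hx hx' =>
      have e : jac (x + x') y z - ((4 : ℤ) • asc (x + x') y z - br (br (x + x') z) y) =
          (jac x y z - ((4 : ℤ) • asc x y z - br (br x z) y)) +
          (jac x' y z - ((4 : ℤ) • asc x' y z - br (br x' z) y)) := by
        simp only [jac, asc, br, add_mul, mul_add, sub_mul, mul_sub]
        module
      rw [e, hx, hx', add_zero]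
    | tmul r a =>
      induction y with
      | zero => simp [jac, asc, br]
      | add y y' hy hy' =>
        have e : jac (r ⊗ₜ[C] a) (y + y') z -
            ((4 : ℤ) • asc (r ⊗ₜ[C] a) (y + y') z - br (br (r ⊗ₜ[C] a) z) (y + y')) =
            (jac (r ⊗ₜ[C] a) y z -
              ((4 : ℤ) • asc (r ⊗ₜ[C] a) y z - br (br (r ⊗ₜ[C] a) z) y)) +
            (jac (r ⊗ₜ[C] a) y' z -
              ((4 : ℤ) • asc (r ⊗ₜ[C] a) y' z - br (br (r ⊗ₜ[C] a) z) y')) := by
          simp only [jac, asc, br, add_mul, mul_add, sub_mul, mul_sub]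
          module
        rw [e, hy, hy', add_zero]
      | tmul s b =>
        induction z with
        | zero => simp [jac, asc, br]
        | add z z' hz hz' =>
          have e : jac (r ⊗ₜ[C] a) (s ⊗ₜ[C] b) (z + z') -
              ((4 : ℤ) • asc (r ⊗ₜ[C] a) (s ⊗ₜ[C] b) (z + z') -
                br (br (r ⊗ₜ[C] a) (z + z')) (s ⊗ₜ[C] b)) =
              (jac (r ⊗ₜ[C] a) (s ⊗ₜ[C] b) z -
                ((4 : ℤ) • asc (r ⊗ₜ[C] a) (s ⊗ₜ[C] b) z -
                  br (br (r ⊗ₜ[C] a) z) (s ⊗ₜ[C] b))) +
              (jac (r ⊗ₜ[C] a) (s ⊗ₜ[C] b) z' -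
                ((4 : ℤ) • asc (r ⊗ₜ[C] a) (s ⊗ₜ[C] b) z' -
                  br (br (r ⊗ₜ[C] a) z') (s ⊗ₜ[C] b))) := by
            simp only [jac, asc, br, add_mul, mul_add, sub_mul, mul_sub]
            module
          rw [e, hz, hz', add_zero]
        | tmul t c =>
          have h := hA a b c
          have e : jac (r ⊗ₜ[C] a) (s ⊗ₜ[C] b) (t ⊗ₜ[C] c) -
              ((4 : ℤ) • asc (r ⊗ₜ[C] a) (s ⊗ₜ[C] b) (t ⊗ₜ[C] c) -
                br (br (r ⊗ₜ[C] a) (t ⊗ₜ[C] c)) (s ⊗ₜ[C] b)) =
              (r * s * t) ⊗ₜ[C] (jac a b c - ((4 : ℤ) • asc a b c - br (br a c) b)) := by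
            simp only [jac, asc, br, sub_mul, mul_sub, Algebra.TensorProduct.tmul_mul_tmul,
              TensorProduct.tmul_sub, TensorProduct.tmul_add, TensorProduct.tmul_smul]
            have c1 : ∀ x y z : K, x * y * z = x * (y * z) := mul_assoc
            have c2 : s * r * t = r * s * t := by ring
            have c3 : t * (r * s) = r * s * t := by ring
            have c4 : t * (s * r) = r * s * t := by ring
            have c5 : s * t * r = r * s * t := by ring
            have c6 : t * s * r = r * s * t := by ring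
            have c7 : r * (s * t) = r * s * t := by ring
            have c8 : r * (t * s) = r * s * t := by ring
            have c9 : t * r * s = r * s * t := by ring
            have c10 : r * t * s = r * s * t := by ring
            have c11 : s * (t * r) = r * s * t := by ring
            have c12 : s * (r * t) = r * s * t := by ring
            rw [c2, c3, c4, c5, c6, c7, c8, c9, c10, c11, c12]
          rw [e, h, sub_self, TensorProduct.tmul_zero]
  rw [← sub_eq_zero]
  exact key x y z

end TensorKok

end Pool.Agent.H551R3.Kok
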