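import Pool.Agent.H551R3.KokBasic

set_option autoImplicit false
set_option linter.unusedSectionVars false

namespace Pool.Agent.H551R3.Kok

universe u

/-- Kokoris algebras without 2-torsion. -/
class KokA (A : Type u) [NonUnitalNonAssocRing A] : Prop where
  noTwo : NoTwo A
  kok : IsKokoris A

/-- The additive group of `A` with the symmetrised product. -/
def Plus (A : Type u) : Type u := A

section

variable {A : Type u} [NonUnitalNonAssocRing A] [KokA A]

theorem PA (a b c : A) : P (P a b) c = P a (P b c) := P_assoc KokA.noTwo KokA.kok a b c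

theorem BP (a b c : A) : br (P a b) c = P a (br b c) + P (br a c) b :=
  br_P KokA.noTwo KokA.kok a b c

theorem BP' (a b c : A) : br c (P a b) = P a (br c b) + P (br c a) b := by
  rw [br_swap, BP, br_swap b c, br_swap a c, neg_add]
  simp only [P, mul_neg, neg_mul]
  abel

instance : AddCommGroup (Plus A) := inferInstanceAs (AddCommGroup A)

instance : Mul (Plus A) := ⟨fun a b => P (A := A) a b⟩

instance : NonUnitalCommRing (Plus A) :=
  { (inferInstance : AddCommGroup (Plus A)), (inferInstance : Mul (Plus A)) with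
    left_distrib := fun a b c => P_add (A := A) a b c
    right_distrib := fun a b c => add_P (A := A) a b c
    zero_mul := fun a => zero_P (A := A) a
    mul_zero := fun a => P_zero (A := A) a
    mul_assoc := fun a b c => PA (A := A) a b c
    mul_comm := fun a b => P_comm (A := A) a b }

/-- Unitization of the commutative ring `Plus A`. -/
def U (A : Type u) [NonUnitalNonAssocRing A] [KokA A] : Type u := Unitization ℤ (Plus A)

noncomputable instance : CommRing (U A) := inferInstanceAs (CommRing (Unitization ℤ (Plus A)))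

/-- The embedding into the unitization. -/
def em (a : A) : U A := (Unitization.inr (show Plus A from a) : Unitization ℤ (Plus A))

theorem em_P (a b : A) : em (P a b) = em a * em b :=
  (Unitization.inr_mul ℤ (show Plus A from a) (show Plus A from b))

theorem em_add (a b : A) : em (a + b) = em a + em b :=
  (Unitization.inr_add ℤ (show Plus A from a) (show Plus A from b))

theorem em_zero : em (0 : A) = 0 := Unitization.inr_zero ℤ

theorem em_inj {a b : A} (h : em a = em b) : a = b :=
  Unitization.inr_injective (R := ℤ) (A := Plus A) h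

theorem em_eq_zero {a : A} (h : em a = 0) : a = 0 := em_inj (h.trans em_zero.symm)

/-- Nilpotent for the symmetrised product. -/
def Nil (a : A) : Prop := IsNilpotent (em a)

end

section Words

variable {A : Type u} [NonUnitalNonAssocRing A] [KokA A] {F : Type u} [Field F] [Module F A]
  [IsScalarTower F A A] [SMulCommClass F A A]

theorem P_smul (r : F) (a b : A) : P a (r • b) = r • P a b := by
  simp only [P, mul_smul_comm, smul_mul_assoc, smul_add]

theorem smul_P (r : F) (a b : A) : P (r • a) b = r • P a b := by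
  simp only [P, mul_smul_comm, smul_mul_assoc, smul_add]

theorem br_smul (r : F) (a b : A) : br a (r • b) = r • br a b := by
  simp only [br, mul_smul_comm, smul_mul_assoc, smul_sub]

theorem smul_br (r : F) (a b : A) : br (r • a) b = r • br a b := by
  simp only [br, mul_smul_comm, smul_mul_assoc, smul_sub]

/-- Elements obtained from `a` by exactly `l` operators with letters in `s`. -/
inductive Ew (s : Finset A) (a : A) : ℕ → A → Prop
  | base : Ew s a 0 a
  | mulP {l : ℕ} {x b : A} (hb : b ∈ s) (h : Ew s a l x) : Ew s a (l + 1) (P b x)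
  | brk {l : ℕ} {x b : A} (hb : b ∈ s) (h : Ew s a l x) : Ew s a (l + 1) (br b x)

/-- Products of `m` such elements of total length `l`. -/
inductive Pw (s : Finset A) (a : A) : ℕ → ℕ → A → Prop
  | base {l : ℕ} {x : A} (h : Ew s a l x) : Pw s a 1 l x
  | mul {m l m' l' : ℕ} {x y : A} (h : Pw s a m l x) (h' : Pw s a m' l' y) :
      Pw s a (m + m') (l + l') (P x y)

theorem Ew.mono {s t : Finset A} (hst : s ⊆ t) {a : A} {l : ℕ} {x : A} (h : Ew s a l x) :
    Ew t a l x := by
  induction h with
  | base => exact Ew.base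
  | mulP hb _ ih => exact Ew.mulP (hst hb) ih
  | brk hb _ ih => exact Ew.brk (hst hb) ih

theorem Pw.mono {s t : Finset A} (hst : s ⊆ t) {a : A} {m l : ℕ} {x : A} (h : Pw s a m l x) :
    Pw t a m l x := by
  induction h with
  | base h => exact Pw.base (h.mono hst)
  | mul _ _ ih ih' => exact Pw.mul ih ih'

variable (F)

/-- The span of the products of `m` elements with total length at most `L`. -/
def Sp (s : Finset A) (a : A) (m L : ℕ) : Submodule F A :=
  Submodule.span F {y | ∃ l, l ≤ L ∧ Pw s a m l y}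

variable {F}

theorem Sp_mono {s t : Finset A} (hst : s ⊆ t) (a : A) (m : ℕ) {L L' : ℕ} (hL : L ≤ L') :
    Sp F s a m L ≤ Sp F t a m L' := by
  refine Submodule.span_mono ?_
  rintro y ⟨l, hl, h⟩
  exact ⟨l, hl.trans hL, h.mono hst⟩

theorem P_mem_Sp {s : Finset A} {a : A} {m m' L L' : ℕ} {x y : A} (hx : x ∈ Sp F s a m L)
    (hy : y ∈ Sp F s a m' L') : P x y ∈ Sp F s a (m + m') (L + L') := by
  refine Submodule.span_induction (p := fun x _ => P x y ∈ Sp F s a (m + m') (L + L'))
    ?_ ?_ ?_ ?_ hx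
  · rintro x ⟨l, hl, h⟩
    refine Submodule.span_induction (p := fun y _ => P x y ∈ Sp F s a (m + m') (L + L'))
      ?_ ?_ ?_ ?_ hy
    · rintro y ⟨l', hl', h'⟩
      exact Submodule.subset_span ⟨l + l', by omega, Pw.mul h h'⟩
    · rw [P_zero]
      exact Submodule.zero_mem _
    · intro y z _ _ hy hz
      rw [P_add]
      exact Submodule.add_mem _ hy hz
    · intro r y _ hy
      rw [P_smul]
      exact Submodule.smul_mem _ _ hy
  · rw [zero_P]
    exact Submodule.zero_mem _
  · intro y z _ _ hy hz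
    rw [add_P]
    exact Submodule.add_mem _ hy hz
  · intro r y _ hy
    rw [smul_P]
    exact Submodule.smul_mem _ _ hy

theorem op_Pw {s : Finset A} {a : A} {b : A} (hb : b ∈ s) {m l : ℕ} {y : A}
    (h : Pw s a m l y) : P b y ∈ Sp F s a m (l + 1) ∧ br b y ∈ Sp F s a m (l + 1) := by
  induction h with
  | base h =>
    exact ⟨Submodule.subset_span ⟨_, le_rfl, Pw.base (Ew.mulP hb h)⟩,
      Submodule.subset_span ⟨_, le_rfl, Pw.base (Ew.brk hb h)⟩⟩
  | @mul m l m' l' x y hx hy ihx ihy =>
    have hx' : x ∈ Sp F s a m l := Submodule.subset_span ⟨l, le_rfl, hx⟩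
    have hy' : y ∈ Sp F s a m' l' := Submodule.subset_span ⟨l', le_rfl, hy⟩
    have e1 : l + 1 + l' = l + l' + 1 := by omega
    have e2 : l + (l' + 1) = l + l' + 1 := by omega
    constructor
    · rw [← PA]
      have := P_mem_Sp ihx.1 hy'
      rwa [e1] at this
    · rw [BP']
      refine Submodule.add_mem _ ?_ ?_
      · have := P_mem_Sp hx' ihy.2
        rwa [e2] at this
      · have := P_mem_Sp ihx.2 hy'
        rwa [e1] at this

theorem op_Sp {s : Finset A} {a : A} {b : A} (hb : b ∈ s) {m L : ℕ} {y : A}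
    (h : y ∈ Sp F s a m L) : P b y ∈ Sp F s a m (L + 1) ∧ br b y ∈ Sp F s a m (L + 1) := by
  refine Submodule.span_induction
    (p := fun y _ => P b y ∈ Sp F s a m (L + 1) ∧ br b y ∈ Sp F s a m (L + 1)) ?_ ?_ ?_ ?_ h
  · rintro y ⟨l, hl, h⟩
    exact ⟨Sp_mono (Finset.Subset.refl s) a m (Nat.succ_le_succ hl) (op_Pw hb h).1,
      Sp_mono (Finset.Subset.refl s) a m (Nat.succ_le_succ hl) (op_Pw hb h).2⟩
  · rw [P_zero, br_zero]
    exact ⟨Submodule.zero_mem _, Submodule.zero_mem _⟩
  · intro y z _ _ hy hz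
    rw [P_add, br_add]
    exact ⟨Submodule.add_mem _ hy.1 hz.1, Submodule.add_mem _ hy.2 hz.2⟩
  · intro r y _ hy
    rw [P_smul, br_smul]
    exact ⟨Submodule.smul_mem _ _ hy.1, Submodule.smul_mem _ _ hy.2⟩

theorem Ew_sub {s : Finset A} {a : A} {L : ℕ} (ha : a ∈ Sp F s a 2 L) {l : ℕ} {x : A}
    (h : Ew s a l x) : x ∈ Sp F s a 2 (l + L) := by
  induction h with
  | base => rwa [Nat.zero_add]
  | @mulP l x b hb _ ih =>
    have := (op_Sp hb ih).1
    have e : l + 1 + L = l + L + 1 := by omega
    rwa [e]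
  | @brk l x b hb _ ih =>
    have := (op_Sp hb ih).2
    have e : l + 1 + L = l + L + 1 := by omega
    rwa [e]

theorem Pw_sub {s : Finset A} {a : A} {L : ℕ} (ha : a ∈ Sp F s a 2 L) {m l : ℕ} {x : A}
    (h : Pw s a m l x) : x ∈ Sp F s a (2 * m) (l + m * L) := by
  induction h with
  | base h =>
    rw [Nat.mul_one, Nat.one_mul]
    exact Ew_sub ha h
  | @mul m l m' l' x y hx hy ihx ihy =>
    have := P_mem_Sp ihx ihy
    have e1 : 2 * (m + m') = 2 * m + 2 * m' := by ring
    have e2 : l + l' + (m + m') * L = l + m * L + (l' + m' * L) := by ring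
    rwa [e1, e2]

theorem Sp_sub {s : Finset A} {a : A} {L : ℕ} (ha : a ∈ Sp F s a 2 L) (m L' : ℕ) :
    Sp F s a m L' ≤ Sp F s a (2 * m) (L' + m * L) := by
  rw [Sp, Submodule.span_le]
  rintro y ⟨l, hl, h⟩
  exact Sp_mono (Finset.Subset.refl s) a _ (by omega) (Pw_sub ha h)

theorem mem_pow {s : Finset A} {a : A} {L : ℕ} (ha : a ∈ Sp F s a 2 L) (k : ℕ) :
    a ∈ Sp F s a (2 ^ k * 2) (2 ^ k * 2 * L) := by
  induction k with
  | zero => exact Sp_mono (Finset.Subset.refl s) a 2 (by omega) ha
  | succ k ih =>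
    have := Sp_sub ha _ _ ih
    have e1 : 2 * (2 ^ k * 2) = 2 ^ (k + 1) * 2 := by ring
    have e2 : 2 ^ k * 2 * L + 2 ^ k * 2 * L = 2 ^ (k + 1) * 2 * L := by ring
    rwa [e1, e2] at this

theorem finite_Ew (s : Finset A) (a : A) (l : ℕ) : {x | Ew s a l x}.Finite := by
  induction l with
  | zero =>
    refine (Set.finite_singleton a).subset ?_
    intro x hx
    cases hx
    rfl
  | succ l ih =>
    refine ((s.finite_toSet.prod ih).image (fun q => P q.1 q.2)).union
      ((s.finite_toSet.prod ih).image (fun q => br q.1 q.2)) |>.subset ?_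
    intro x hx
    cases hx with
    | @mulP _ y b hb h => exact Or.inl ⟨(b, y), ⟨hb, h⟩, rfl⟩
    | @brk _ y b hb h => exact Or.inr ⟨(b, y), ⟨hb, h⟩, rfl⟩

theorem finite_Ew_le (s : Finset A) (a : A) (N : ℕ) : {x | ∃ l, l ≤ N ∧ Ew s a l x}.Finite := by
  have : {x | ∃ l, l ≤ N ∧ Ew s a l x} = ⋃ l ∈ Finset.range (N + 1), {x | Ew s a l x} := by
    ext x
    simp only [Set.mem_ofPred_eq, Finset.mem_range, Set.mem_iUnion, Nat.lt_succ_iff, exists_prop]
  rw [this]
  exact Set.Finite.biUnion (Finset.finite_toSet _) fun l _ => finite_Ew s a l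

/-- A product of many factors is a multiple of a product of many members of a finite set. -/
theorem Pw_dvd {s : Finset A} {a : A} (L : ℕ) (Z : Finset A)
    (hZ : ∀ x l, l ≤ 2 * L → Ew s a l x → x ∈ Z) {m l : ℕ} {y : A} (h : Pw s a m l y) :
    ∃ M : Multiset A, (∀ z ∈ M, z ∈ Z) ∧ (M.map em).prod ∣ em y ∧
      m * (2 * L + 1) ≤ Multiset.card M * (2 * L + 1) + l := by
  induction h with
  | @base l x h =>
    by_cases hl : l ≤ 2 * L
    · refine ⟨{x}, ?_, ?_, ?_⟩
      · intro z hz
        rw [Multiset.mem_singleton] at hz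
        rw [hz]
        exact hZ x l hl h
      · simp
      · simp
    · refine ⟨0, ?_, ?_, ?_⟩
      · intro z hz
        exact absurd hz (Multiset.notMem_zero z)
      · simp
      · simp
        omega
  | @mul m l m' l' x y hx hy ihx ihy =>
    obtain ⟨M, h1, h2, h3⟩ := ihx
    obtain ⟨M', h1', h2', h3'⟩ := ihy
    refine ⟨M + M', ?_, ?_, ?_⟩
    · intro z hz
      rcases Multiset.mem_add.mp hz with h | h
      · exact h1 z h
      · exact h1' z h
    · rw [Multiset.map_add, Multiset.prod_add, em_P]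
      exact mul_dvd_mul h2 h2'
    · rw [Multiset.card_add]
      nlinarith

/-- Long products of members of a finite set of nilpotent elements vanish. -/
theorem long_prod (Z : Finset A) (hn : ∀ z ∈ Z, Nil z) :
    ∃ N : ℕ, ∀ M : Multiset A, (∀ z ∈ M, z ∈ Z) → N ≤ Multiset.card M →
      (M.map em).prod = 0 := by
  classical
  have hex : ∀ z : A, ∃ k : ℕ, z ∈ Z → em z ^ k = 0 := by
    intro z
    by_cases hz : z ∈ Z
    · obtain ⟨k, hk⟩ := hn z hz
      exact ⟨k, fun _ => hk⟩
    · exact ⟨0, fun h => absurd h hz⟩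
  choose k hk using hex
  refine ⟨∑ z ∈ Z, k z + 1, ?_⟩
  intro M hM hcard
  have h1 : ∃ z ∈ Z, k z ≤ M.count z := by
    by_contra hcon
    push Not at hcon
    have h2 : Multiset.card M = ∑ z ∈ Z, M.count z := by
      rw [← Multiset.toFinset_sum_count_eq]
      refine Finset.sum_subset ?_ ?_
      · intro z hz
        exact hM z (Multiset.mem_toFinset.mp hz)
      · intro z _ hz
        exact Multiset.count_eq_zero.mpr fun h => hz (Multiset.mem_toFinset.mpr h)
    have h3 : ∑ z ∈ Z, M.count z ≤ ∑ z ∈ Z, k z :=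
      Finset.sum_le_sum fun z hz => (hcon z hz).le
    omega
  obtain ⟨z, hz, hkz⟩ := h1
  have h4 : Multiset.replicate (k z) z ≤ M := Multiset.le_count_iff_replicate_le.mp hkz
  have h5 : ((Multiset.replicate (k z) z).map em).prod ∣ (M.map em).prod :=
    Multiset.prod_dvd_prod_of_le (Multiset.map_le_map h4)
  rw [Multiset.map_replicate, Multiset.prod_replicate, hk z hz] at h5
  exact zero_dvd_iff.mp h5

/-- If `a` lies in `Sp F s a 2 L` and all elements are nilpotent, then `a = 0`. -/
theorem eq_zero_of_mem (hnil : ∀ x : A, Nil x) {s : Finset A} {a : A} {L : ℕ}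
    (ha : a ∈ Sp F s a 2 L) : a = 0 := by
  classical
  let Z : Finset A := (finite_Ew_le s a (2 * L)).toFinset
  have hZ : ∀ x l, l ≤ 2 * L → Ew s a l x → x ∈ Z := by
    intro x l hl h
    rw [Set.Finite.mem_toFinset]
    exact ⟨l, hl, h⟩
  obtain ⟨N, hN⟩ := long_prod Z fun z _ => hnil z
  have hmem := mem_pow ha N
  have hbot : Sp F s a (2 ^ N * 2) (2 ^ N * 2 * L) ≤ ⊥ := by
    rw [Sp, Submodule.span_le]
    rintro y ⟨l, hl, h⟩
    obtain ⟨M, h1, h2, h3⟩ := Pw_dvd L Z hZ h
    have h4 : N ≤ Multiset.card M := by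
      have h5 : N < 2 ^ N := Nat.lt_two_pow_self
      by_contra hlt
      push Not at hlt
      have h6 : Multiset.card M + 1 ≤ 2 ^ N := by omega
      have h7 : Multiset.card M * (2 * L + 1) ≤ (2 ^ N - 1) * (2 * L + 1) :=
        Nat.mul_le_mul_right _ (by omega)
      obtain ⟨q, hq⟩ : ∃ q, 2 ^ N = q + 1 := ⟨2 ^ N - 1, by omega⟩
      rw [hq] at h3 hl h7
      simp only [Nat.add_sub_cancel] at h7
      nlinarith
    rw [hN M h1 h4] at h2
    have := em_eq_zero (zero_dvd_iff.mp h2)
    rw [this]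
    exact Submodule.zero_mem _
  exact (Submodule.mem_bot F).mp (hbot hmem)

/-- The elements reached from `a`. -/
theorem reach [NeZero (2 : F)] (hs : IsSimpleAlg F A) (a : A) (ha : a ≠ 0) (u : A) :
    ∃ (s : Finset A) (L : ℕ), u ∈ Sp F s a 1 L := by
  classical
  let I : Submodule F A :=
    { carrier := {u | ∃ (s : Finset A) (L : ℕ), u ∈ Sp F s a 1 L}
      add_mem' := by
        rintro x y ⟨s, L, hx⟩ ⟨t, L', hy⟩
        exact ⟨s ∪ t, max L L', Submodule.add_mem _
          (Sp_mono Finset.subset_union_left a 1 (le_max_left _ _) hx)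
          (Sp_mono Finset.subset_union_right a 1 (le_max_right _ _) hy)⟩
      zero_mem' := ⟨∅, 0, Submodule.zero_mem _⟩
      smul_mem' := by
        rintro r x ⟨s, L, hx⟩
        exact ⟨s, L, Submodule.smul_mem _ _ hx⟩ }
  have haI : a ∈ I := ⟨∅, 0, Submodule.subset_span ⟨0, le_rfl, Pw.base Ew.base⟩⟩
  have h2 : (2 : F) ≠ 0 := NeZero.ne 2
  have hhalf : ∀ x : A, (2 : ℤ) • x ∈ I → x ∈ I := by
    intro x hx
    have e : x = (2 : F)⁻¹ • ((2 : ℤ) • x) := by
      rw [← Int.cast_smul_eq_zsmul F, smul_smul]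
      push_cast
      rw [inv_mul_cancel₀ h2, one_smul]
    rw [e]
    exact Submodule.smul_mem _ _ hx
  have hI : ∀ x ∈ I, ∀ b : A, b * x ∈ I ∧ x * b ∈ I := by
    rintro x ⟨s, L, hx⟩ b
    have hx' : x ∈ Sp F (insert b s) a 1 L := Sp_mono (Finset.subset_insert _ _) a 1 le_rfl hx
    have hb : b ∈ insert b s := Finset.mem_insert_self _ _
    have hP : P b x ∈ I := ⟨_, _, (op_Sp hb hx').1⟩
    have hB : br b x ∈ I := ⟨_, _, (op_Sp hb hx').2⟩
    constructor
    · apply hhalf
      rw [two_mul']
      exact I.add_mem hP hB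
    · apply hhalf
      rw [two_mul', P_comm, br_swap]
      exact I.add_mem hP (I.neg_mem hB)
  have htop : I = ⊤ := (hs.2 I hI).resolve_left fun h => by
    rw [h, Submodule.mem_bot] at haI
    exact ha haI
  have : u ∈ I := by
    rw [htop]
    exact Submodule.mem_top
  exact this

/-- A simple Kokoris algebra all of whose elements are nilpotent for the symmetrised product is
anticommutative. -/
theorem anticomm_of_nil [NeZero (2 : F)] (hs : IsSimpleAlg F A) (hnil : ∀ x : A, Nil x)
    (x y : A) : P x y = 0 := by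
  classical
  -- the square of the symmetrised algebra
  let I : Submodule F A := Submodule.span F {z | ∃ x y : A, z = P x y}
  have h2 : (2 : F) ≠ 0 := NeZero.ne 2
  have hhalf : ∀ x : A, (2 : ℤ) • x ∈ I → x ∈ I := by
    intro x hx
    have e : x = (2 : F)⁻¹ • ((2 : ℤ) • x) := by
      rw [← Int.cast_smul_eq_zsmul F, smul_smul]
      push_cast
      rw [inv_mul_cancel₀ h2, one_smul]
    rw [e]
    exact Submodule.smul_mem _ _ hx
  have hbr : ∀ z ∈ I, ∀ b : A, br b z ∈ I := by
    intro z hz b
    refine Submodule.span_induction (p := fun z _ => br b z ∈ I) ?_ ?_ ?_ ?_ hz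
    · rintro z ⟨x, y, rfl⟩
      rw [BP']
      exact I.add_mem (Submodule.subset_span ⟨_, _, rfl⟩) (Submodule.subset_span ⟨_, _, rfl⟩)
    · rw [br_zero]
      exact I.zero_mem
    · intro y z _ _ hy hz
      rw [br_add]
      exact I.add_mem hy hz
    · intro r y _ hy
      rw [br_smul]
      exact I.smul_mem _ hy
  have hI : ∀ z ∈ I, ∀ b : A, b * z ∈ I ∧ z * b ∈ I := by
    intro z hz b
    have hP : P b z ∈ I := Submodule.subset_span ⟨_, _, rfl⟩
    have hB := hbr z hz b
    constructor
    · apply hhalf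
      rw [two_mul']
      exact I.add_mem hP hB
    · apply hhalf
      rw [two_mul', P_comm, br_swap]
      exact I.add_mem hP (I.neg_mem hB)
  rcases hs.2 I hI with h | h
  · have : P x y ∈ I := Submodule.subset_span ⟨_, _, rfl⟩
    rw [h, Submodule.mem_bot] at this
    exact this
  exfalso
  obtain ⟨p, q, hpq⟩ := hs.1
  have ha : p ≠ 0 := by
    rintro rfl
    exact hpq (zero_mul q)
  apply ha
  -- p is a combination of products of two elements reached from p
  have key : ∀ z ∈ I, ∃ (s : Finset A) (L : ℕ), z ∈ Sp F s p 2 L := by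
    intro z hz
    refine Submodule.span_induction
      (p := fun z _ => ∃ (s : Finset A) (L : ℕ), z ∈ Sp F s p 2 L) ?_ ?_ ?_ ?_ hz
    · rintro z ⟨x, y, rfl⟩
      obtain ⟨s, L, hx⟩ := reach hs p ha x
      obtain ⟨t, L', hy⟩ := reach hs p ha y
      have hx' : x ∈ Sp F (s ∪ t) p 1 L :=
        Sp_mono (F := F) (s := s) (t := s ∪ t) Finset.subset_union_left p 1 (le_refl L) hx
      have hy' : y ∈ Sp F (s ∪ t) p 1 L' :=
        Sp_mono (F := F) (s := t) (t := s ∪ t) Finset.subset_union_right p 1 (le_refl L') hy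
      have h3 : P x y ∈ Sp F (s ∪ t) p (1 + 1) (L + L') := P_mem_Sp hx' hy'
      refine ⟨s ∪ t, L + L', ?_⟩
      exact h3
    · exact ⟨∅, 0, Submodule.zero_mem _⟩
    · rintro x y _ _ ⟨s, L, hx⟩ ⟨t, L', hy⟩
      exact ⟨s ∪ t, max L L', Submodule.add_mem _
        (Sp_mono Finset.subset_union_left p 2 (le_max_left _ _) hx)
        (Sp_mono Finset.subset_union_right p 2 (le_max_right _ _) hy)⟩
    · rintro r x _ ⟨s, L, hx⟩
      exact ⟨s, L, Submodule.smul_mem _ _ hx⟩
  obtain ⟨s, L, hp⟩ := key p (by rw [h]; exact Submodule.mem_top)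
  exact eq_zero_of_mem hnil hp

end Words

end Pool.Agent.H551R3.Kok
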