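import Mathlib

set_option autoImplicit false

namespace Pool.Agent.H551R3.Kok

universe u

/-- The commutator. -/
def br {A : Type u} [NonUnitalNonAssocRing A] (a b : A) : A := a * b - b * a

/-- The associator. -/
def asc {A : Type u} [NonUnitalNonAssocRing A] (a b c : A) : A := a * b * c - a * (b * c)

/-- The Jacobian of the commutator. -/
def jac {A : Type u} [NonUnitalNonAssocRing A] (a b c : A) : A :=
  br (br a b) c + br (br b c) a + br (br c a) b

/-- Kokoris algebras: `J(a,b,c) = 4 (a,b,c) - [[a,c],b]`. -/
def IsKokoris (A : Type u) [NonUnitalNonAssocRing A] : Prop :=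
  ∀ a b c : A, jac a b c = (4 : ℤ) • asc a b c - br (br a c) b

/-- Simplicity: nonzero multiplication and no two-sided ideals except the trivial ones. -/
def IsSimpleAlg (F : Type u) [Field F] (A : Type u) [NonUnitalNonAssocRing A] [Module F A] :
    Prop :=
  (∃ x y : A, x * y ≠ 0) ∧
    ∀ I : Submodule F A, (∀ x ∈ I, ∀ a : A, a * x ∈ I ∧ x * a ∈ I) → I = ⊥ ∨ I = ⊤

/-- The algebra is a field: commutative, associative, with a unit and inverses. -/
def IsFieldAlg (A : Type u) [NonUnitalNonAssocRing A] : Prop :=
  (∀ a b : A, a * b = b * a) ∧ (∀ a b c : A, a * b * c = a * (b * c)) ∧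
    ∃ e : A, e ≠ 0 ∧ (∀ a : A, e * a = a) ∧ ∀ a : A, a ≠ 0 → ∃ b : A, a * b = e

/-- The algebra satisfies all identities in the set `T`: it belongs to the variety `V(T)`. -/
def Sat {F : Type u} [Field F] (T : Set (FreeNonUnitalNonAssocAlgebra F ℕ)) (A : Type u)
    [NonUnitalNonAssocRing A] [Module F A] [IsScalarTower F A A] [SMulCommClass F A A] : Prop :=
  ∀ f ∈ T, ∀ v : ℕ → A, FreeNonUnitalNonAssocAlgebra.lift F v f = 0

/-- A subalgebra is nilpotent: for some `m` all products of at least `m` of its elements, under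
every bracketing, vanish. -/
def SubNilpotent {F : Type u} [Field F] {B : Type u} [NonUnitalNonAssocRing B] [Module F B]
    (S : NonUnitalSubalgebra F B) : Prop :=
  ∃ m : ℕ, ∀ (w : FreeMagma ℕ) (v : ℕ → B), (∀ i, v i ∈ S) → m ≤ w.length →
    FreeMagma.lift v w = 0

/-- Every finitely generated subalgebra is nilpotent. -/
def LocallyNilpotent (F : Type u) [Field F] (B : Type u) [NonUnitalNonAssocRing B] [Module F B]
    [IsScalarTower F B B] [SMulCommClass F B B] : Prop :=
  ∀ s : Finset B, SubNilpotent (NonUnitalAlgebra.adjoin F (s : Set B))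

/-- The variety `V(T)` is locally admissible: every anticommutative algebra in it is locally
nilpotent. -/
def LocallyAdmissible {F : Type u} [Field F] (T : Set (FreeNonUnitalNonAssocAlgebra F ℕ)) :
    Prop :=
  ∀ (B : Type u) [NonUnitalNonAssocRing B] [Module F B] [IsScalarTower F B B]
    [SMulCommClass F B B], Sat T B → (∀ x y : B, x * y = -(y * x)) → LocallyNilpotent F B

end Pool.Agent.H551R3.Kok
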