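import Pool.Agent.H551R3.KokThmA

set_option autoImplicit false
set_option linter.unusedSectionVars false

open TensorProduct

namespace Pool.Agent.H551R3.Kok

universe u

/-- Evaluation of a nonassociative polynomial with coefficients pushed along `φ`. -/
noncomputable def ev {F R : Type u} [CommRing F] [CommRing R] (φ : F →+* R) {A : Type u}
    [NonUnitalNonAssocRing A] [Module R A] (v : ℕ → A)
    (f : FreeNonUnitalNonAssocAlgebra F ℕ) : A :=
  Finsupp.sum (MonoidAlgebra.coeff f) (fun w r => φ r • FreeMagma.lift v w)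

theorem lift_word {A A' : Type u} [Mul A] [Mul A'] (g : A → A')
    (hm : ∀ x y, g (x * y) = g x * g y) (v : ℕ → A) (w : FreeMagma ℕ) :
    g (FreeMagma.lift v w) = FreeMagma.lift (fun i => g (v i)) w := by
  induction w with
  | ih1 i => simp
  | ih2 a b iha ihb => rw [map_mul, map_mul, hm, iha, ihb]

theorem ev_map {F R R' : Type u} [CommRing F] [CommRing R] [CommRing R'] (ψ : F →+* R)
    (φ : R →+* R') {A A' : Type u} [NonUnitalNonAssocRing A] [Module R A]
    [NonUnitalNonAssocRing A'] [Module R' A'] (g : A → A')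
    (ha : ∀ x y, g (x + y) = g x + g y) (hm : ∀ x y, g (x * y) = g x * g y)
    (hs : ∀ (r : R) x, g (r • x) = φ r • g x) (v : ℕ → A)
    (f : FreeNonUnitalNonAssocAlgebra F ℕ) :
    g (ev ψ v f) = ev (φ.comp ψ) (fun i => g (v i)) f := by
  have h0 : g 0 = 0 := by simpa using hs 0 0
  let G : A →+ A' := { toFun := g, map_zero' := h0, map_add' := ha }
  change G (ev ψ v f) = _
  unfold ev
  rw [map_finsuppSum]
  refine Finsupp.sum_congr fun w _ => ?_
  change g (ψ _ • FreeMagma.lift v w) = _
  rw [hs, lift_word g hm]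
  rfl

theorem lift_eq_ev {F R : Type u} [CommRing F] [CommRing R] [Algebra F R] {A : Type u}
    [NonUnitalNonAssocRing A] [Module F A] [Module R A] [IsScalarTower F R A]
    [IsScalarTower F A A] [SMulCommClass F A A] (v : ℕ → A)
    (f : FreeNonUnitalNonAssocAlgebra F ℕ) :
    FreeNonUnitalNonAssocAlgebra.lift F v f = ev (algebraMap F R) v f := by
  have h1 : FreeNonUnitalNonAssocAlgebra.lift F v f = ev (RingHom.id F) v f := rfl
  rw [h1]
  unfold ev
  refine Finsupp.sum_congr fun w _ => ?_
  rw [algebraMap_smul]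
  rfl

section Ext

variable {C : Type u} [Field C] {A : Type u} [NonUnitalNonAssocRing A] [Module C A]
  [IsScalarTower C A A] [SMulCommClass C A A]

/-- The induced map of extended algebras. -/
noncomputable def chg {R K : Type u} [CommRing R] [CommRing K] [Algebra C R] [Algebra C K]
    (ψ : R →ₐ[C] K) : (R ⊗[C] A) →ₗ[C] (K ⊗[C] A) :=
  LinearMap.rTensor A ψ.toLinearMap

theorem chg_tmul {R K : Type u} [CommRing R] [CommRing K] [Algebra C R] [Algebra C K]
    (ψ : R →ₐ[C] K) (r : R) (a : A) : chg ψ (r ⊗ₜ[C] a) = ψ r ⊗ₜ[C] a := rfl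

theorem chg_mul {R K : Type u} [CommRing R] [CommRing K] [Algebra C R] [Algebra C K]
    (ψ : R →ₐ[C] K) (x y : R ⊗[C] A) : chg ψ (x * y) = chg ψ x * chg ψ y := by
  induction x with
  | zero => rw [zero_mul, map_zero, zero_mul]
  | add x y hx hy => rw [add_mul, map_add, map_add, add_mul, hx, hy]
  | tmul r a =>
    induction y with
    | zero => rw [mul_zero, map_zero, mul_zero]
    | add x y hx hy => rw [mul_add, map_add, map_add, mul_add, hx, hy]
    | tmul s b =>
      rw [Algebra.TensorProduct.tmul_mul_tmul, chg_tmul, chg_tmul, chg_tmul,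
        Algebra.TensorProduct.tmul_mul_tmul, map_mul]

theorem chg_smul {R K : Type u} [CommRing R] [CommRing K] [Algebra C R] [Algebra C K]
    (ψ : R →ₐ[C] K) (r : R) (x : R ⊗[C] A) : chg ψ (r • x) = ψ r • chg ψ x := by
  induction x with
  | zero => rw [smul_zero, map_zero, smul_zero]
  | add x y hx hy => rw [smul_add, map_add, map_add, smul_add, hx, hy]
  | tmul s a =>
    rw [TensorProduct.smul_tmul', smul_eq_mul, chg_tmul, chg_tmul, TensorProduct.smul_tmul',
      smul_eq_mul, map_mul]

/-- The induced map to the algebra itself. -/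
noncomputable def spc {R : Type u} [CommRing R] [Algebra C R] (t : R →ₐ[C] C) :
    (R ⊗[C] A) →ₗ[C] A :=
  (TensorProduct.lid C A).toLinearMap.comp (LinearMap.rTensor A t.toLinearMap)

theorem spc_tmul {R : Type u} [CommRing R] [Algebra C R] (t : R →ₐ[C] C) (r : R) (a : A) :
    spc t (r ⊗ₜ[C] a) = t r • a := rfl

theorem spc_mul {R : Type u} [CommRing R] [Algebra C R] (t : R →ₐ[C] C) (x y : R ⊗[C] A) :
    spc t (x * y) = spc t x * spc t y := by
  induction x with
  | zero => rw [zero_mul, map_zero, zero_mul]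
  | add x y hx hy => rw [add_mul, map_add, map_add, add_mul, hx, hy]
  | tmul r a =>
    induction y with
    | zero => rw [mul_zero, map_zero, mul_zero]
    | add x y hx hy => rw [mul_add, map_add, map_add, mul_add, hx, hy]
    | tmul s b =>
      rw [Algebra.TensorProduct.tmul_mul_tmul, spc_tmul, spc_tmul, spc_tmul, map_mul,
        smul_mul_smul_comm]

theorem spc_smul {R : Type u} [CommRing R] [Algebra C R] (t : R →ₐ[C] C) (r : R)
    (x : R ⊗[C] A) : spc t (r • x) = t r • spc t x := by
  induction x with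
  | zero => rw [smul_zero, map_zero, smul_zero]
  | add x y hx hy => rw [smul_add, map_add, map_add, smul_add, hx, hy]
  | tmul s a =>
    rw [TensorProduct.smul_tmul', smul_eq_mul, spc_tmul, spc_tmul, map_mul, mul_smul]

theorem spc_repr {R : Type u} [CommRing R] [Algebra C R] (t : R →ₐ[C] C) {ι : Type u}
    (b : Module.Basis ι C A) (x : R ⊗[C] A) (i : ι) :
    b.repr (spc t x) i = t ((Algebra.TensorProduct.basis R b).repr x i) := by
  induction x with
  | zero => simp
  | add x y hx hy => simp [hx, hy]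
  | tmul s a =>
    rw [spc_tmul, Algebra.TensorProduct.basis_repr_tmul]
    simp only [map_smul, Finsupp.smul_apply, Finsupp.mapRange_apply, smul_eq_mul, map_mul,
      AlgHom.commutes, Algebra.algebraMap_self, RingHom.id_apply]

theorem ev_spc {F R : Type u} [CommRing F] [CommRing R] [Algebra C R] (t : R →ₐ[C] C)
    (φ : F →+* R) (g : ℕ → R ⊗[C] A) (f : FreeNonUnitalNonAssocAlgebra F ℕ) :
    spc t (ev φ g f) = ev ((t : R →+* C).comp φ) (fun i => spc t (g i)) f := by
  have hs : ∀ (r : R) (x : R ⊗[C] A), spc t (r • x) = (t : R →+* C) r • spc t x :=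
    fun r x => spc_smul t r x
  exact ev_map (R := R) (R' := C) (A := R ⊗[C] A) (A' := A) φ (t : R →+* C)
    (fun x => spc t x) (fun x y => map_add (spc t) x y) (spc_mul t) hs g f

theorem ev_chg {F R K : Type u} [CommRing F] [CommRing R] [CommRing K] [Algebra C R]
    [Algebra C K] (t : R →ₐ[C] K)
    (φ : F →+* R) (g : ℕ → R ⊗[C] A) (f : FreeNonUnitalNonAssocAlgebra F ℕ) :
    chg t (ev φ g f) = ev ((t : R →+* K).comp φ) (fun i => chg t (g i)) f :=
  ev_map φ (t : R →+* K) (chg t) (fun x y => map_add _ x y) (chg_mul t)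
    (fun r x => chg_smul t r x) g f

theorem comp_algebraMap {F R K : Type u} [CommRing F] [CommRing R] [CommRing K] [Algebra C R]
    [Algebra C K] [Algebra F C] [Algebra F K] [IsScalarTower F C K] (t : R →ₐ[C] K) :
    (t : R →+* K).comp ((algebraMap C R).comp (algebraMap F C)) = algebraMap F K := by
  ext r
  have h : t (algebraMap C R (algebraMap F C r)) = algebraMap C K (algebraMap F C r) :=
    AlgHom.commutes t (algebraMap F C r)
  change t (algebraMap C R (algebraMap F C r)) = _
  rw [h, ← IsScalarTower.algebraMap_apply]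

theorem ev_generic {F R : Type u} [Field F] [CommRing R] [Algebra C R] [Algebra F C]
    [Module F A] [IsScalarTower F A A] [SMulCommClass F A A] [IsScalarTower F C A]
    (hR : ∀ r : R, (∀ t : R →ₐ[C] C, t r = 0) → r = 0)
    {T : Set (FreeNonUnitalNonAssocAlgebra F ℕ)} (hT : Sat T A)
    (f : FreeNonUnitalNonAssocAlgebra F ℕ) (hf : f ∈ T) (g : ℕ → R ⊗[C] A) :
    ev ((algebraMap C R).comp (algebraMap F C)) g f = 0 := by
  let b := Module.Basis.ofVectorSpace C A
  have h1 : (Algebra.TensorProduct.basis R b).repr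
      (ev ((algebraMap C R).comp (algebraMap F C)) g f) = 0 := by
    refine Finsupp.ext fun i => ?_
    rw [Finsupp.zero_apply]
    apply hR
    intro t
    rw [← spc_repr t b, ev_spc, comp_algebraMap, ← lift_eq_ev, hT f hf, map_zero,
      Finsupp.zero_apply]
  exact (LinearEquiv.map_eq_zero_iff _).mp h1

theorem sat_ext {F K : Type u} [Field F] [Infinite C] [Field K] [Algebra F C]
    [Algebra C K] [Algebra F K] [IsScalarTower F C K] [Module F A] [IsScalarTower F A A]
    [SMulCommClass F A A] [IsScalarTower F C A]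
    {T : Set (FreeNonUnitalNonAssocAlgebra F ℕ)} (hT : Sat T A) :
    Sat T (K ⊗[C] A) := by
  intro f hf w
  let b := Module.Basis.ofVectorSpace C A
  let bK := Algebra.TensorProduct.basis K b
  -- the generic elements
  let X : ℕ → Module.Basis.ofVectorSpaceIndex C A →
      MvPolynomial (ULift.{u} ℕ × Module.Basis.ofVectorSpaceIndex C A) C :=
    fun j i => MvPolynomial.X (⟨j⟩, i)
  let g : ℕ → MvPolynomial (ULift.{u} ℕ × Module.Basis.ofVectorSpaceIndex C A) C ⊗[C] A :=
    fun j => ∑ i ∈ (bK.repr (w j)).support, X j i ⊗ₜ[C] b i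
  have hR : ∀ r : MvPolynomial (ULift.{u} ℕ × Module.Basis.ofVectorSpaceIndex C A) C,
      (∀ t : MvPolynomial (ULift.{u} ℕ × Module.Basis.ofVectorSpaceIndex C A) C →ₐ[C] C,
        t r = 0) → r = 0 := by
    intro r hr
    apply MvPolynomial.funext
    intro t
    rw [map_zero, ← hr (MvPolynomial.aeval t), MvPolynomial.aeval_eq_eval]
  have key := ev_generic hR hT f hf g
  let ψ : MvPolynomial (ULift.{u} ℕ × Module.Basis.ofVectorSpaceIndex C A) C →ₐ[C] K :=
    MvPolynomial.aeval (fun s => bK.repr (w s.1.down) s.2)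
  have hψ : ∀ j i, ψ (X j i) = bK.repr (w j) i := fun j i => MvPolynomial.aeval_X _ _
  have h6 := ev_chg ψ ((algebraMap C _).comp (algebraMap F C)) g f
  rw [key, map_zero, comp_algebraMap] at h6
  have h8 : (fun j => chg (A := A) ψ (g j)) = w := by
    funext j
    change chg (A := A) ψ (∑ i ∈ (bK.repr (w j)).support, X j i ⊗ₜ[C] b i) = w j
    rw [map_sum]
    have h9 := bK.linearCombination_repr (w j)
    rw [Finsupp.linearCombination_apply, Finsupp.sum] at h9
    conv_rhs => rw [← h9]
    refine Finset.sum_congr rfl fun i _ => ?_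
    rw [chg_tmul, hψ]
    change _ = _ • (Algebra.TensorProduct.basis K b i)
    rw [Algebra.TensorProduct.basis_apply, TensorProduct.smul_tmul', smul_eq_mul, mul_one]
  rw [h8] at h6
  rw [lift_eq_ev (R := K)]
  exact h6.symm

end Ext

end Pool.Agent.H551R3.Kok
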