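import Pool.Agent.H551R3.KokInf

set_option autoImplicit false
set_option linter.unusedSectionVars false

namespace Pool.Agent.H551R3.Kok

universe u

section Cen

variable {A : Type u} [NonUnitalNonAssocRing A] [KokA A]

/-- Elements with trivial bracket. -/
def Cen (c : A) : Prop := ∀ y : A, br c y = 0

theorem cen_P {a b : A} (ha : Cen a) (hb : Cen b) : Cen (P a b) := by
  intro y
  rw [BP, ha y, hb y, P_zero, zero_P, add_zero]

theorem cen_br_P {c : A} (hc : Cen c) (x y : A) : br (P c x) y = P c (br x y) := by
  rw [BP, hc y, zero_P, add_zero]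

theorem neg_br (a y : A) : br (-a) y = -br a y := by
  simp only [br, neg_mul, mul_neg]
  abel

theorem br_pw (r x : A) (k : ℕ) :
    br (pw r (k + 1)) x = (k + 2) • P (pw r k) (br r x) := by
  induction k with
  | zero =>
    change br (P r r) x = (0 + 2) • P r (br r x)
    rw [BP, P_comm (br r x) r, zero_add, two_nsmul]
  | succ k ih =>
    rw [pw, BP, ih]
    have e : P ((k + 2) • P (pw r k) (br r x)) r = (k + 2) • P (pw r (k + 1)) (br r x) := by
      have e1 : ∀ (n : ℕ) (u v : A), P (n • u) v = n • P u v := by
        intro n u v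
        simp only [P, smul_mul_assoc, mul_smul_comm, smul_add]
      rw [e1, P_comm, ← PA, P_comm r (pw r k)]
      rfl
    have e2 : k + 1 + 2 = (k + 2) + 1 := by omega
    rw [e, e2, succ_nsmul _ (k + 2), add_comm]

theorem cen_pw_char {p : ℕ} (hp2 : 2 ≤ p) (hp : ∀ x : A, p • x = 0) (r : A) :
    Cen (pw r (p - 1)) := by
  intro y
  obtain ⟨k, rfl⟩ : ∃ k, p = k + 2 := ⟨p - 2, by omega⟩
  have e : k + 2 - 1 = k + 1 := by omega
  rw [e, br_pw, hp]

end Cen

section Simple

variable {F : Type u} [Field F] [NeZero (2 : F)] {A : Type u} [NonUnitalNonAssocRing A]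
  [Module F A] [IsScalarTower F A A] [SMulCommClass F A A] [KokA A]

/-- An ideal for both operations is everything or zero. -/
theorem simple_dichotomy (hs : IsSimpleAlg F A) (I : Submodule F A)
    (hP : ∀ x ∈ I, ∀ a : A, P a x ∈ I) (hB : ∀ x ∈ I, ∀ a : A, br a x ∈ I) :
    I = ⊥ ∨ I = ⊤ := by
  apply hs.2
  intro x hx a
  constructor
  · apply half_mem
    rw [two_mul']
    exact I.add_mem (hP x hx a) (hB x hx a)
  · apply half_mem
    rw [two_mul', P_comm, br_swap]
    exact I.add_mem (hP x hx a) (I.neg_mem (hB x hx a))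

/-- Multiplication by a central element is bijective as soon as it is nonzero. -/
theorem cen_bij (hs : IsSimpleAlg F A) {c w : A} (hc : Cen c) (hw : P c w ≠ 0) :
    (∀ x, P c x = 0 → x = 0) ∧ ∀ x, ∃ y, P c y = x := by
  have hbr : ∀ a x : A, br a (P c x) = P c (br a x) := by
    intro a x
    rw [br_swap, cen_br_P hc, br_swap x a]
    simp only [P, mul_neg, neg_mul]
    abel
  constructor
  · have h := simple_dichotomy hs (LinearMap.ker (PL F c)) (by
      intro x hx a
      rw [LinearMap.mem_ker] at *
      change P c (P a x) = 0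
      change P c x = 0 at hx
      rw [← PA, P_comm c a, PA, hx, P_zero]) (by
      intro x hx a
      rw [LinearMap.mem_ker] at *
      change P c (br a x) = 0
      change P c x = 0 at hx
      rw [← hbr, hx, br_zero])
    rcases h with h | h
    · intro x hx
      have : x ∈ LinearMap.ker (PL F c) := hx
      rw [h, Submodule.mem_bot] at this
      exact this
    · exfalso
      apply hw
      have : w ∈ LinearMap.ker (PL F c) := by rw [h]; exact Submodule.mem_top
      exact this
  · have h := simple_dichotomy hs (LinearMap.range (PL F c)) (by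
      rintro x ⟨y, rfl⟩ a
      refine ⟨P a y, ?_⟩
      change P c (P a y) = P a (P c y)
      rw [← PA, P_comm c a, PA]) (by
      rintro x ⟨y, rfl⟩ a
      refine ⟨br a y, ?_⟩
      change P c (br a y) = br a (P c y)
      rw [hbr])
    rcases h with h | h
    · exfalso
      apply hw
      have : P c w ∈ LinearMap.range (PL F c) := ⟨w, rfl⟩
      rw [h, Submodule.mem_bot] at this
      exact this
    · intro x
      have : x ∈ LinearMap.range (PL F c) := by rw [h]; exact Submodule.mem_top
      exact this

/-- The unit. -/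
theorem exists_unit (hs : IsSimpleAlg F A) {c w : A} (hc : Cen c) (hw : P c w ≠ 0) :
    ∃ e : A, Cen e ∧ e ≠ 0 ∧ ∀ x, P e x = x := by
  obtain ⟨hinj, hsur⟩ := cen_bij hs hc hw
  obtain ⟨e, he⟩ := hsur c
  have h1 : ∀ x, P e x = x := by
    intro x
    rw [← sub_eq_zero]
    apply hinj
    have : P c (P e x - x) = P c (P e x) - P c x := by
      simp only [P, mul_sub, sub_mul, mul_add, add_mul]
      abel
    rw [this, ← PA, he, sub_self]
  refine ⟨e, ?_, ?_, h1⟩
  · intro y
    apply hinj
    rw [← cen_br_P hc, he, hc y]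
  · rintro rfl
    apply hw
    rw [← he, P_zero, zero_P]

theorem exists_inv (hs : IsSimpleAlg F A) {e : A} (he : Cen e) (h1 : ∀ x, P e x = x)
    {c : A} (hc : Cen c) (hc0 : c ≠ 0) : ∃ d : A, Cen d ∧ P c d = e := by
  have hw : P c e ≠ 0 := by
    rw [P_comm, h1]
    exact hc0
  obtain ⟨hinj, hsur⟩ := cen_bij hs hc hw
  obtain ⟨d, hd⟩ := hsur e
  refine ⟨d, ?_, hd⟩
  intro y
  apply hinj
  rw [← cen_br_P hc, hd, he y]

/-- The commutative ring structure given by the symmetrised product. -/
def PE (A : Type u) [NonUnitalNonAssocRing A] (e : A) (_he : ∀ x : A, P e x = x) : Type u := A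

instance (e : A) (he : ∀ x : A, P e x = x) : CommRing (PE A e he) :=
  { (inferInstanceAs (NonUnitalCommRing (Plus A)) : NonUnitalCommRing (PE A e he)) with
    one := e
    one_mul := fun x => he x
    mul_one := fun x => (P_comm (A := A) x e).trans (he x) }

/-- The central subring. -/
def CenR (e : A) (he : ∀ x : A, P e x = x) (hce : Cen e) : Subring (PE A e he) where
  carrier := {c | Cen (A := A) c}
  mul_mem' := fun {a b} ha hb => cen_P (A := A) ha hb
  one_mem' := hce
  add_mem' := fun {a b} ha hb y => by
    change br (A := A) (a + b) y = 0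
    have h : br (A := A) (a + b) y = br (A := A) a y + br (A := A) b y :=
      add_br (A := A) a b y
    rw [h, ha y, hb y, add_zero]
  zero_mem' := fun y => zero_br (A := A) y
  neg_mem' := fun {a} ha y => by
    change br (A := A) (-a) y = 0
    have h : br (A := A) (-a) y = -br (A := A) a y := neg_br (A := A) a y
    rw [h, ha y, neg_zero]

end Simple

end Pool.Agent.H551R3.Kok
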