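import Pool.Agent.H551R3.KokFin

set_option autoImplicit false
set_option linter.unusedSectionVars false

namespace Pool.Agent.H551R3.Kok

universe u

section CenField

variable {F : Type u} [Field F] [NeZero (2 : F)] {A : Type u} [NonUnitalNonAssocRing A]
  [Module F A] [IsScalarTower F A A] [SMulCommClass F A A] [KokA A]

/-- The element of `A` underlying a central element. -/
def cv {e : A} {he : ∀ x : A, P e x = x} {hce : Cen e} (c : CenR e he hce) : A := c.1

variable {e : A} {he : ∀ x : A, P e x = x} {hce : Cen e}

theorem cv_mul (c d : CenR e he hce) : cv (c * d) = P (cv c) (cv d) := rfl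

theorem cv_add (c d : CenR e he hce) : cv (c + d) = cv c + cv d := rfl

theorem cv_one : cv (1 : CenR e he hce) = e := rfl

theorem cv_zero : cv (0 : CenR e he hce) = 0 := rfl

theorem cv_inj {c d : CenR e he hce} (h : cv c = cv d) : c = d := Subtype.ext h

theorem cv_cen (c : CenR e he hce) : Cen (cv c) := c.2

instance instModCen : Module (CenR e he hce) A where
  smul := fun c x => P (cv c) x
  one_smul := fun x => he x
  mul_smul := fun c d x => PA (cv c) (cv d) x
  smul_zero := fun c => P_zero (cv c)
  smul_add := fun c x y => P_add (cv c) x y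
  add_smul := fun c d x => add_P (cv c) (cv d) x
  zero_smul := fun x => zero_P x

theorem cen_smul_def (c : CenR e he hce) (x : A) : c • x = P (cv c) x := rfl

theorem two_zsmul_P (x y : A) : (2 : ℤ) • P x y = P x ((2 : ℤ) • y) := by
  simp only [P, mul_smul_comm, smul_mul_assoc, smul_add]

instance instTowerCen : IsScalarTower (CenR e he hce) A A := ⟨by
  intro c x y
  change P (cv c) x * y = P (cv c) (x * y)
  rw [← sub_eq_zero]
  apply KokA.noTwo (A := A)
  rw [smul_sub, two_zsmul_P (cv c) (x * y), two_mul', two_mul', cen_br_P (cv_cen c), PA, P_add,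
    sub_self]⟩

instance instCommCen : SMulCommClass (CenR e he hce) A A := ⟨by
  intro c x y
  change P (cv c) (x * y) = x * P (cv c) y
  rw [← sub_eq_zero]
  apply KokA.noTwo (A := A)
  have h1 : br x (P (cv c) y) = P (cv c) (br x y) := by
    rw [br_swap, cen_br_P (cv_cen c), br_swap y x]
    simp only [P, mul_neg, neg_mul]
    abel
  rw [smul_sub, two_zsmul_P (cv c) (x * y), two_mul', two_mul', h1, ← PA x, P_comm x (cv c), PA,
    P_add, sub_self]⟩

/-- Scalars as central elements. -/
def scal (e : A) (he : ∀ x : A, P e x = x) (hce : Cen e) : F →+* CenR e he hce where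
  toFun := fun r => ⟨(r • e : A), fun y => by
    have h : br (r • e) y = r • br e y := smul_br r e y
    exact h.trans (by rw [hce y, smul_zero])⟩
  map_one' := cv_inj (one_smul F e)
  map_zero' := cv_inj (zero_smul F e)
  map_add' := fun r s => cv_inj (add_smul r s e)
  map_mul' := fun r s => cv_inj (by
    change (r * s) • e = P (r • e) (s • e)
    rw [P_smul, smul_P, he, smul_smul, mul_comm])

theorem cv_scal (r : F) : cv (scal e he hce r) = r • e := rfl

theorem scal_smul (r : F) (x : A) : scal e he hce r • x = r • x := by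
  rw [cen_smul_def, cv_scal, smul_P, he]

theorem cenR_isField (hs : IsSimpleAlg F A) (he0 : e ≠ 0) : IsField (CenR e he hce) where
  exists_pair_ne := ⟨0, 1, fun h => he0 (congrArg cv h).symm⟩
  mul_comm := fun a b => mul_comm a b
  mul_inv_cancel := by
    intro c hc
    obtain ⟨d, hd, hcd⟩ := exists_inv hs hce he (cv_cen c) (fun h => hc (cv_inj h))
    exact ⟨⟨d, hd⟩, cv_inj hcd⟩

variable (e he hce) in
/-- Central elements as elements of the central subring. -/
def mkc (a : A) (ha : Cen a) : CenR e he hce := ⟨a, ha⟩

variable (e he) in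
/-- Passing to the commutative ring. -/
def pe (a : A) : PE A e he := a

theorem pe_P (a b : A) : pe e he (P a b) = pe e he a * pe e he b := rfl

theorem pe_add (a b : A) : pe e he (a + b) = pe e he a + pe e he b := rfl

theorem pe_sub (a b : A) : pe e he (a - b) = pe e he a - pe e he b := rfl

theorem pe_one : pe e he e = 1 := rfl

theorem pe_zero : pe e he (0 : A) = 0 := rfl

theorem pe_eq_zero {a : A} (h : pe e he a = 0) : a = 0 := h

theorem pe_pow (r : A) (k : ℕ) : pe e he (pw r k) = pe e he r ^ (k + 1) := by
  induction k with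
  | zero => rw [zero_add, pow_one]; rfl
  | succ k ih => rw [pow_succ _ (k + 1), pw, pe_P, ih]

theorem charP_of_prime {R : Type u} [CommRing R] [Nontrivial R] {p : ℕ} (hp : p.Prime)
    (h : (p : R) = 0) : CharP R p := by
  have h3 : ringChar R ∣ p := ringChar.dvd h
  rcases (Nat.dvd_prime hp).mp h3 with h4 | h4
  · exact absurd h4 CharP.ringChar_ne_one
  · rw [← h4]
    exact ringChar.charP _

theorem pe_natCast (n : ℕ) : (n : PE A e he) = pe e he (n • e) := by
  induction n with
  | zero => rw [Nat.cast_zero, zero_nsmul, pe_zero]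
  | succ n ih => rw [Nat.cast_succ, ih, succ_nsmul, pe_add, pe_one]

/-- The case of a finite centre. -/
theorem finite_centre (hs : IsSimpleAlg F A) (he0 : e ≠ 0) [Finite (CenR e he hce)]
    {p : ℕ} (hp : p.Prime) (hpA : ∀ x : A, p • x = 0) (r : A) :
    ∃ g : A, Cen g ∧ Nil (r - g) := by
  have : Fact p.Prime := ⟨hp⟩
  have : Nontrivial (PE A e he) := ⟨pe e he e, 0, he0⟩
  have hcast : (p : PE A e he) = 0 := by rw [pe_natCast, hpA, pe_zero]
  have : CharP (PE A e he) p := charP_of_prime hp hcast
  have : CharP (CenR e he hce) p := charP_of_prime hp (Subtype.ext (by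
    change ((p : CenR e he hce) : PE A e he) = 0
    rw [← hcast]
    exact Subring.coe_natCast _ p))
  have : IsDomain (CenR e he hce) := (cenR_isField hs he0).isDomain
  have hz : Cen (pw r (p - 1)) := cen_pw_char hp.two_le hpA r
  obtain ⟨γ, hγ⟩ : ∃ γ : CenR e he hce, γ ^ p = mkc e he hce (pw r (p - 1)) hz := by
    have hinj : Function.Injective (frobenius (CenR e he hce) p) := frobenius_inj _ p
    have hsur : Function.Surjective (frobenius (CenR e he hce) p) :=
      Finite.surjective_of_injective hinj
    exact hsur _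
  refine ⟨cv γ, cv_cen γ, ?_⟩
  have hp1 : p - 1 + 1 = p := Nat.succ_pred_eq_of_pos hp.pos
  have h1 : (pe e he (cv γ)) ^ p = pe e he (pw r (p - 1)) := by
    have := congrArg (fun c : CenR e he hce => (c : PE A e he)) hγ
    simp only [Subring.coe_pow] at this
    exact this
  have h2 : pe e he (r - cv γ) ^ p = 0 := by
    rw [pe_sub, sub_pow_char (p := p), h1, pe_pow, hp1, sub_self]
  apply nil_of_pw_eq_zero (k := p - 1)
  apply pe_eq_zero (e := e) (he := he)
  rw [pe_pow, hp1, h2]

end CenField

end Pool.Agent.H551R3.Kok
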