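import Pool.Agent.H551R3.KokFin2

set_option autoImplicit false
set_option linter.unusedSectionVars false

namespace Pool.Agent.H551R3.Kok

universe u

section Final

variable {F : Type u} [Field F] [NeZero (2 : F)] {A : Type u} [NonUnitalNonAssocRing A]
  [Module F A] [IsScalarTower F A A] [SMulCommClass F A A] [KokA A]

theorem comm_case (hs : IsSimpleAlg F A) (hbr : ∀ a b : A, br a b = 0) : IsFieldAlg A := by
  have hP : ∀ a b : A, P a b = (2 : ℤ) • (a * b) := by
    intro a b
    rw [two_mul', hbr, add_zero]
  have hcomm : ∀ a b : A, a * b = b * a := fun a b => sub_eq_zero.mp (hbr a b)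
  refine ⟨hcomm, ?_, ?_⟩
  · intro a b c
    rw [← sub_eq_zero]
    apply NoTwo.four (A := A) KokA.noTwo
    have h1 := PA a b c
    simp only [hP, smul_mul_assoc, mul_smul_comm, smul_smul] at h1
    rw [smul_sub, sub_eq_zero]
    exact h1
  · obtain ⟨x, y, hxy⟩ := hs.1
    have h1 : P x y ≠ 0 := by
      intro h
      rw [hP] at h
      exact hxy (KokA.noTwo _ h)
    obtain ⟨e, hce, he0, he⟩ := exists_unit hs (hbr x) h1
    refine ⟨(2 : ℤ) • e, ?_, ?_, ?_⟩
    · intro h
      exact he0 (KokA.noTwo _ h)
    · intro a
      rw [smul_mul_assoc, ← hP, he]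
    · intro a ha
      obtain ⟨d, _, hd⟩ := exists_inv hs hce he (hbr a) ha
      refine ⟨(4 : ℤ) • d, ?_⟩
      rw [hP] at hd
      rw [← hd, mul_smul_comm, smul_smul]
      rfl

/-- The field structure on the centre. -/
noncomputable abbrev cenField (hs : IsSimpleAlg F A) {e : A} {he : ∀ x : A, P e x = x}
    {hce : Cen e} (he0 : e ≠ 0) : Field (CenR e he hce) :=
  { (inferInstance : CommRing (CenR e he hce)) with
    inv := fun c => @dite _ (c = 0) (Classical.propDecidable _) (fun _ => 0) fun h =>
      Classical.choose ((cenR_isField (hce := hce) (he := he) hs he0).mul_inv_cancel h)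
    exists_pair_ne := (cenR_isField (hce := hce) (he := he) hs he0).exists_pair_ne
    mul_inv_cancel := by
      intro c hc
      change c * (@dite _ (c = 0) (Classical.propDecidable _) (fun _ => 0) fun h =>
        Classical.choose ((cenR_isField (hce := hce) (he := he) hs he0).mul_inv_cancel h)) = 1
      rw [dif_neg hc]
      exact Classical.choose_spec
        ((cenR_isField (hce := hce) (he := he) hs he0).mul_inv_cancel hc)
    inv_zero := by
      change (@dite _ ((0 : CenR e he hce) = 0) (Classical.propDecidable _) (fun _ => 0) fun h =>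
        Classical.choose ((cenR_isField (hce := hce) (he := he) hs he0).mul_inv_cancel h)) = 0
      rw [dif_pos rfl]
    nnqsmul := _
    qsmul := _ }

theorem infinite_centre (hs : IsSimpleAlg F A) {e : A} (he : ∀ x : A, P e x = x)
    (hce : Cen e) (he0 : e ≠ 0) (hinf : Infinite (CenR e he hce))
    {T : Set (FreeNonUnitalNonAssocAlgebra F ℕ)} (hT : Sat T A)
    {a b : A} (hab : ¬ Nil (br a b)) : ¬ LocallyAdmissible T := by
  let i1 : Field (CenR e he hce) := cenField hs he0
  let i2 : Algebra F (CenR e he hce) := (scal e he hce).toAlgebra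
  have i3 : IsScalarTower F (CenR e he hce) A := ⟨by
    intro r c x
    change P (cv (scal e he hce r * c)) x = r • P (cv c) x
    rw [cv_mul, cv_scal, smul_P, he, smul_P]⟩
  exact not_locallyAdmissible_infinite (C := CenR e he hce) hT hab

theorem main_nil (hs : IsSimpleAlg F A) {T : Set (FreeNonUnitalNonAssocAlgebra F ℕ)}
    (hT : Sat T A) {a b : A} (hab : ¬ Nil (br a b)) : ¬ LocallyAdmissible T := by
  by_cases hF : Infinite F
  · exact not_locallyAdmissible_infinite (C := F) hT hab
  rw [not_infinite_iff_finite] at hF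
  obtain ⟨p, hp⟩ := CharP.exists F
  have hprime : p.Prime := CharP.char_is_prime F p
  have hpA : ∀ x : A, p • x = 0 := by
    intro x
    rw [← Nat.cast_smul_eq_nsmul F, CharP.cast_eq_zero, zero_smul]
  have hz : Cen (pw (br a b) (p - 1)) := cen_pw_char hprime.two_le hpA _
  have hz0 : P (pw (br a b) (p - 1)) (pw (br a b) (p - 1)) ≠ 0 := by
    intro h
    exact hab (nil_of_pw (nil_of_pw_eq_zero (k := 1) h))
  obtain ⟨e, hce, he0, he⟩ := exists_unit hs hz hz0
  by_cases hinf : Infinite (CenR e he hce)
  · exact infinite_centre hs he hce he0 hinf hT hab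
  rw [not_infinite_iff_finite] at hinf
  obtain ⟨g, hg, hag⟩ := finite_centre (e := e) (he := he) (hce := hce) hs he0 hprime hpA a
  obtain ⟨g', hg', hbg⟩ := finite_centre (e := e) (he := he) (hce := hce) hs he0 hprime hpA b
  have hbr : br (a - g) (b - g') = br a b := by
    have h1 : br (a - g) (b - g') = br a b - br g b - (br a g' - br g g') := by
      simp only [br, mul_sub, sub_mul]
      abel
    have h2 : br a g' = 0 := by rw [br_swap, hg' a, neg_zero]
    rw [h1, hg b, hg g', h2, sub_zero, sub_zero, sub_zero]
  refine not_locallyAdmissible_of (nilSub A F) (fun n hn x => nil_P hn x) hT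
    (α := a - g) (β := b - g') hag hbg ?_
  intro k hk
  rw [hbr] at hk
  exact hab (nil_of_pw hk)

end Final

/-- A simple Kokoris algebra in a locally admissible variety is a field. -/
theorem isFieldAlg_of_locallyAdmissible {F : Type u} [Field F] (h2 : (2 : F) ≠ 0)
    {T : Set (FreeNonUnitalNonAssocAlgebra F ℕ)} (hT : LocallyAdmissible T)
    {A : Type u} [NonUnitalNonAssocRing A] [Module F A] [IsScalarTower F A A]
    [SMulCommClass F A A] (hA : Sat T A) (hK : IsKokoris A) (hs : IsSimpleAlg F A) :
    IsFieldAlg A := by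
  have : NeZero (2 : F) := ⟨h2⟩
  have : KokA A := ⟨noTwo_of_module (F := F), hK⟩
  by_cases hc : ∃ a b : A, ¬ Nil (br a b)
  · obtain ⟨a, b, hab⟩ := hc
    exact absurd hT (main_nil hs hA hab)
  push Not at hc
  rcases simple_dichotomy hs (nilSub A F) (fun x hx a => nil_P hx a) (fun x _ a => hc a x)
    with h | h
  · apply comm_case hs
    intro a b
    have : br a b ∈ nilSub A F := hc a b
    rw [h, Submodule.mem_bot] at this
    exact this
  · exfalso
    have hnil : ∀ x : A, Nil x := by
      intro x
      have : x ∈ nilSub A F := by rw [h]; exact Submodule.mem_top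
      exact this
    have hP := anticomm_of_nil hs hnil
    refine simple_not_locallyNilpotent hs (hT A hA ?_)
    intro x y
    exact eq_neg_of_add_eq_zero_left (hP x y)

end Pool.Agent.H551R3.Kok
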