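import Pool.Agent.H551R3.KokChar

set_option autoImplicit false
set_option linter.unusedSectionVars false

open TensorProduct

namespace Pool.Agent.H551R3.Kok

universe u

theorem noTwo_of_module {F A : Type u} [Field F] [NeZero (2 : F)] [AddCommGroup A]
    [Module F A] : NoTwo A := by
  intro x hx
  have h2 : (2 : F) ≠ 0 := NeZero.ne 2
  have e : x = (2 : F)⁻¹ • ((2 : ℤ) • x) := by
    rw [← Int.cast_smul_eq_zsmul F, smul_smul]
    push_cast
    rw [inv_mul_cancel₀ h2, one_smul]
  rw [e, hx, smul_zero]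

section LemX

variable {C : Type u} [Field C] {A : Type u} [NonUnitalNonAssocRing A] [Module C A]
  [IsScalarTower C A A] [SMulCommClass C A A] {K : Type u} [Field K] [Algebra C K]

/-- The extended character. -/
noncomputable def extChar (χ : A →ₗ[C] K) : (K ⊗[C] A) →ₗ[C] K :=
  (LinearMap.mul' C K).comp (LinearMap.lTensor K χ)

theorem extChar_tmul (χ : A →ₗ[C] K) (k : K) (a : A) : extChar χ (k ⊗ₜ[C] a) = k * χ a := by
  simp [extChar]

theorem P_tmul (k l : K) (a b : A) :
    P (k ⊗ₜ[C] a) (l ⊗ₜ[C] b) = (k * l) ⊗ₜ[C] P a b := by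
  simp only [P, Algebra.TensorProduct.tmul_mul_tmul, TensorProduct.tmul_add, mul_comm l k]

theorem br_tmul (k l : K) (a b : A) :
    br (k ⊗ₜ[C] a) (l ⊗ₜ[C] b) = (k * l) ⊗ₜ[C] br a b := by
  simp only [br, Algebra.TensorProduct.tmul_mul_tmul, TensorProduct.tmul_sub, mul_comm l k]

theorem extChar_P (χ : A →ₗ[C] K) (hmul : ∀ x y, χ (P x y) = χ x * χ y)
    (x y : K ⊗[C] A) : extChar χ (P x y) = extChar χ x * extChar χ y := by
  induction x with
  | zero => rw [zero_P, map_zero, zero_mul]
  | add x x' hx hx' => rw [add_P, map_add, map_add, hx, hx', add_mul]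
  | tmul k a =>
    induction y with
    | zero => rw [P_zero, map_zero, mul_zero]
    | add y y' hy hy' => rw [P_add, map_add, map_add, hy, hy', mul_add]
    | tmul l b =>
      rw [P_tmul, extChar_tmul, extChar_tmul, extChar_tmul, hmul]
      ring

theorem br_sub_sub (a b c d : K ⊗[C] A) :
    br (a - b) (c - d) = br a c - br a d - br b c + br b d := by
  simp only [br, sub_mul, mul_sub]
  abel

/-- The main step over an infinite field of scalars. -/
theorem not_locallyAdmissible_infinite {F : Type u} [Field F] [NeZero (2 : F)] [Infinite C]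
    [Algebra F C] [Module F A] [IsScalarTower F A A]
    [SMulCommClass F A A] [IsScalarTower F C A] [KokA A]
    {T : Set (FreeNonUnitalNonAssocAlgebra F ℕ)} (hT : Sat T A)
    {a b : A} (hab : ¬ Nil (br a b)) : ¬ LocallyAdmissible T := by
  obtain ⟨K, _, _, χ, hmul, hχ⟩ := exists_char (C := C) (br a b) hab
  letI : Algebra F K := ((algebraMap C K).comp (algebraMap F C)).toAlgebra
  haveI : IsScalarTower F C K := IsScalarTower.of_algebraMap_eq fun _ => rfl
  haveI : KokA (K ⊗[C] A) :=
    ⟨noTwo_of_module (F := F), kokoris_tensor KokA.kok⟩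
  have hsat : Sat T (K ⊗[C] A) := sat_ext hT
  obtain ⟨x, y, z, w, hne⟩ := char_nondeg (fun a => χ a) (fun x y => map_add χ x y) hmul hχ
  let N : Submodule F (K ⊗[C] A) :=
    { carrier := {t | extChar χ t = 0}
      add_mem' := by
        intro s t hs ht
        change extChar χ (s + t) = 0
        rw [map_add]
        rw [show extChar χ s = 0 from hs, show extChar χ t = 0 from ht, add_zero]
      zero_mem' := map_zero _
      smul_mem' := by
        intro r t ht
        change extChar χ (r • t) = 0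
        rw [← algebraMap_smul C r t, map_smul, show extChar χ t = 0 from ht, smul_zero] }
  have hN : ∀ n ∈ N, ∀ x : K ⊗[C] A, P x n ∈ N := by
    intro n hn x
    change extChar χ (P x n) = 0
    rw [extChar_P χ hmul, show extChar χ n = 0 from hn, mul_zero]
  let α : K ⊗[C] A := χ y ⊗ₜ[C] x - χ x ⊗ₜ[C] y
  let β : K ⊗[C] A := χ w ⊗ₜ[C] z - χ z ⊗ₜ[C] w
  have hα : α ∈ N := by
    change extChar χ (χ y ⊗ₜ[C] x - χ x ⊗ₜ[C] y) = 0
    rw [map_sub, extChar_tmul, extChar_tmul]
    ring
  have hβ : β ∈ N := by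
    change extChar χ (χ w ⊗ₜ[C] z - χ z ⊗ₜ[C] w) = 0
    rw [map_sub, extChar_tmul, extChar_tmul]
    ring
  have hδ : extChar χ (br α β) ≠ 0 := by
    intro h0
    apply hne
    rw [← h0]
    change _ = extChar χ (br (χ y ⊗ₜ[C] x - χ x ⊗ₜ[C] y) (χ w ⊗ₜ[C] z - χ z ⊗ₜ[C] w))
    rw [br_sub_sub, br_tmul, br_tmul, br_tmul, br_tmul, map_add, map_sub, map_sub,
      extChar_tmul, extChar_tmul, extChar_tmul, extChar_tmul]
  have hpw : ∀ k, extChar χ (pw (br α β) k) ≠ 0 := by
    intro k
    induction k with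
    | zero => exact hδ
    | succ k ih =>
      change extChar χ (P (pw (br α β) k) (br α β)) ≠ 0
      rw [extChar_P χ hmul]
      exact mul_ne_zero ih hδ
  exact not_locallyAdmissible_of N hN hsat hα hβ fun k h => hpw k h

end LemX

end Pool.Agent.H551R3.Kok
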