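import Pool.Agent.H551R3.KokCount

set_option autoImplicit false
set_option linter.unusedSectionVars false

namespace Pool.Agent.H551R3.Kok

universe u

section Quot

variable {F : Type u} [Field F] {A : Type u} [NonUnitalNonAssocRing A] [Module F A]
  [IsScalarTower F A A] [SMulCommClass F A A]

/-- Two-sided ideals. -/
def IsIdl (I : Submodule F A) : Prop := ∀ x ∈ I, ∀ a : A, a * x ∈ I ∧ x * a ∈ I

/-- The quotient by a two-sided ideal. -/
def QuotAlg (I : Submodule F A) (_hI : IsIdl I) : Type u := A ⧸ I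

variable {I : Submodule F A} {hI : IsIdl I}

instance : AddCommGroup (QuotAlg I hI) := inferInstanceAs (AddCommGroup (A ⧸ I))
instance : Module F (QuotAlg I hI) := inferInstanceAs (Module F (A ⧸ I))

/-- The projection. -/
def qmk (hI : IsIdl I) (a : A) : QuotAlg I hI := Submodule.Quotient.mk (p := I) a

theorem qmk_eq {a b : A} : qmk hI a = qmk hI b ↔ a - b ∈ I := Submodule.Quotient.eq I

theorem qmk_add (a b : A) : qmk hI (a + b) = qmk hI a + qmk hI b := rfl

theorem qmk_smul (r : F) (a : A) : qmk hI (r • a) = r • qmk hI a := rfl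

theorem qmk_zero : qmk hI (0 : A) = 0 := rfl

theorem qmk_neg (a : A) : qmk hI (-a) = -qmk hI a := rfl

theorem qmk_surj (x : QuotAlg I hI) : ∃ a, qmk hI a = x :=
  Submodule.Quotient.mk_surjective I x

theorem qmk_eq_zero {a : A} : qmk hI a = 0 ↔ a ∈ I := Submodule.Quotient.mk_eq_zero I

instance : Mul (QuotAlg I hI) :=
  ⟨fun x y => Quotient.liftOn₂' x y (fun a b => qmk hI (a * b)) (by
    intro a b c d hac hbd
    have h1 : a - c ∈ I := (Submodule.quotientRel_def I).mp hac
    have h2 : b - d ∈ I := (Submodule.quotientRel_def I).mp hbd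
    refine qmk_eq.mpr ?_
    have e : a * b - c * d = (a - c) * b + c * (b - d) := by
      rw [sub_mul, mul_sub]; abel
    rw [e]
    exact I.add_mem (hI _ h1 b).2 (hI _ h2 c).1)⟩

theorem qmk_mul (a b : A) : qmk hI (a * b) = qmk hI a * qmk hI b := rfl

instance : NonUnitalNonAssocRing (QuotAlg I hI) :=
  { (inferInstance : AddCommGroup (QuotAlg I hI)), (inferInstance : Mul (QuotAlg I hI)) with
    left_distrib := by
      intro x y z
      obtain ⟨a, rfl⟩ := qmk_surj x
      obtain ⟨b, rfl⟩ := qmk_surj y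
      obtain ⟨c, rfl⟩ := qmk_surj z
      rw [← qmk_add, ← qmk_mul, mul_add]
      rfl
    right_distrib := by
      intro x y z
      obtain ⟨a, rfl⟩ := qmk_surj x
      obtain ⟨b, rfl⟩ := qmk_surj y
      obtain ⟨c, rfl⟩ := qmk_surj z
      rw [← qmk_add, ← qmk_mul, add_mul]
      rfl
    zero_mul := by
      intro x
      obtain ⟨a, rfl⟩ := qmk_surj x
      rw [← qmk_zero, ← qmk_mul, zero_mul]
    mul_zero := by
      intro x
      obtain ⟨a, rfl⟩ := qmk_surj x
      rw [← qmk_zero, ← qmk_mul, mul_zero] }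

instance : IsScalarTower F (QuotAlg I hI) (QuotAlg I hI) := ⟨by
  intro r x y
  obtain ⟨a, rfl⟩ := qmk_surj x
  obtain ⟨b, rfl⟩ := qmk_surj y
  rw [smul_eq_mul, smul_eq_mul, ← qmk_smul, ← qmk_mul, smul_mul_assoc]
  rfl⟩

instance : SMulCommClass F (QuotAlg I hI) (QuotAlg I hI) := ⟨by
  intro r x y
  obtain ⟨a, rfl⟩ := qmk_surj x
  obtain ⟨b, rfl⟩ := qmk_surj y
  rw [smul_eq_mul, smul_eq_mul, ← qmk_mul, ← qmk_smul, ← qmk_smul, ← qmk_mul, mul_smul_comm]⟩

/-- Identities pass to quotients. -/
theorem sat_quot {T : Set (FreeNonUnitalNonAssocAlgebra F ℕ)} (h : Sat T A) :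
    Sat T (QuotAlg I hI) := by
  intro f hf v
  choose w hw using fun i => qmk_surj (hI := hI) (v i)
  let g : A →ₙₐ[F] QuotAlg I hI :=
    { toFun := qmk hI
      map_smul' := fun r a => qmk_smul r a
      map_zero' := qmk_zero
      map_add' := fun a b => qmk_add a b
      map_mul' := fun a b => qmk_mul a b }
  have h1 : g.comp (FreeNonUnitalNonAssocAlgebra.lift F w) =
      FreeNonUnitalNonAssocAlgebra.lift F v := by
    apply FreeNonUnitalNonAssocAlgebra.hom_ext
    intro i
    simp only [NonUnitalAlgHom.comp_apply, Function.comp_apply,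
      FreeNonUnitalNonAssocAlgebra.lift_of_apply]
    exact hw i
  rw [← h1]
  change g (FreeNonUnitalNonAssocAlgebra.lift F w f) = 0
  rw [h f hf w]
  exact map_zero g

/-- Identities pass to subalgebras. -/
theorem sat_sub {T : Set (FreeNonUnitalNonAssocAlgebra F ℕ)} (h : Sat T A)
    (S : NonUnitalSubalgebra F A) : Sat T S := by
  intro f hf v
  have h1 : (NonUnitalSubalgebraClass.subtype S : S →ₙₐ[F] A).comp
      (FreeNonUnitalNonAssocAlgebra.lift F v) =
      FreeNonUnitalNonAssocAlgebra.lift F (fun i => (v i : A)) := by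
    apply FreeNonUnitalNonAssocAlgebra.hom_ext
    intro i
    simp only [NonUnitalAlgHom.comp_apply, Function.comp_apply,
      FreeNonUnitalNonAssocAlgebra.lift_of_apply]
    rfl
  apply Subtype.ext
  have h2 := h f hf (fun i => (v i : A))
  rw [← h1] at h2
  exact h2

end Quot

section NotLocNilp

variable {F : Type u} [Field F] {A : Type u} [NonUnitalNonAssocRing A] [Module F A]
  [IsScalarTower F A A] [SMulCommClass F A A]

theorem lift_map_succ (v : ℕ → A) (w : FreeMagma ℕ) :
    FreeMagma.lift v (FreeMagma.map Nat.succ w) = FreeMagma.lift (fun i => v (i + 1)) w := by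
  induction w with
  | ih1 i => simp
  | ih2 a b iha ihb => rw [map_mul, map_mul, iha, ihb, map_mul]

theorem length_map_succ (w : FreeMagma ℕ) : (FreeMagma.map Nat.succ w).length = w.length := by
  induction w with
  | ih1 i => rfl
  | ih2 a b iha ihb =>
    rw [map_mul]
    change (FreeMagma.map Nat.succ a).length + (FreeMagma.map Nat.succ b).length =
      a.length + b.length
    rw [iha, ihb]

variable (F)

/-- Span of the words of length at least `j` in the elements of `t`. -/
def Wd (t : Finset A) (j : ℕ) : Submodule F A :=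
  Submodule.span F {y | ∃ (w : FreeMagma ℕ) (v : ℕ → A), (∀ i, v i ∈ t) ∧ j ≤ w.length ∧
    y = FreeMagma.lift v w}

variable {F}

theorem Wd_anti (t : Finset A) {i j : ℕ} (h : i ≤ j) : Wd F t j ≤ Wd F t i := by
  refine Submodule.span_mono ?_
  rintro y ⟨w, v, hv, hj, rfl⟩
  exact ⟨w, v, hv, h.trans hj, rfl⟩

theorem Wd_mul {t : Finset A} {j : ℕ} {x y : A} (hx : x ∈ t) (hy : y ∈ Wd F t j) :
    x * y ∈ Wd F t (j + 1) ∧ y * x ∈ Wd F t (j + 1) := by
  refine Submodule.span_induction
    (p := fun y _ => x * y ∈ Wd F t (j + 1) ∧ y * x ∈ Wd F t (j + 1)) ?_ ?_ ?_ ?_ hy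
  · rintro y ⟨w, v, hv, hj, rfl⟩
    let v' : ℕ → A := fun i => Nat.casesOn i x v
    have hv' : ∀ i, v' i ∈ t := by
      intro i
      cases i with
      | zero => exact hx
      | succ i => exact hv i
    constructor
    · refine Submodule.subset_span ⟨FreeMagma.of 0 * FreeMagma.map Nat.succ w, v', hv', ?_, ?_⟩
      · change j + 1 ≤ 1 + (FreeMagma.map Nat.succ w).length
        rw [length_map_succ]; omega
      · rw [map_mul, lift_map_succ, FreeMagma.lift_of]
        rfl
    · refine Submodule.subset_span ⟨FreeMagma.map Nat.succ w * FreeMagma.of 0, v', hv', ?_, ?_⟩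
      · change j + 1 ≤ (FreeMagma.map Nat.succ w).length + 1
        rw [length_map_succ]; omega
      · rw [map_mul, lift_map_succ, FreeMagma.lift_of]
        rfl
  · rw [mul_zero, zero_mul]
    exact ⟨Submodule.zero_mem _, Submodule.zero_mem _⟩
  · intro a b _ _ ha hb
    rw [mul_add, add_mul]
    exact ⟨Submodule.add_mem _ ha.1 hb.1, Submodule.add_mem _ ha.2 hb.2⟩
  · intro r a _ ha
    rw [mul_smul_comm, smul_mul_assoc]
    exact ⟨Submodule.smul_mem _ _ ha.1, Submodule.smul_mem _ _ ha.2⟩

/-- A simple algebra is not locally nilpotent. -/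
theorem simple_not_locallyNilpotent (hs : IsSimpleAlg F A) (hl : LocallyNilpotent F A) :
    False := by
  classical
  -- the ideal attached to an element
  let Idl : A → Submodule F A := fun a =>
    { carrier := {y | ∃ s : Finset A, a ∈ s ∧ ∀ t : Finset A, s ⊆ t → ∀ j : ℕ,
        a ∈ Wd F t j → y ∈ Wd F t (j + 1)}
      add_mem' := by
        rintro x y ⟨s, has, hx⟩ ⟨s', has', hy⟩
        refine ⟨s ∪ s', Finset.mem_union_left _ has, ?_⟩
        intro t ht j ha
        exact Submodule.add_mem _ (hx t (Finset.subset_union_left.trans ht) j ha)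
          (hy t (Finset.subset_union_right.trans ht) j ha)
      zero_mem' := ⟨{a}, Finset.mem_singleton_self a, fun t _ j _ => Submodule.zero_mem _⟩
      smul_mem' := by
        rintro r x ⟨s, has, hx⟩
        exact ⟨s, has, fun t ht j ha => Submodule.smul_mem _ _ (hx t ht j ha)⟩ }
  have hIdl : ∀ a, ∀ x ∈ Idl a, ∀ b : A, b * x ∈ Idl a ∧ x * b ∈ Idl a := by
    rintro a x ⟨s, has, hx⟩ b
    constructor
    · refine ⟨insert b s, Finset.mem_insert_of_mem has, ?_⟩
      intro t ht j ha
      have h1 := hx t ((Finset.subset_insert b s).trans ht) j ha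
      exact Wd_anti t (Nat.le_succ _) (Wd_mul (ht (Finset.mem_insert_self b s)) h1).1
    · refine ⟨insert b s, Finset.mem_insert_of_mem has, ?_⟩
      intro t ht j ha
      have h1 := hx t ((Finset.subset_insert b s).trans ht) j ha
      exact Wd_anti t (Nat.le_succ _) (Wd_mul (ht (Finset.mem_insert_self b s)) h1).2
  have hmem : ∀ a x : A, a * x ∈ Idl a := by
    intro a x
    refine ⟨{a, x}, Finset.mem_insert_self _ _, ?_⟩
    intro t ht j ha
    exact (Wd_mul (ht (Finset.mem_insert_of_mem (Finset.mem_singleton_self x))) ha).2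
  obtain ⟨p, q, hpq⟩ := hs.1
  have htop : Idl p = ⊤ := (hs.2 (Idl p) (hIdl p)).resolve_left fun h => by
    have := hmem p q
    rw [h, Submodule.mem_bot] at this
    exact hpq this
  have hp : p ∈ Idl p := by rw [htop]; exact Submodule.mem_top
  obtain ⟨s, hps, hs'⟩ := hp
  have hj : ∀ j, p ∈ Wd F s j := by
    intro j
    induction j with
    | zero =>
      exact Submodule.subset_span ⟨FreeMagma.of 0, fun _ => p, fun _ => hps, Nat.zero_le _,
        by simp⟩
    | succ j ih => exact hs' s (Finset.Subset.refl s) j ih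
  obtain ⟨m, hm⟩ := hl s
  have hbot : Wd F s m ≤ ⊥ := by
    rw [Wd, Submodule.span_le]
    rintro y ⟨w, v, hv, hlen, rfl⟩
    rw [hm w v (fun i => NonUnitalAlgebra.subset_adjoin F (hv i)) hlen]
    exact Submodule.zero_mem _
  have hp0 : p = 0 := (Submodule.mem_bot F).mp (hbot (hj m))
  exact hpq (by rw [hp0, zero_mul])

end NotLocNilp

end Pool.Agent.H551R3.Kok
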