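import Pool.Agent.H551R3.KokQuot

set_option autoImplicit false
set_option linter.unusedSectionVars false

namespace Pool.Agent.H551R3.Kok

universe u

section ThmA

variable {F : Type u} [Field F] {A : Type u} [NonUnitalNonAssocRing A] [Module F A]
  [IsScalarTower F A A] [SMulCommClass F A A]

theorem half_mem [NeZero (2 : F)] (M : Submodule F A) {x : A} (hx : (2 : ℤ) • x ∈ M) :
    x ∈ M := by
  have h2 : (2 : F) ≠ 0 := NeZero.ne 2
  have e : x = (2 : F)⁻¹ • ((2 : ℤ) • x) := by
    rw [← Int.cast_smul_eq_zsmul F, smul_smul]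
    push_cast
    rw [inv_mul_cancel₀ h2, one_smul]
  rw [e]
  exact Submodule.smul_mem _ _ hx

variable (F) in
/-- `x ↦ P b x` as a linear map. -/
def PL (b : A) : A →ₗ[F] A where
  toFun := fun x => P b x
  map_add' := fun x y => P_add b x y
  map_smul' := fun r x => by
    simp only [P, mul_smul_comm, smul_mul_assoc, smul_add, RingHom.id_apply]

variable (F) in
/-- `x ↦ br x b` as a linear map. -/
def BL (b : A) : A →ₗ[F] A where
  toFun := fun x => br x b
  map_add' := fun x y => add_br x y b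
  map_smul' := fun r x => by
    simp only [br, mul_smul_comm, smul_mul_assoc, smul_sub, RingHom.id_apply]

/-- Span of the symmetrised products. -/
def PP (I J : Submodule F A) : Submodule F A :=
  Submodule.span F {z | ∃ x ∈ I, ∃ y ∈ J, z = P x y}

theorem PP_mem {I J : Submodule F A} {x y : A} (hx : x ∈ I) (hy : y ∈ J) : P x y ∈ PP I J :=
  Submodule.subset_span ⟨x, hx, y, hy, rfl⟩

theorem PP_le_comap {I J M : Submodule F A} (g : A →ₗ[F] A)
    (h : ∀ x ∈ I, ∀ y ∈ J, g (P x y) ∈ M) : PP I J ≤ M.comap g := by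
  rw [PP, Submodule.span_le]
  rintro z ⟨x, hx, y, hy, rfl⟩
  exact h x hx y hy

variable [KokA A] (N : Submodule F A) (hN : ∀ n ∈ N, ∀ x : A, P x n ∈ N)

include hN

theorem N2_P {z : A} (hz : z ∈ PP N N) (x : A) : P x z ∈ PP N N := by
  refine PP_le_comap (M := PP N N) (PL F x) ?_ hz
  intro a ha b hb
  change P x (P a b) ∈ PP N N
  rw [← PA]
  exact PP_mem (hN a ha x) hb

theorem N3_P {z : A} (hz : z ∈ PP (PP N N) N) (x : A) : P x z ∈ PP (PP N N) N := by
  refine PP_le_comap (M := PP (PP N N) N) (PL F x) ?_ hz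
  intro a ha b hb
  change P x (P a b) ∈ PP (PP N N) N
  rw [← PA]
  exact PP_mem (N2_P N hN ha x) hb

theorem N2_le : PP N N ≤ N := by
  rw [PP, Submodule.span_le]
  rintro z ⟨x, _, y, hy, rfl⟩
  exact hN y hy x

theorem N3_le : PP (PP N N) N ≤ PP N N := by
  rw [PP, Submodule.span_le]
  rintro z ⟨x, hx, y, hy, rfl⟩
  exact PP_mem (N2_le N hN hx) hy

theorem N2_br {x : A} (hx : x ∈ PP N N) (y : A) : br x y ∈ N := by
  refine PP_le_comap (M := N) (BL F y) ?_ hx
  intro a ha b hb
  change br (P a b) y ∈ N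
  rw [BP, P_comm a]
  exact N.add_mem (hN a ha _) (hN b hb _)

theorem N3_br {x : A} (hx : x ∈ PP (PP N N) N) (y : A) : br x y ∈ PP N N := by
  refine PP_le_comap (M := PP N N) (BL F y) ?_ hx
  intro a ha b hb
  change br (P a b) y ∈ PP N N
  rw [BP, P_comm a]
  exact (PP N N).add_mem (N2_P N hN ha _) (PP_mem (N2_br N hN ha y) hb)

theorem br_N2 {y : A} (hy : y ∈ PP N N) (x : A) : br x y ∈ N := by
  rw [br_swap]
  exact N.neg_mem (N2_br N hN hy x)

theorem N2_br_N2 {x y : A} (hx : x ∈ PP N N) (hy : y ∈ PP N N) : br x y ∈ PP N N := by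
  refine PP_le_comap (M := PP N N) (BL F y) ?_ hx
  intro a ha b hb
  change br (P a b) y ∈ PP N N
  rw [BP]
  exact (PP N N).add_mem (PP_mem ha (br_N2 N hN hy b)) (PP_mem (br_N2 N hN hy a) hb)

theorem N3_br_N2 {x y : A} (hx : x ∈ PP (PP N N) N) (hy : y ∈ PP N N) :
    br x y ∈ PP (PP N N) N := by
  refine PP_le_comap (M := PP (PP N N) N) (BL F y) ?_ hx
  intro a ha b hb
  change br (P a b) y ∈ PP (PP N N) N
  rw [BP]
  exact (PP (PP N N) N).add_mem (PP_mem ha (br_N2 N hN hy b))
    (PP_mem (N2_br_N2 N hN ha hy) hb)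

theorem N2_P_N2 {x y : A} (hx : x ∈ PP N N) (hy : y ∈ PP N N) : P x y ∈ PP (PP N N) N :=
  PP_mem hx (N2_le N hN hy)

variable [NeZero (2 : F)]

theorem N2_mul {x y : A} (hx : x ∈ PP N N) (hy : y ∈ PP N N) : x * y ∈ PP N N := by
  apply half_mem
  rw [two_mul']
  exact (PP N N).add_mem (N2_P N hN hy x) (N2_br_N2 N hN hx hy)

theorem N3_mul {x y : A} (hx : x ∈ PP (PP N N) N) (hy : y ∈ PP N N) :
    y * x ∈ PP (PP N N) N ∧ x * y ∈ PP (PP N N) N := by
  have hP : P x y ∈ PP (PP N N) N := by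
    rw [P_comm]
    exact N3_P N hN hx y
  have hB := N3_br_N2 N hN hx hy
  constructor
  · apply half_mem
    rw [two_mul', P_comm, br_swap]
    exact (PP (PP N N) N).add_mem hP ((PP (PP N N) N).neg_mem hB)
  · apply half_mem
    rw [two_mul']
    exact (PP (PP N N) N).add_mem hP hB

/-- The subalgebra `N2`. -/
def subN : NonUnitalSubalgebra F A where
  carrier := {x | x ∈ PP N N}
  add_mem' := fun hx hy => (PP N N).add_mem hx hy
  zero_mem' := (PP N N).zero_mem
  mul_mem' := fun hx hy => N2_mul N hN hx hy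
  smul_mem' := fun r _ hx => (PP N N).smul_mem r hx

/-- The ideal `N3` of `N2`. -/
def idlN : Submodule F (subN N hN) where
  carrier := {x | (x : A) ∈ PP (PP N N) N}
  add_mem' := fun hx hy => (PP (PP N N) N).add_mem hx hy
  zero_mem' := (PP (PP N N) N).zero_mem
  smul_mem' := fun r _ hx => (PP (PP N N) N).smul_mem r hx

theorem isIdl_idlN : IsIdl (idlN N hN) := by
  intro x hx a
  exact N3_mul N hN hx a.2

omit hN in
/-- The left-normed words. -/
def lw : ℕ → FreeMagma ℕ
  | 0 => FreeMagma.of 1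
  | k + 1 => FreeMagma.of 0 * lw k

omit hN in
theorem length_lw (k : ℕ) : (lw k).length = k + 1 := by
  induction k with
  | zero => rfl
  | succ k ih =>
    change 1 + (lw k).length = k + 1 + 1
    rw [ih]; omega

omit hN in
theorem lw_lift {B : Type u} [NonUnitalNonAssocRing B] (v : ℕ → B) (k : ℕ) :
    FreeMagma.lift v (lw (k + 1)) = v 0 * FreeMagma.lift v (lw k) := by
  rw [lw, map_mul, FreeMagma.lift_of]

omit hN in
/-- Powers for the symmetrised product. -/
def pw (δ : A) : ℕ → A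
  | 0 => δ
  | k + 1 => P (pw δ k) δ

omit hN [NeZero (2 : F)] in
theorem zk_br_h (α β w : A) : br (P α β) (P (P α α) w) =
    P (P α α) (P α (br β w)) + -((2 : ℤ) • P (P α α) (P (br α β) w)) +
      P (P (P α α) (br α w)) β := by
  have e1 : br α (P α α) = 0 := by
    rw [BP', br_self, P_zero, zero_P, add_zero]
  have e2 : br β (P α α) = -((2 : ℤ) • P α (br α β)) := by
    rw [BP', P_comm (br β α) α, br_swap β α]
    simp only [P, mul_neg, neg_mul]
    abel
  rw [BP, BP' (P α α) w β, BP' (P α α) w α, e1, e2]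
  have e3 : ∀ x y : A, P (-((2 : ℤ) • x)) y = -((2 : ℤ) • P x y) := by
    intro x y
    simp only [P, mul_neg, neg_mul, mul_smul_comm, smul_mul_assoc, smul_add]
    abel
  have e4 : ∀ x y : A, P x (-((2 : ℤ) • y)) = -((2 : ℤ) • P x y) := by
    intro x y
    rw [P_comm, e3, P_comm]
  rw [e3, zero_P, add_zero, P_add, e4]
  have e5 : P α (P (P α α) (br β w)) = P (P α α) (P α (br β w)) := by
    rw [← PA, P_comm α (P α α), PA]
  have e6 : P α (P (P α (br α β)) w) = P (P α α) (P (br α β) w) := by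
    rw [PA α (br α β) w, ← PA α α]
  rw [e5, e6]

omit hN [NeZero (2 : F)] in
theorem br_h_e (α β : A) : br (P α β) (P α α) = -((2 : ℤ) • P (P α α) (br α β)) := by
  have e1 : br α (P α α) = 0 := by
    rw [BP', br_self, P_zero, zero_P, add_zero]
  have e2 : br β (P α α) = -((2 : ℤ) • P α (br α β)) := by
    rw [BP', P_comm (br β α) α, br_swap β α]
    simp only [P, mul_neg, neg_mul]
    abel
  have e4 : ∀ x y : A, P x (-((2 : ℤ) • y)) = -((2 : ℤ) • P x y) := by
    intro x y
    simp only [P, mul_neg, neg_mul, mul_smul_comm, smul_mul_assoc, smul_add]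
    abel
  rw [BP, e1, e2, zero_P, add_zero, e4, ← PA]

omit [NeZero (2 : F)] in
theorem zk_DD (α β w : A) (hα : α ∈ N) :
    br (br (P (P α α) w) β) β - (2 : ℤ) • P (P w (br α β)) (br α β) ∈ N := by
  have e2 : br (P α α) β = (2 : ℤ) • P α (br α β) := by
    rw [BP, P_comm (br α β) α, two_smul]
  have e3 : ∀ x y : A, P ((2 : ℤ) • x) y = (2 : ℤ) • P x y := by
    intro x y
    simp only [P, mul_smul_comm, smul_mul_assoc, smul_add]
  have e7 : ∀ x y : A, br ((2 : ℤ) • x) y = (2 : ℤ) • br x y := by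
    intro x y
    simp only [br, mul_smul_comm, smul_mul_assoc, smul_sub]
  rw [BP, e2, e3, add_br, e7, PA α (br α β) w, BP α, smul_add, P_comm w (br α β),
    P_comm (P (br α β) w) (br α β)]
  have hzz : P (P α α) (br w β) ∈ PP N N := by
    rw [P_comm]
    exact N2_P N hN (PP_mem hα hα) _
  have h1 := N2_br N hN hzz β
  have h2 : (2 : ℤ) • P α (br (P (br α β) w) β) ∈ N := by
    refine N.smul_of_tower_mem (2 : ℤ) ?_
    rw [P_comm]
    exact hN α hα _
  have e8 : br (P (P α α) (br w β)) β + ((2 : ℤ) • P α (br (P (br α β) w) β) +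
      (2 : ℤ) • P (br α β) (P (br α β) w)) - (2 : ℤ) • P (br α β) (P (br α β) w) =
      br (P (P α α) (br w β)) β + (2 : ℤ) • P α (br (P (br α β) w) β) := by abel
  rw [e8]
  exact N.add_mem h1 h2

/-- Theorem A. -/
theorem not_locallyAdmissible_of {T : Set (FreeNonUnitalNonAssocAlgebra F ℕ)} (hT : Sat T A)
    {α β : A} (hα : α ∈ N) (hβ : β ∈ N) (hδ : ∀ k, pw (br α β) k ∉ N) :
    ¬ LocallyAdmissible T := by
  intro hadm
  have hB : LocallyNilpotent F (QuotAlg (idlN N hN) (isIdl_idlN N hN)) := by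
    refine hadm _ (sat_quot (sat_sub hT (subN N hN))) ?_
    intro x y
    obtain ⟨a, rfl⟩ := qmk_surj x
    obtain ⟨b, rfl⟩ := qmk_surj y
    rw [← qmk_mul, ← qmk_mul, ← qmk_neg, qmk_eq]
    change ((a * b - -(b * a) : subN N hN) : A) ∈ PP (PP N N) N
    have : ((a * b - -(b * a) : subN N hN) : A) = P (a : A) (b : A) := by
      rw [sub_neg_eq_add]
      rfl
    rw [this]
    exact N2_P_N2 N hN a.2 b.2
  have hαα : P α α ∈ PP N N := PP_mem hα hα
  have hz : ∀ k, P (P α α) (pw (br α β) k) ∈ PP N N := by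
    intro k
    rw [P_comm]
    exact N2_P N hN hαα _
  let z : ℕ → subN N hN := fun k => ⟨P (P α α) (pw (br α β) k), hz k⟩
  let h : subN N hN := ⟨-P α β, (PP N N).neg_mem (PP_mem hα hβ)⟩
  let e : subN N hN := ⟨P α α, hαα⟩
  have neg_br : ∀ x y : A, br (-x) y = -br x y := by
    intro x y
    simp only [br, mul_neg, neg_mul]
    abel
  have hhe : h * e - z 0 ∈ idlN N hN := by
    change -P α β * P α α - P (P α α) (br α β) ∈ PP (PP N N) N
    apply half_mem
    rw [smul_sub, two_mul', neg_br, br_h_e, neg_neg, add_sub_cancel_right]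
    exact N2_P_N2 N hN ((PP N N).neg_mem (PP_mem hα hβ)) hαα
  have hhz : ∀ k, h * z k - z (k + 1) ∈ idlN N hN := by
    intro k
    change -P α β * P (P α α) (pw (br α β) k) - P (P α α) (P (pw (br α β) k) (br α β)) ∈
      PP (PP N N) N
    apply half_mem
    rw [smul_sub, two_mul', neg_br, zk_br_h, P_comm (pw (br α β) k) (br α β)]
    have h1 := N2_P_N2 N hN ((PP N N).neg_mem (PP_mem hα hβ)) (hz k)
    have h2 : P (P α α) (P α (br β (pw (br α β) k))) ∈ PP (PP N N) N := by
      refine PP_mem hαα ?_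
      rw [P_comm]
      exact hN α hα _
    have h3 : P (P (P α α) (br α (pw (br α β) k))) β ∈ PP (PP N N) N := by
      refine PP_mem ?_ hβ
      rw [P_comm]
      exact N2_P N hN hαα _
    have e9 : ∀ X Y Z W : A, X + -(Y + -((2 : ℤ) • Z) + W) - (2 : ℤ) • Z = X - Y - W := by
      intro X Y Z W
      abel
    rw [e9]
    exact (PP (PP N N) N).sub_mem ((PP (PP N N) N).sub_mem h1 h2) h3
  let v : ℕ → QuotAlg (idlN N hN) (isIdl_idlN N hN) := fun i =>
    if i = 0 then qmk (isIdl_idlN N hN) h else qmk (isIdl_idlN N hN) e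
  have hv0 : v 0 = qmk (isIdl_idlN N hN) h := rfl
  have hv1 : v 1 = qmk (isIdl_idlN N hN) e := rfl
  have hlift : ∀ k, FreeMagma.lift v (lw (k + 1)) = qmk (isIdl_idlN N hN) (z k) := by
    intro k
    induction k with
    | zero =>
      rw [lw_lift, hv0]
      change qmk (isIdl_idlN N hN) h * FreeMagma.lift v (FreeMagma.of 1) = _
      rw [FreeMagma.lift_of, hv1, ← qmk_mul, qmk_eq]
      exact hhe
    | succ k ih =>
      rw [lw_lift, ih, hv0, ← qmk_mul, qmk_eq]
      exact hhz k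
  classical
  obtain ⟨m, hm⟩ := hB {qmk (isIdl_idlN N hN) h, qmk (isIdl_idlN N hN) e}
  have h0 := hm (lw (m + 1)) v (by
    intro i
    apply NonUnitalAlgebra.subset_adjoin
    by_cases hi : i = 0
    · simp [v, hi]
    · simp [v, hi]) (by rw [length_lw]; omega)
  rw [hlift, qmk_eq_zero] at h0
  have h1 : P (P α α) (pw (br α β) m) ∈ PP (PP N N) N := h0
  have h2 : br (br (P (P α α) (pw (br α β) m)) β) β ∈ N :=
    N2_br N hN (N3_br N hN h1 β) β
  have h3 := zk_DD N hN α β (pw (br α β) m) hα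
  have h4 : (2 : ℤ) • P (P (pw (br α β) m) (br α β)) (br α β) ∈ N := by
    have := N.sub_mem h2 h3
    rwa [sub_sub_cancel] at this
  exact hδ (m + 2) (half_mem N h4)

end ThmA

end Pool.Agent.H551R3.Kok
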