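import Mathlib

set_option autoImplicit false

namespace Pool.Agent.H551R3.Sab

universe u

/-- All ways of splitting a list into two complementary subsequences. -/
def splits {α : Type u} : List α → List (List α × List α)
  | [] => [([], [])]
  | x :: l => (splits l).map (fun p => (x :: p.1, p.2)) ++ (splits l).map (fun p => (p.1, x :: p.2))

/-- A degree `d` Sabinin algebra structure on the vector space `A`. The operations
`br [x₁, …, xₘ] y z` and `phi [x₁, …, xₘ] [y₁, …, yₙ]` are multilinear; those which are not
operations of arity at most `d` are put equal to zero. -/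
structure SabAlg (F : Type u) [Field F] (d : ℕ) (A : Type u) [AddCommGroup A] [Module F A] where
  /-- the operation `⟨x₁, …, xₘ; y, z⟩` -/
  br : List A → A → A → A
  /-- the operation `Φ(x₁, …, xₘ; y₁, …, yₙ)` -/
  phi : List A → List A → A
  br_add : ∀ (X Z : List A) (a b y z : A),
    br (X ++ (a + b) :: Z) y z = br (X ++ a :: Z) y z + br (X ++ b :: Z) y z
  br_smul : ∀ (X Z : List A) (r : F) (a y z : A),
    br (X ++ (r • a) :: Z) y z = r • br (X ++ a :: Z) y z
  br_add_left : ∀ (X : List A) (y y' z : A), br X (y + y') z = br X y z + br X y' z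
  br_smul_left : ∀ (X : List A) (r : F) (y z : A), br X (r • y) z = r • br X y z
  br_add_right : ∀ (X : List A) (y z z' : A), br X y (z + z') = br X y z + br X y z'
  br_smul_right : ∀ (X : List A) (r : F) (y z : A), br X y (r • z) = r • br X y z
  phi_add_left : ∀ (X Z Y : List A) (a b : A),
    phi (X ++ (a + b) :: Z) Y = phi (X ++ a :: Z) Y + phi (X ++ b :: Z) Y
  phi_smul_left : ∀ (X Z Y : List A) (r : F) (a : A),
    phi (X ++ (r • a) :: Z) Y = r • phi (X ++ a :: Z) Y
  phi_add_right : ∀ (X Y Z : List A) (a b : A),
    phi X (Y ++ (a + b) :: Z) = phi X (Y ++ a :: Z) + phi X (Y ++ b :: Z)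
  phi_smul_right : ∀ (X Y Z : List A) (r : F) (a : A),
    phi X (Y ++ (r • a) :: Z) = r • phi X (Y ++ a :: Z)
  br_arity : ∀ (X : List A) (y z : A), d < X.length + 2 → br X y z = 0
  phi_arity : ∀ X Y : List A, X.length < 1 ∨ Y.length < 2 ∨ d < X.length + Y.length →
    phi X Y = 0
  s1 : ∀ (X : List A) (y z : A), X.length + 2 ≤ d → br X y z + br X z y = 0
  s2 : ∀ (X Z : List A) (a b y z : A), X.length + Z.length + 4 ≤ d →
    br (X ++ a :: b :: Z) y z - br (X ++ b :: a :: Z) y z +
      ((splits X).map fun p => br (p.1 ++ br p.2 a b :: Z) y z).sum = 0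
  s3 : ∀ (X : List A) (x y z : A), X.length + 3 ≤ d →
    (br (X ++ [x]) y z + ((splits X).map fun p => br p.1 (br p.2 y z) x).sum) +
      (br (X ++ [y]) z x + ((splits X).map fun p => br p.1 (br p.2 z x) y).sum) +
      (br (X ++ [z]) x y + ((splits X).map fun p => br p.1 (br p.2 x y) z).sum) = 0
  s4 : ∀ X X' Y Y' : List A, X.Perm X' → Y.Perm Y' → phi X Y = phi X' Y'

variable {F : Type u} [Field F] {d : ℕ} {A : Type u} [AddCommGroup A] [Module F A]

/-- Homomorphisms of degree `d` Sabinin algebras. -/
structure IsHom {C : Type u} [AddCommGroup C] [Module F C] (S : SabAlg F d A)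
    (S' : SabAlg F d C) (φ : A →ₗ[F] C) : Prop where
  br : ∀ (X : List A) (y z : A), φ (S.br X y z) = S'.br (X.map φ) (φ y) (φ z)
  phi : ∀ X Y : List A, φ (S.phi X Y) = S'.phi (X.map φ) (Y.map φ)

/-- A subspace closed under the operations. -/
structure IsSubalgebra (S : SabAlg F d A) (B : Submodule F A) : Prop where
  br : ∀ (X : List A) (y z : A), (∀ x ∈ X, x ∈ B) → y ∈ B → z ∈ B → S.br X y z ∈ B
  phi : ∀ X Y : List A, (∀ x ∈ X, x ∈ B) → (∀ y ∈ Y, y ∈ B) → S.phi X Y ∈ B

theorem splits_map {α β : Type u} (f : α → β) (l : List α) :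
    splits (l.map f) = (splits l).map (fun p => (p.1.map f, p.2.map f)) := by
  induction l with
  | nil => rfl
  | cons x l ih =>
    simp only [List.map_cons, splits, ih, List.map_append, List.map_map]
    rfl

theorem coe_sum_map {B : Submodule F A} {ι : Type u} (l : List ι) (g : ι → B) :
    (((l.map g).sum : B) : A) = (l.map fun i => (g i : A)).sum := by
  induction l with
  | nil => rfl
  | cons i l ih => simp only [List.map_cons, List.sum_cons,  Submodule.coe_add, ih]

/-- The restriction of the operations to a subalgebra. -/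
def SabAlg.restrict (S : SabAlg F d A) (B : Submodule F A) (hB : IsSubalgebra S B) :
    SabAlg F d B where
  br := fun X y z => ⟨S.br (X.map Subtype.val) y z, hB.br _ _ _ (by
    intro x hx
    obtain ⟨b, _, rfl⟩ := List.mem_map.mp hx
    exact b.2) y.2 z.2⟩
  phi := fun X Y => ⟨S.phi (X.map Subtype.val) (Y.map Subtype.val), hB.phi _ _ (by
    intro x hx
    obtain ⟨b, _, rfl⟩ := List.mem_map.mp hx
    exact b.2) (by
    intro x hx
    obtain ⟨b, _, rfl⟩ := List.mem_map.mp hx
    exact b.2)⟩
  br_add := fun X Z a b y z => Subtype.ext (by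
    simp only [List.map_append, List.map_cons, Submodule.coe_add, S.br_add])
  br_smul := fun X Z r a y z => Subtype.ext (by
    simp only [List.map_append, List.map_cons, Submodule.coe_smul, S.br_smul])
  br_add_left := fun X y y' z => Subtype.ext (by
    simp only [Submodule.coe_add, S.br_add_left])
  br_smul_left := fun X r y z => Subtype.ext (by
    simp only [Submodule.coe_smul, S.br_smul_left])
  br_add_right := fun X y z z' => Subtype.ext (by
    simp only [Submodule.coe_add, S.br_add_right])
  br_smul_right := fun X r y z => Subtype.ext (by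
    simp only [Submodule.coe_smul, S.br_smul_right])
  phi_add_left := fun X Z Y a b => Subtype.ext (by
    simp only [List.map_append, List.map_cons, Submodule.coe_add, S.phi_add_left])
  phi_smul_left := fun X Z Y r a => Subtype.ext (by
    simp only [List.map_append, List.map_cons, Submodule.coe_smul, S.phi_smul_left])
  phi_add_right := fun X Y Z a b => Subtype.ext (by
    simp only [List.map_append, List.map_cons, Submodule.coe_add, S.phi_add_right])
  phi_smul_right := fun X Y Z r a => Subtype.ext (by
    simp only [List.map_append, List.map_cons, Submodule.coe_smul, S.phi_smul_right])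
  br_arity := fun X y z h => Subtype.ext (S.br_arity _ _ _ (by rwa [List.length_map]))
  phi_arity := fun X Y h => Subtype.ext (S.phi_arity _ _ (by
    rwa [List.length_map, List.length_map]))
  s1 := fun X y z h => Subtype.ext (S.s1 _ _ _ (by rwa [List.length_map]))
  s2 := fun X Z a b y z h => Subtype.ext (by
    have h1 := S.s2 (X.map Subtype.val) (Z.map Subtype.val) a b y z
      (by rwa [List.length_map, List.length_map])
    rw [splits_map, List.map_map] at h1
    simp only [Submodule.coe_add, Submodule.coe_sub, coe_sum_map, List.map_append,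
      List.map_cons, Submodule.coe_zero]
    exact h1)
  s3 := fun X x y z h => Subtype.ext (by
    have h1 := S.s3 (X.map Subtype.val) x y z (by rwa [List.length_map])
    rw [splits_map, List.map_map, List.map_map, List.map_map] at h1
    simp only [Submodule.coe_add, coe_sum_map, List.map_append, List.map_cons,
      Submodule.coe_zero, List.map_nil]
    exact h1)
  s4 := fun X X' Y Y' h h' => Subtype.ext (S.s4 _ _ _ _ (h.map _) (h'.map _))

/-- The algebra is free on the family `ι`: the universal property. -/
def IsFree (S : SabAlg F d A) {X : Type u} (ι : X → A) : Prop :=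
  ∀ (C : Type u) [AddCommGroup C] [Module F C] (S' : SabAlg F d C) (g : X → C),
    ∃! φ : A →ₗ[F] C, IsHom S S' φ ∧ ∀ x, φ (ι x) = g x

/-- The variety of degree `d` Sabinin algebras over `F` is a Schreier variety: every subalgebra of
every free algebra is free. -/
def IsSchreier (F : Type u) [Field F] (d : ℕ) : Prop :=
  ∀ (A : Type u) [AddCommGroup A] [Module F A] (S : SabAlg F d A) (X : Type u) (ι : X → A),
    IsFree S ι → ∀ (B : Submodule F A) (hB : IsSubalgebra S B),
      ∃ (Y : Type u) (κ : Y → B), IsFree (S.restrict B hB) κ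

end Pool.Agent.H551R3.Sab
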