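import Pool.Agent.H551R3.SabJet

set_option autoImplicit false
set_option linter.unusedSectionVars false

namespace Pool.Agent.H551R3.Sab

universe u

section Inv

variable {F : Type u} [Field F] {A B : Type u} [AddCommGroup A] [Module F A]
  [AddCommGroup B] [Module F B]

/-- A frame: linear, multilinear, identity at the origin. -/
structure Frame (F : Type u) [Field F] {A : Type u} [AddCommGroup A] [Module F A]
    (E : A → Multiset A → A) : Prop where
  lin : IsLinearMap F E
  ml : ∀ v, ML F (E v)
  one : ∀ v, E v 0 = v

variable {E : A → Multiset A → A}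

theorem isLinear_sub {K K' : A → Multiset A → B} (hK : IsLinearMap F K)
    (hK' : IsLinearMap F K') : IsLinearMap F (fun u => K u - K' u) :=
  ⟨fun u v => by rw [hK.map_add, hK'.map_add]; abel,
    fun r u => by rw [hK.map_smul, hK'.map_smul, smul_sub]⟩

/-- The inverse operator. -/
def inv (F : Type u) [Field F] {A : Type u} [AddCommGroup A] [Module F A]
    (E : A → Multiset A → A) (w : Multiset A → A) : Multiset A → A :=
  solve (fun u => delta u - E u) (fun _ => (1 : F)) w

theorem star_inv (_hE : IsLinearMap F E) (h1 : ∀ v, E v 0 = v) (w : Multiset A → A) :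
    star E (inv F E w) = w := by
  have h0 : ∀ u, (fun u => delta u - E u) u 0 = 0 := by
    intro u
    change delta u 0 - E u 0 = 0
    rw [delta_zero_apply, h1, sub_self]
  funext s
  have h := solve_spec h0 (fun _ => (1 : F)) w s
  rw [one_smul, star_sub_left, delta_star, Pi.sub_apply] at h
  change inv F E w s = w s + (inv F E w s - star E (inv F E w) s) at h
  have h2 : inv F E w s = (w s - star E (inv F E w) s) + inv F E w s := by
    rw [← sub_eq_zero] at h ⊢
    rw [← h]
    abel
  exact (sub_eq_zero.mp (left_eq_add.mp (by rw [add_comm] at h2; exact h2))).symm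

theorem star_inj (hE : IsLinearMap F E) (h1 : ∀ v, E v 0 = v) {g : Multiset A → A}
    (h : star E g = 0) : g = 0 := by
  have h0 : ∀ u, (fun u => delta u - E u) u 0 = 0 := by
    intro u
    change delta u 0 - E u 0 = 0
    rw [delta_zero_apply, h1, sub_self]
  refine solve_unique (isLinear_sub isLinear_delta hE) h0 (fun _ => (1 : F)) ?_
  intro s
  rw [star_sub_left, delta_star, h, one_smul, sub_zero]

theorem star_inj' (hE : IsLinearMap F E) (h1 : ∀ v, E v 0 = v) {g g' : Multiset A → A}
    (h : star E g = star E g') : g = g' := by
  rw [← sub_eq_zero]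
  apply star_inj hE h1
  have : star E (g - g') = star E g - star E g' := (starL E hE).map_sub _ _
  rw [this, h, sub_self]

theorem star_ml (hE : Frame F E) {g : Multiset A → A} (h : ML F (star E g)) : ML F g := by
  have hadd : ∀ g g' : Multiset A → A, star E (g + g') = star E g + star E g' :=
    fun g g' => (starL E hE.lin).map_add _ _
  have hsmul : ∀ (r : F) (g : Multiset A → A), star E (r • g) = r • star E g :=
    fun r g => (starL E hE.lin).map_smul _ _
  have hdd : ∀ a, star E (dd a g) = dd a (star E g) - star (fun u => dd a (E u)) g := by
    intro a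
    rw [dd_star]
    abel
  constructor
  · intro a b
    apply star_inj' hE.lin hE.one
    rw [hadd, hdd, hdd, hdd, h.map_add]
    have e1 : (fun w => dd (a + b) (E w)) = fun w => dd a (E w) + dd b (E w) := by
      funext w
      exact (hE.ml w).map_add a b
    rw [e1, star_add_left]
    abel
  · intro r a
    apply star_inj' hE.lin hE.one
    rw [hsmul, hdd, hdd, h.map_smul]
    have e1 : (fun w => dd (r • a) (E w)) = fun w => r • dd a (E w) := by
      funext w
      exact (hE.ml w).map_smul r a
    rw [e1, star_smul_left, smul_sub]

theorem inv_frame (hE : Frame F E) : Frame F (fun v => inv F E (delta v)) := by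
  have hadd : ∀ g g' : Multiset A → A, star E (g + g') = star E g + star E g' :=
    fun g g' => (starL E hE.lin).map_add _ _
  have hsmul : ∀ (r : F) (g : Multiset A → A), star E (r • g) = r • star E g :=
    fun r g => (starL E hE.lin).map_smul _ _
  refine ⟨⟨?_, ?_⟩, ?_, ?_⟩
  · intro u v
    apply star_inj' hE.lin hE.one
    rw [hadd, star_inv hE.lin hE.one, star_inv hE.lin hE.one, star_inv hE.lin hE.one,
      (isLinear_delta (F := F)).map_add]
  · intro r u
    apply star_inj' hE.lin hE.one
    rw [hsmul, star_inv hE.lin hE.one, star_inv hE.lin hE.one,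
      (isLinear_delta (F := F)).map_smul]
  · intro v
    apply star_ml hE
    rw [star_inv hE.lin hE.one]
    exact ML_delta v
  · intro v
    have h := congrFun (star_inv hE.lin hE.one (delta v)) 0
    rw [star_zero, hE.one, delta_zero_apply] at h
    exact h

end Inv

section Theta

variable {F : Type u} [Field F] [CharZero F] {A : Type u} [AddCommGroup A] [Module F A]

/-- Data of hook operations. -/
structure Hook (F : Type u) [Field F] {A : Type u} [AddCommGroup A] [Module F A]
    (q : A → Multiset A → A) : Prop where
  lin : IsLinearMap F q
  ml : ∀ v, ML F (q v)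
  normal : star q rad = 0

variable {q : A → Multiset A → A}

/-- The coframe. -/
def theta (F : Type u) [Field F] {A : Type u} [AddCommGroup A] [Module F A]
    (q : A → Multiset A → A) (v : A) : Multiset A → A :=
  solve (fun u => deg (q u)) (fun n => ((n : F) + 1)⁻¹) (delta v)

theorem theta_ode (q : A → Multiset A → A) (v : A) :
    deg (theta F q v) + theta F q v =
      delta v + star (fun u => deg (q u)) (theta F q v) := by
  funext s
  have h := solve_spec (K := fun u => deg (q u)) (fun u => deg_zero_apply _)
    (fun n => ((n : F) + 1)⁻¹) (delta v) s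
  change theta F q v s = ((Multiset.card s : F) + 1)⁻¹ •
    (delta v s + star (fun u => deg (q u)) (theta F q v) s) at h
  have hne : ((Multiset.card s : F) + 1) ≠ 0 := by
    exact_mod_cast Nat.succ_ne_zero (Multiset.card s)
  simp only [Pi.add_apply, deg]
  have h2 : ((Multiset.card s : F) + 1) • theta F q v s =
      delta v s + star (fun u => deg (q u)) (theta F q v) s := by
    conv_lhs => rw [h]
    rw [smul_smul, mul_inv_cancel₀ hne, one_smul]
  rw [← h2, add_smul, one_smul, Nat.cast_smul_eq_nsmul]

theorem weighted_zero {g : Multiset A → A} {K : A → Multiset A → A} (hK : IsLinearMap F K)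
    (h0 : ∀ u, K u 0 = 0) (k : ℕ) (hk : k ≠ 0) (h : deg g + k • g = star K g) : g = 0 := by
  refine solve_unique hK h0 (fun n => ((n : F) + (k : F))⁻¹) ?_
  intro s
  have hne : ((Multiset.card s : F) + (k : F)) ≠ 0 := by
    exact_mod_cast (by omega : Multiset.card s + k ≠ 0)
  have h1 := congrFun h s
  simp only [Pi.add_apply, deg, Pi.smul_apply] at h1
  rw [← h1, ← add_smul, ← Nat.cast_smul_eq_nsmul F, smul_smul, Nat.cast_add,
    inv_mul_cancel₀ hne, one_smul]

theorem ML_deg {f : Multiset A → A} (hf : ML F f) : ML F (deg f) :=
  ⟨fun u v => by
    rw [dd_deg, dd_deg, dd_deg, hf.map_add, deg_add]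
    abel,
  fun r u => by rw [dd_deg, dd_deg, hf.map_smul, deg_smul, smul_add]⟩

theorem theta_frame (hq : Hook F q) : Frame F (theta F q) := by
  have hK : IsLinearMap F (fun u => deg (q u)) := isLinear_deg hq.lin
  have h0 : ∀ u, (fun u => deg (q u)) u 0 = 0 := fun u => deg_zero_apply _
  have hadd : ∀ g g' : Multiset A → A, star (fun u => deg (q u)) (g + g') =
      star (fun u => deg (q u)) g + star (fun u => deg (q u)) g' :=
    fun g g' => (starL _ hK).map_add _ _
  have hsub : ∀ g g' : Multiset A → A, star (fun u => deg (q u)) (g - g') =
      star (fun u => deg (q u)) g - star (fun u => deg (q u)) g' :=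
    fun g g' => (starL _ hK).map_sub _ _
  have hsmul : ∀ (r : F) (g : Multiset A → A), star (fun u => deg (q u)) (r • g) =
      r • star (fun u => deg (q u)) g :=
    fun r g => (starL _ hK).map_smul _ _
  have hode := theta_ode (F := F) q
  refine ⟨⟨?_, ?_⟩, ?_, ?_⟩
  · intro u v
    rw [← sub_eq_zero]
    apply weighted_zero hK h0 1 one_ne_zero
    rw [one_smul, deg_sub, deg_add, hsub, hadd]
    have h1 := hode (u + v)
    have h2 := hode u
    have h3 := hode v
    rw [(isLinear_delta (F := F)).map_add] at h1
    calc _ = (deg (theta F q (u + v)) + theta F q (u + v)) -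
          (deg (theta F q u) + theta F q u) - (deg (theta F q v) + theta F q v) := by abel
      _ = _ := by
        rw [h1, h2, h3]
        abel
  · intro r u
    rw [← sub_eq_zero]
    apply weighted_zero hK h0 1 one_ne_zero
    rw [one_smul, deg_sub, deg_smul, hsub, hsmul]
    have h1 := hode (r • u)
    have h2 := hode u
    rw [(isLinear_delta (F := F)).map_smul] at h1
    calc _ = (deg (theta F q (r • u)) + theta F q (r • u)) -
          r • (deg (theta F q u) + theta F q u) := by
            rw [smul_add]
            abel
      _ = _ := by
        rw [h1, h2, smul_add]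
        abel
  · intro v
    have hdd : ∀ a, deg (dd a (theta F q v)) + 2 • dd a (theta F q v) =
        star (fun u => dd a (deg (q u))) (theta F q v) +
          star (fun u => deg (q u)) (dd a (theta F q v)) := by
      intro a
      have h1 := congrArg (dd a) (hode v)
      rw [dd_add, dd_add, dd_deg, dd_delta, dd_star, zero_add] at h1
      rw [← h1, two_smul]
      abel
    constructor
    · intro a b
      rw [← sub_eq_zero]
      apply weighted_zero hK h0 2 two_ne_zero
      rw [deg_sub, deg_add, hsub, hadd, smul_sub, smul_add]
      have e1 : (fun w => dd (a + b) (deg (q w))) =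
          fun w => dd a (deg (q w)) + dd b (deg (q w)) := by
        funext w
        exact (ML_deg (hq.ml w)).map_add a b
      have h1 := hdd (a + b)
      rw [e1, star_add_left] at h1
      calc _ = (deg (dd (a + b) (theta F q v)) + 2 • dd (a + b) (theta F q v)) -
            (deg (dd a (theta F q v)) + 2 • dd a (theta F q v)) -
            (deg (dd b (theta F q v)) + 2 • dd b (theta F q v)) := by abel
        _ = _ := by
          rw [h1, hdd a, hdd b]
          abel
    · intro r a
      rw [← sub_eq_zero]
      apply weighted_zero hK h0 2 two_ne_zero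
      rw [deg_sub, deg_smul, hsub, hsmul, smul_sub]
      have e1 : (fun w => dd (r • a) (deg (q w))) = fun w => r • dd a (deg (q w)) := by
        funext w
        exact (ML_deg (hq.ml w)).map_smul r a
      have h1 := hdd (r • a)
      rw [e1, star_smul_left] at h1
      calc _ = (deg (dd (r • a) (theta F q v)) + 2 • dd (r • a) (theta F q v)) -
            r • (deg (dd a (theta F q v)) + 2 • dd a (theta F q v)) := by
              rw [smul_add, smul_comm r 2]
              abel
        _ = _ := by
          rw [h1, hdd a, smul_add]
          abel
  · intro v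
    have h1 := congrFun (hode v) 0
    rw [Pi.add_apply, Pi.add_apply, deg_zero_apply, zero_add, delta_zero_apply, star_zero,
      deg_zero_apply, add_zero] at h1
    exact h1

/-- The frame. -/
def frm (F : Type u) [Field F] {A : Type u} [AddCommGroup A] [Module F A]
    (q : A → Multiset A → A) (v : A) : Multiset A → A := inv F (theta F q) (delta v)

variable (hq : Hook F q)

include hq

theorem frm_frame : Frame F (frm F q) := inv_frame (theta_frame hq)

theorem theta_frm (v : A) : star (theta F q) (frm F q v) = delta v :=
  star_inv (theta_frame hq).lin (theta_frame hq).one _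

theorem theta_star_frm (g : Multiset A → A) :
    star (theta F q) (star (frm F q) g) = g := by
  rw [← star_assoc (theta_frame hq).lin]
  simp only [theta_frm hq]
  exact delta_star g

theorem frm_theta (v : A) : star (frm F q) (theta F q v) = delta v := by
  apply star_inj' (theta_frame hq).lin (theta_frame hq).one
  rw [theta_star_frm hq, star_delta (theta_frame hq).lin]

theorem frm_star_theta (g : Multiset A → A) :
    star (frm F q) (star (theta F q) g) = g := by
  rw [← star_assoc (frm_frame hq).lin]
  simp only [frm_theta hq]
  exact delta_star g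

/-- The radial equation. -/
theorem frm_ode (v : A) : deg (frm F q v) - frm F q v + star (frm F q) (frm F q v) +
    star (frm F q) (deg (q v)) = 0 := by
  have hth := theta_frame hq
  have hK : IsLinearMap F (fun u => deg (q u)) := isLinear_deg hq.lin
  apply star_inj hth.lin hth.one
  have hadd : ∀ g g' : Multiset A → A, star (theta F q) (g + g') =
      star (theta F q) g + star (theta F q) g' := fun g g' => (starL _ hth.lin).map_add _ _
  have hsub : ∀ g g' : Multiset A → A, star (theta F q) (g - g') =
      star (theta F q) g - star (theta F q) g' := fun g g' => (starL _ hth.lin).map_sub _ _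
  rw [hadd, hadd, hsub, theta_star_frm hq, theta_star_frm hq, theta_frm hq]
  have h1 := deg_star (theta F q) hth.lin (frm F q v)
  rw [theta_frm hq, deg_delta] at h1
  have e1 : (fun u => deg (theta F q u)) = fun u => (delta u +
      star (fun u => deg (q u)) (theta F q u)) - theta F q u := by
    funext u
    rw [← theta_ode]
    abel
  rw [e1, star_sub_left, star_add_left, delta_star, star_assoc hK, theta_frm hq,
    star_delta hK] at h1
  refine Eq.trans ?_ h1.symm
  abel

theorem theta_rad : star (theta F q) rad = rad := by
  have hth := theta_frame hq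
  have hK : IsLinearMap F (fun u => deg (q u)) := isLinear_deg hq.lin
  have hKr : star (fun u => deg (q u)) rad = 0 := by
    have h1 := deg_star q hq.lin rad
    rw [hq.normal, deg_rad, hq.normal, add_zero] at h1
    rw [← h1]
    funext s
    simp [deg]
  have h1 := deg_star (theta F q) hth.lin rad
  have e1 : (fun u => deg (theta F q u)) = fun u => (delta u +
      star (fun u => deg (q u)) (theta F q u)) - theta F q u := by
    funext u
    rw [← theta_ode]
    abel
  rw [e1, star_sub_left, star_add_left, delta_star, star_assoc hK, deg_rad,
    sub_add_cancel] at h1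
  rw [← sub_eq_zero]
  refine solve_unique hK (fun u => deg_zero_apply _) (fun n => ((n : F))⁻¹) ?_
  intro s
  have h2 : star (fun u => deg (q u)) (star (theta F q) rad - rad) =
      deg (star (theta F q) rad - rad) := by
    have : star (fun u => deg (q u)) (star (theta F q) rad - rad) =
        star (fun u => deg (q u)) (star (theta F q) rad) - star (fun u => deg (q u)) rad :=
      (starL _ hK).map_sub _ _
    rw [this, hKr, deg_sub, h1, deg_rad]
    abel
  rw [h2]
  by_cases hs : Multiset.card s = 0
  · rw [Multiset.card_eq_zero] at hs
    subst hs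
    rw [Pi.sub_apply, star_rad_zero hth.lin, rad_zero_apply, sub_zero, deg_zero_apply,
      smul_zero]
  · have hne : (Multiset.card s : F) ≠ 0 := by exact_mod_cast hs
    simp only [deg]
    rw [← Nat.cast_smul_eq_nsmul F, smul_smul, inv_mul_cancel₀ hne, one_smul]

theorem frm_rad : star (frm F q) rad = rad := by
  conv_lhs => rw [← theta_rad hq]
  exact frm_star_theta hq rad

end Theta

section Torsion

variable {F : Type u} [Field F] [CharZero F] {A : Type u} [AddCommGroup A] [Module F A]

/-- The torsion. -/
def tor (F : Type u) [Field F] {A : Type u} [AddCommGroup A] [Module F A]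
    (E : A → Multiset A → A) (y z : A) : Multiset A → A :=
  inv F E (nab E z (E y) - nab E y (E z))

variable {E : A → Multiset A → A} (hE : Frame F E)

include hE

theorem star_tor (y z : A) : star E (tor F E y z) = nab E z (E y) - nab E y (E z) :=
  star_inv hE.lin hE.one _

theorem tor_skew (y z : A) : tor F E y z + tor F E z y = 0 := by
  apply star_inj hE.lin hE.one
  have hadd : star E (tor F E y z + tor F E z y) = star E (tor F E y z) + star E (tor F E z y) :=
    (starL _ hE.lin).map_add _ _
  rw [hadd, star_tor hE, star_tor hE]
  abel

theorem tor_ml (y z : A) : ML F (tor F E y z) := by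
  apply star_ml hE
  rw [star_tor hE]
  exact (ML.nab (hE.ml z) (hE.ml y)).sub (ML.nab (hE.ml y) (hE.ml z))

theorem tor_lin_left (z : A) : IsLinearMap F (fun y => tor F E y z) := by
  have hadd : ∀ g g' : Multiset A → A, star E (g + g') = star E g + star E g' :=
    fun g g' => (starL E hE.lin).map_add _ _
  have hsmul : ∀ (r : F) (g : Multiset A → A), star E (r • g) = r • star E g :=
    fun r g => (starL E hE.lin).map_smul _ _
  constructor
  · intro y y'
    apply star_inj' hE.lin hE.one
    rw [hadd, star_tor hE, star_tor hE, star_tor hE, hE.lin.map_add, nab_add,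
      (nab_linear hE.lin (hE.ml z)).map_add]
    abel
  · intro r y
    apply star_inj' hE.lin hE.one
    rw [hsmul, star_tor hE, star_tor hE, hE.lin.map_smul, nab_smul,
      (nab_linear hE.lin (hE.ml z)).map_smul, smul_sub]

theorem tor_lin_right (y : A) : IsLinearMap F (fun z => tor F E y z) := by
  have h : (fun z => tor F E y z) = fun z => -tor F E z y := by
    funext z
    exact eq_neg_of_add_eq_zero_left (tor_skew hE y z)
  rw [h]
  have h1 := tor_lin_left hE y
  exact ⟨fun u v => by rw [h1.map_add, neg_add], fun r u => by rw [h1.map_smul, smul_neg]⟩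

/-- The curvature-free Ricci identity. -/
theorem ricci {B : Type u} [AddCommGroup B] [Module F B] {f : Multiset A → B} (hf : ML F f)
    (y z : A) : nab E y (nab E z f) - nab E z (nab E y f) +
      star (fun u => nab E u f) (tor F E y z) = 0 := by
  rw [nab_comm E hf]
  have h1 : star (fun u => nab E u f) (tor F E y z) =
      star (fun u => dd u f) (nab E z (E y) - nab E y (E z)) := by
    rw [← star_tor hE, ← star_assoc hf]
    rfl
  have h2 : star (fun u => dd u f) (nab E z (E y) - nab E y (E z)) =
      -star (fun u => dd u f) (nab E y (E z) - nab E z (E y)) := by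
    rw [← neg_sub]
    exact (starL _ hf).map_neg _
  rw [h1, h2]
  abel

/-- The function level Bianchi identity. -/
theorem bianchi (x y z : A) :
    (nab E x (tor F E y z) + star (fun u => tor F E u x) (tor F E y z)) +
    (nab E y (tor F E z x) + star (fun u => tor F E u y) (tor F E z x)) +
    (nab E z (tor F E x y) + star (fun u => tor F E u z) (tor F E x y)) = 0 := by
  have hadd : ∀ g g' : Multiset A → A, star E (g + g') = star E g + star E g' :=
    fun g g' => (starL E hE.lin).map_add _ _
  have key : ∀ x y z : A, star E (nab E x (tor F E y z) +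
      star (fun u => tor F E u x) (tor F E y z)) =
      nab E x (nab E z (E y)) - nab E x (nab E y (E z)) - nab E z (nab E y (E x)) +
        nab E y (nab E z (E x)) := by
    intro x y z
    have h1 := nab_star E x hE.lin (tor F E y z)
    rw [star_tor hE, nab_sub] at h1
    have h2 : star E (star (fun u => tor F E u x) (tor F E y z)) =
        star (fun u => nab E x (E u)) (tor F E y z) -
          star (fun u => nab E u (E x)) (tor F E y z) := by
      rw [← star_assoc hE.lin]
      simp only [star_tor hE]
      rw [star_sub_left]
    have h3 := ricci hE (hE.ml x) y z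
    rw [hadd, h2]
    have h4 : star E (nab E x (tor F E y z)) = nab E x (nab E z (E y)) -
        nab E x (nab E y (E z)) - star (fun u => nab E x (E u)) (tor F E y z) := by
      rw [h1]
      abel
    have h5 : star (fun u => nab E u (E x)) (tor F E y z) =
        nab E z (nab E y (E x)) - nab E y (nab E z (E x)) := by
      rw [← sub_eq_zero, ← h3]
      abel
    rw [h4, h5]
    abel
  apply star_inj hE.lin hE.one
  rw [hadd, hadd, key, key, key]
  abel

end Torsion

section Radial

variable {F : Type u} [Field F] [CharZero F] {A : Type u} [AddCommGroup A] [Module F A]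
  {q : A → Multiset A → A} (hq : Hook F q)

include hq

theorem tor_rad (v : A) :
    star (fun u => tor F (frm F q) u v) rad = deg (q v) := by
  have hE := frm_frame hq
  apply star_inj' hE.lin hE.one
  rw [← star_assoc hE.lin]
  simp only [star_tor hE]
  rw [star_sub_left]
  have h1 := nab_star (frm F q) v hE.lin rad
  rw [frm_rad hq] at h1
  have h2 : nab (frm F q) v (rad (A := A)) = frm F q v := by
    unfold nab
    simp only [dd_rad]
    exact delta_star _
  rw [h2] at h1
  have h3 : star (fun u => nab (frm F q) u (frm F q v)) rad = deg (frm F q v) := by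
    have : (fun u => nab (frm F q) u (frm F q v)) =
        fun u => star (fun w => dd w (frm F q v)) (frm F q u) := rfl
    rw [this, star_assoc (hE.ml v), frm_rad hq, euler (hE.ml v)]
  rw [h3]
  have h4 := frm_ode hq v
  have h5 : star (fun u => nab (frm F q) v (frm F q u)) rad =
      frm F q v - star (frm F q) (frm F q v) := by
    rw [eq_sub_iff_add_eq]
    exact h1.symm
  rw [h5, ← sub_eq_zero, ← neg_eq_zero, ← h4]
  abel

end Radial

end Pool.Agent.H551R3.Sab
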