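import Pool.Agent.H551R3.SabUniq

set_option autoImplicit false
set_option linter.unusedSectionVars false

namespace Pool.Agent.H551R3.Sab

universe u

section OpDataSec

variable {F : Type u} [Field F] {d : ℕ} {A B C : Type u} [AddCommGroup A] [Module F A]
  [AddCommGroup B] [Module F B] [AddCommGroup C] [Module F C]

/-- Free operations with values in `B`. -/
structure OpData (F : Type u) [Field F] (d : ℕ) {A B : Type u} [AddCommGroup A] [Module F A]
    [AddCommGroup B] [Module F B] (e : A → Multiset A → B)
    (f : Multiset A → Multiset A → B) : Prop where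
  lin : IsLinearMap F e
  ml : ∀ v, ML F (e v)
  normal : ∀ s, PS e s = 0
  zero : ∀ v, e v 0 = 0
  range : ∀ v s, d ≤ Multiset.card s → e v s = 0
  mlL : ∀ t, ML F (fun s => f s t)
  mlR : ∀ s, ML F (f s)
  prange : ∀ s t, Multiset.card s < 1 ∨ Multiset.card t < 2 ∨
    d < Multiset.card s + Multiset.card t → f s t = 0

theorem ML.comp {f : Multiset A → B} (hf : ML F f) (φ : C →ₗ[F] A) :
    ML F (fun s => f (s.map φ)) := by
  constructor
  · intro a b
    funext s
    rw [Pi.add_apply, dd_apply, dd_apply, dd_apply, Multiset.map_cons, Multiset.map_cons,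
      Multiset.map_cons, map_add]
    exact congrFun (hf.map_add (φ a) (φ b)) (s.map φ)
  · intro r a
    funext s
    rw [Pi.smul_apply, dd_apply, dd_apply, Multiset.map_cons, Multiset.map_cons, map_smul]
    exact congrFun (hf.map_smul r (φ a)) (s.map φ)

theorem ML.lcomp {f : Multiset A → B} (hf : ML F f) (φ : B →ₗ[F] C) :
    ML F (fun s => φ (f s)) := by
  constructor
  · intro a b
    funext s
    have := congrArg φ (congrFun (hf.map_add a b) s)
    rw [Pi.add_apply, map_add] at this
    exact this
  · intro r a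
    funext s
    have := congrArg φ (congrFun (hf.map_smul r a) s)
    rw [Pi.smul_apply, map_smul] at this
    exact this

theorem OpData.comp {e : A → Multiset A → B} {f : Multiset A → Multiset A → B}
    (h : OpData F d e f) (φ : C →ₗ[F] A) :
    OpData F d (fun v s => e (φ v) (s.map φ)) (fun s t => f (s.map φ) (t.map φ)) where
  lin := ⟨fun u v => by
      funext s
      rw [map_add, h.lin.map_add]
      rfl, fun r u => by
      funext s
      rw [map_smul, h.lin.map_smul]
      rfl⟩
  ml := fun v => (h.ml (φ v)).comp φ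
  normal := fun s => by
    rw [← PS_map φ e s]
    exact h.normal _
  zero := fun v => by rw [Multiset.map_zero, h.zero]
  range := fun v s hs => h.range _ _ (by rwa [Multiset.card_map])
  mlL := fun t => (h.mlL (t.map φ)).comp φ
  mlR := fun s => (h.mlR (s.map φ)).comp φ
  prange := fun s t hs => h.prange _ _ (by rwa [Multiset.card_map, Multiset.card_map])

theorem OpData.lcomp {e : A → Multiset A → B} {f : Multiset A → Multiset A → B}
    (h : OpData F d e f) (φ : B →ₗ[F] C) :
    OpData F d (fun v s => φ (e v s)) (fun s t => φ (f s t)) where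
  lin := ⟨fun u v => by
      funext s
      rw [h.lin.map_add, Pi.add_apply, map_add]
      rfl, fun r u => by
      funext s
      rw [h.lin.map_smul, Pi.smul_apply, map_smul]
      rfl⟩
  ml := fun v => (h.ml v).lcomp φ
  normal := fun s => by
    have := PS_hom φ.toAddMonoidHom e s
    rw [h.normal, map_zero] at this
    exact this.symm
  zero := fun v => by rw [h.zero, map_zero]
  range := fun v s hs => by rw [h.range v s hs, map_zero]
  mlL := fun t => (h.mlL t).lcomp φ
  mlR := fun s => (h.mlR s).lcomp φ
  prange := fun s t hs => by rw [h.prange s t hs, map_zero]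

end OpDataSec

section FFSec

variable (F : Type u) [Field F] (d : ℕ) (A : Type u) [AddCommGroup A] [Module F A]

/-- Symbols. -/
abbrev Smb (A : Type u) : Type u := (A × Multiset A) ⊕ (Multiset A × Multiset A)

variable {A} in
/-- Hook symbols. -/
noncomputable def es (v : A) (s : Multiset A) : Smb A →₀ F := Finsupp.single (Sum.inl (v, s)) 1

variable {A} in
/-- Other symbols. -/
noncomputable def ps (s t : Multiset A) : Smb A →₀ F := Finsupp.single (Sum.inr (s, t)) 1

/-- Relations between the symbols. -/
inductive Rel : (Smb A →₀ F) → Prop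
  | e_add (u v : A) (s : Multiset A) : Rel (es F (u + v) s - es F u s - es F v s)
  | e_smul (r : F) (v : A) (s : Multiset A) : Rel (es F (r • v) s - r • es F v s)
  | m_add (v a b : A) (s : Multiset A) :
      Rel (es F v ((a + b) ::ₘ s) - es F v (a ::ₘ s) - es F v (b ::ₘ s))
  | m_smul (v a : A) (r : F) (s : Multiset A) :
      Rel (es F v ((r • a) ::ₘ s) - r • es F v (a ::ₘ s))
  | e_norm (s : Multiset A) : Rel (PS (es F) s)
  | e_zero (v : A) : Rel (es F v 0)
  | e_range (v : A) (s : Multiset A) (h : d ≤ Multiset.card s) : Rel (es F v s)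
  | l_add (a b : A) (s t : Multiset A) :
      Rel (ps F ((a + b) ::ₘ s) t - ps F (a ::ₘ s) t - ps F (b ::ₘ s) t)
  | l_smul (a : A) (r : F) (s t : Multiset A) :
      Rel (ps F ((r • a) ::ₘ s) t - r • ps F (a ::ₘ s) t)
  | r_add (a b : A) (s t : Multiset A) :
      Rel (ps F s ((a + b) ::ₘ t) - ps F s (a ::ₘ t) - ps F s (b ::ₘ t))
  | r_smul (a : A) (r : F) (s t : Multiset A) :
      Rel (ps F s ((r • a) ::ₘ t) - r • ps F s (a ::ₘ t))
  | p_range (s t : Multiset A) (h : Multiset.card s < 1 ∨ Multiset.card t < 2 ∨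
      d < Multiset.card s + Multiset.card t) : Rel (ps F s t)

/-- The span of the relations. -/
noncomputable def RelS : Submodule F (Smb A →₀ F) := Submodule.span F {x | Rel F d A x}

/-- The functor of free operations. -/
def FF : Type u := (Smb A →₀ F) ⧸ RelS F d A

noncomputable instance : AddCommGroup (FF F d A) :=
  inferInstanceAs (AddCommGroup ((Smb A →₀ F) ⧸ RelS F d A))
noncomputable instance : Module F (FF F d A) :=
  inferInstanceAs (Module F ((Smb A →₀ F) ⧸ RelS F d A))

/-- The projection. -/
noncomputable def FF.mk : (Smb A →₀ F) →ₗ[F] FF F d A := (RelS F d A).mkQ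

variable {A}

/-- The universal hook operation. -/
noncomputable def E (v : A) (s : Multiset A) : FF F d A := FF.mk F d A (es F v s)

/-- The universal second operation. -/
noncomputable def Ph (s t : Multiset A) : FF F d A := FF.mk F d A (ps F s t)

variable {F d}

theorem mk_rel {x : Smb A →₀ F} (h : Rel F d A x) : FF.mk F d A x = 0 :=
  (Submodule.Quotient.mk_eq_zero (RelS F d A)).mpr (Submodule.subset_span h)

variable (F d A) in
theorem opData_FF : OpData F d (E F d (A := A)) (Ph F d) where
  lin := by
    constructor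
    · intro u v
      funext s
      have h := mk_rel (Rel.e_add (F := F) (d := d) u v s)
      rw [map_sub, map_sub, sub_sub, sub_eq_zero] at h
      exact h
    · intro r u
      funext s
      have h := mk_rel (Rel.e_smul (F := F) (d := d) r u s)
      rw [map_sub, map_smul, sub_eq_zero] at h
      exact h
  ml := by
    intro v
    constructor
    · intro a b
      funext s
      have h := mk_rel (Rel.m_add (F := F) (d := d) v a b s)
      rw [map_sub, map_sub, sub_sub, sub_eq_zero] at h
      exact h
    · intro r a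
      funext s
      have h := mk_rel (Rel.m_smul (F := F) (d := d) v a r s)
      rw [map_sub, map_smul, sub_eq_zero] at h
      exact h
  normal := by
    intro s
    have h := mk_rel (Rel.e_norm (F := F) (d := d) s)
    have h1 := PS_hom (FF.mk F d A).toAddMonoidHom (es F) s
    exact h1.symm.trans h
  zero := fun v => mk_rel (Rel.e_zero v)
  range := fun v s hs => mk_rel (Rel.e_range v s hs)
  mlL := by
    intro t
    constructor
    · intro a b
      funext s
      have h := mk_rel (Rel.l_add (F := F) (d := d) a b s t)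
      rw [map_sub, map_sub, sub_sub, sub_eq_zero] at h
      exact h
    · intro r a
      funext s
      have h := mk_rel (Rel.l_smul (F := F) (d := d) a r s t)
      rw [map_sub, map_smul, sub_eq_zero] at h
      exact h
  mlR := by
    intro s
    constructor
    · intro a b
      funext t
      have h := mk_rel (Rel.r_add (F := F) (d := d) a b s t)
      rw [map_sub, map_sub, sub_sub, sub_eq_zero] at h
      exact h
    · intro r a
      funext t
      have h := mk_rel (Rel.r_smul (F := F) (d := d) a r s t)
      rw [map_sub, map_smul, sub_eq_zero] at h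
      exact h
  prange := fun s t h => mk_rel (Rel.p_range s t h)

variable {B C : Type u} [AddCommGroup B] [Module F B] [AddCommGroup C] [Module F C]

/-- The map on symbols. -/
noncomputable def preLift (e : A → Multiset A → B) (f : Multiset A → Multiset A → B) :
    (Smb A →₀ F) →ₗ[F] B :=
  Finsupp.linearCombination F (Sum.elim (fun p => e p.1 p.2) (fun p => f p.1 p.2))

theorem preLift_es (e : A → Multiset A → B) (f : Multiset A → Multiset A → B) (v : A)
    (s : Multiset A) : preLift (F := F) e f (es F v s) = e v s := by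
  simp [preLift, es]

theorem preLift_ps (e : A → Multiset A → B) (f : Multiset A → Multiset A → B)
    (s t : Multiset A) : preLift (F := F) e f (ps F s t) = f s t := by
  simp [preLift, ps]

/-- The universal property. -/
noncomputable def FF.lift {e : A → Multiset A → B} {f : Multiset A → Multiset A → B}
    (h : OpData F d e f) : FF F d A →ₗ[F] B :=
  (RelS F d A).liftQ (preLift e f) (by
    rw [RelS, Submodule.span_le]
    intro x hx
    change preLift e f x = 0
    cases hx with
    | e_add u v s =>
      rw [map_sub, map_sub, preLift_es, preLift_es, preLift_es, h.lin.map_add, Pi.add_apply]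
      abel
    | e_smul r v s =>
      rw [map_sub, map_smul, preLift_es, preLift_es, h.lin.map_smul, Pi.smul_apply, sub_self]
    | m_add v a b s =>
      rw [map_sub, map_sub, preLift_es, preLift_es, preLift_es]
      have := congrFun ((h.ml v).map_add a b) s
      rw [dd_apply] at this
      rw [this, Pi.add_apply, dd_apply, dd_apply]
      abel
    | m_smul v a r s =>
      rw [map_sub, map_smul, preLift_es, preLift_es]
      have := congrFun ((h.ml v).map_smul r a) s
      rw [dd_apply] at this
      rw [this, Pi.smul_apply, dd_apply, sub_self]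
    | e_norm s =>
      have h1 := PS_hom (preLift (F := F) e f).toAddMonoidHom (es F) s
      refine h1.trans ?_
      rw [← h.normal s]
      refine PS_congr s fun x t _ => ?_
      exact preLift_es e f x t
    | e_zero v => rw [preLift_es, h.zero]
    | e_range v s hs => rw [preLift_es, h.range v s hs]
    | l_add a b s t =>
      rw [map_sub, map_sub, preLift_ps, preLift_ps, preLift_ps]
      have := congrFun ((h.mlL t).map_add a b) s
      simp only [Pi.add_apply, dd_apply] at this
      rw [this]
      abel
    | l_smul a r s t =>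
      rw [map_sub, map_smul, preLift_ps, preLift_ps]
      have := congrFun ((h.mlL t).map_smul r a) s
      simp only [Pi.smul_apply, dd_apply] at this
      rw [this, sub_self]
    | r_add a b s t =>
      rw [map_sub, map_sub, preLift_ps, preLift_ps, preLift_ps]
      have := congrFun ((h.mlR s).map_add a b) t
      simp only [Pi.add_apply, dd_apply] at this
      rw [this]
      abel
    | r_smul a r s t =>
      rw [map_sub, map_smul, preLift_ps, preLift_ps]
      have := congrFun ((h.mlR s).map_smul r a) t
      simp only [Pi.smul_apply, dd_apply] at this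
      rw [this, sub_self]
    | p_range s t hst => rw [preLift_ps, h.prange s t hst])

theorem lift_E {e : A → Multiset A → B} {f : Multiset A → Multiset A → B}
    (h : OpData F d e f) (v : A) (s : Multiset A) : FF.lift h (E F d v s) = e v s :=
  preLift_es e f v s

theorem lift_Ph {e : A → Multiset A → B} {f : Multiset A → Multiset A → B}
    (h : OpData F d e f) (s t : Multiset A) : FF.lift h (Ph F d s t) = f s t :=
  preLift_ps e f s t

/-- Linear maps are determined by their values on symbols. -/
theorem FF.hom_ext {g g' : FF F d A →ₗ[F] B} (h1 : ∀ v s, g (E F d v s) = g' (E F d v s))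
    (h2 : ∀ s t, g (Ph F d s t) = g' (Ph F d s t)) : g = g' := by
  apply Submodule.linearMap_qext
  apply Finsupp.lhom_ext'
  intro x
  apply LinearMap.ext_ring
  rcases x with ⟨v, s⟩ | ⟨s, t⟩
  · exact h1 v s
  · exact h2 s t

/-- Functoriality. -/
noncomputable def FF.map (φ : A →ₗ[F] C) : FF F d A →ₗ[F] FF F d C :=
  FF.lift ((opData_FF F d C).comp φ)

theorem map_E (φ : A →ₗ[F] C) (v : A) (s : Multiset A) :
    FF.map φ (E F d v s) = E F d (φ v) (s.map φ) := lift_E _ v s

theorem map_Ph (φ : A →ₗ[F] C) (s t : Multiset A) :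
    FF.map φ (Ph F d s t) = Ph F d (s.map φ) (t.map φ) := lift_Ph _ s t

theorem map_id' : FF.map (d := d) (LinearMap.id : A →ₗ[F] A) = LinearMap.id := by
  apply FF.hom_ext
  · intro v s
    rw [map_E]
    simp
  · intro s t
    rw [map_Ph]
    simp

theorem map_comp' (φ : A →ₗ[F] B) (ψ : B →ₗ[F] C) :
    FF.map (d := d) (ψ.comp φ) = (FF.map ψ).comp (FF.map φ) := by
  apply FF.hom_ext
  · intro v s
    rw [map_E, LinearMap.comp_apply (FF.map ψ), map_E, map_E, Multiset.map_map]
    rfl
  · intro s t
    rw [map_Ph, LinearMap.comp_apply (FF.map ψ), map_Ph, map_Ph, Multiset.map_map,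
      Multiset.map_map]
    rfl

theorem map_comp_apply' (φ : A →ₗ[F] B) (ψ : B →ₗ[F] C) (t : FF F d A) :
    FF.map ψ (FF.map φ t) = FF.map (ψ.comp φ) t := by
  rw [map_comp']
  rfl

variable (d) in
/-- The span of the symbols with entries in `S`. -/
noncomputable def FS (S : Submodule F A) : Submodule F (FF F d A) :=
  Submodule.span F ({x | ∃ v ∈ S, ∃ s : Multiset A, (∀ y ∈ s, y ∈ S) ∧ x = E F d v s} ∪
    {x | ∃ s t : Multiset A, (∀ y ∈ s, y ∈ S) ∧ (∀ y ∈ t, y ∈ S) ∧ x = Ph F d s t})

theorem FS_E {S : Submodule F A} {v : A} (hv : v ∈ S) {s : Multiset A} (hs : ∀ y ∈ s, y ∈ S) :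
    E F d v s ∈ FS d S := Submodule.subset_span (Or.inl ⟨v, hv, s, hs, rfl⟩)

theorem FS_Ph {S : Submodule F A} {s t : Multiset A} (hs : ∀ y ∈ s, y ∈ S)
    (ht : ∀ y ∈ t, y ∈ S) : Ph F d s t ∈ FS d S :=
  Submodule.subset_span (Or.inr ⟨s, t, hs, ht, rfl⟩)

theorem FS_le {S : Submodule F A} {N : Submodule F (FF F d A)}
    (h1 : ∀ v ∈ S, ∀ s : Multiset A, (∀ y ∈ s, y ∈ S) → E F d v s ∈ N)
    (h2 : ∀ s t : Multiset A, (∀ y ∈ s, y ∈ S) → (∀ y ∈ t, y ∈ S) → Ph F d s t ∈ N) :
    FS d S ≤ N := by
  rw [FS, Submodule.span_le]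
  rintro x (⟨v, hv, s, hs, rfl⟩ | ⟨s, t, hs, ht, rfl⟩)
  · exact h1 v hv s hs
  · exact h2 s t hs ht

theorem FS_mono {S S' : Submodule F A} (h : S ≤ S') : FS d S ≤ FS d S' :=
  FS_le (fun _ hv _ hs => FS_E (h hv) fun y hy => h (hs y hy))
    (fun _ _ hs ht => FS_Ph (fun y hy => h (hs y hy)) fun y hy => h (ht y hy))

theorem FS_top : FS d (⊤ : Submodule F A) = ⊤ := by
  have h : (FS d (⊤ : Submodule F A)).mkQ = 0 := by
    apply FF.hom_ext
    · intro v s
      rw [LinearMap.zero_apply, Submodule.mkQ_apply, Submodule.Quotient.mk_eq_zero]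
      exact FS_E Submodule.mem_top fun _ _ => Submodule.mem_top
    · intro s t
      rw [LinearMap.zero_apply, Submodule.mkQ_apply, Submodule.Quotient.mk_eq_zero]
      exact FS_Ph (fun _ _ => Submodule.mem_top) fun _ _ => Submodule.mem_top
  rw [eq_top_iff]
  intro x _
  rw [← Submodule.Quotient.mk_eq_zero (FS d (⊤ : Submodule F A)), ← Submodule.mkQ_apply, h]
  rfl

theorem map_mem_FS {S : Submodule F A} {S' : Submodule F C} (φ : A →ₗ[F] C)
    (h : ∀ x ∈ S, φ x ∈ S') {t : FF F d A} (ht : t ∈ FS d S) : FF.map φ t ∈ FS d S' := by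
  have : FS d S ≤ (FS d S').comap (FF.map φ) := by
    refine FS_le ?_ ?_
    · intro v hv s hs
      rw [Submodule.mem_comap, map_E]
      refine FS_E (h v hv) ?_
      intro y hy
      obtain ⟨x, hx, rfl⟩ := Multiset.mem_map.mp hy
      exact h x (hs x hx)
    · intro s t hs ht
      rw [Submodule.mem_comap, map_Ph]
      refine FS_Ph ?_ ?_
      · intro y hy
        obtain ⟨x, hx, rfl⟩ := Multiset.mem_map.mp hy
        exact h x (hs x hx)
      · intro y hy
        obtain ⟨x, hx, rfl⟩ := Multiset.mem_map.mp hy
        exact h x (ht x hx)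
  exact this ht

theorem FS_congr {S : Submodule F A} {φ ψ : A →ₗ[F] C} (h : ∀ x ∈ S, φ x = ψ x)
    {t : FF F d A} (ht : t ∈ FS d S) : FF.map φ t = FF.map ψ t := by
  have : FS d S ≤ LinearMap.ker (FF.map (d := d) φ - FF.map ψ) := by
    refine FS_le ?_ ?_
    · intro v hv s hs
      rw [LinearMap.mem_ker, LinearMap.sub_apply, map_E, map_E, h v hv,
        Multiset.map_congr rfl fun x hx => h x (hs x hx), sub_self]
    · intro s t hs ht
      rw [LinearMap.mem_ker, LinearMap.sub_apply, map_Ph, map_Ph,
        Multiset.map_congr rfl fun x hx => h x (hs x hx),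
        Multiset.map_congr (s := t) rfl fun x hx => h x (ht x hx), sub_self]
  have h1 := this ht
  rw [LinearMap.mem_ker, LinearMap.sub_apply, sub_eq_zero] at h1
  exact h1

/-- Projections. -/
theorem proj_exists {W M : Submodule F A} (h : Disjoint W M) :
    ∃ p : A →ₗ[F] A, (∀ w ∈ W, p w = w) ∧ (∀ m ∈ M, p m = 0) ∧ ∀ x, p x ∈ W := by
  obtain ⟨c, hc1, hc2⟩ := IsModularLattice.exists_disjoint_and_sup_eq (le_top : W ⊔ M ≤ ⊤)
  have hcompl : IsCompl W (M ⊔ c) := by
    refine ⟨h.disjoint_sup_right_of_disjoint_sup_left hc1, ?_⟩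
    rw [codisjoint_iff, ← sup_assoc, hc2]
  refine ⟨W.projection (M ⊔ c) hcompl, ?_, ?_, ?_⟩
  · intro w hw
    exact Submodule.projection_apply_left hcompl ⟨w, hw⟩
  · intro m hm
    rw [Submodule.projection_apply_eq_zero_iff]
    exact (le_sup_left : M ≤ M ⊔ c) hm
  · intro x
    exact Submodule.projection_apply_mem hcompl x

theorem FS_inf {S S' : Submodule F A} {t : FF F d A} (h1 : t ∈ FS d S) (h2 : t ∈ FS d S') :
    t ∈ FS d (S ⊓ S') := by
  obtain ⟨T, hT1, hT2⟩ := IsModularLattice.exists_disjoint_and_sup_eq (inf_le_right : S ⊓ S' ≤ S')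
  have hdis : Disjoint S T := by
    rw [Submodule.disjoint_def]
    intro x hx hxT
    have hxS' : x ∈ S' := by
      rw [← hT2]
      exact (le_sup_right : T ≤ S ⊓ S' ⊔ T) hxT
    exact (Submodule.disjoint_def.mp hT1) x ⟨hx, hxS'⟩ hxT
  obtain ⟨p, hp1, hp2, _⟩ := proj_exists hdis
  have h3 : FF.map p t = t := by
    rw [FS_congr (ψ := LinearMap.id) (fun x hx => hp1 x hx) h1, map_id']
    rfl
  rw [← h3]
  refine map_mem_FS p ?_ h2
  intro x hx
  rw [← hT2] at hx
  obtain ⟨a, ha, b, hb, rfl⟩ := Submodule.mem_sup.mp hx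
  rw [map_add, hp1 a ha.1, hp2 b hb, add_zero]
  exact ha

theorem multiset_bound {S : ℕ → Submodule F A} (hS : Monotone S) (s : Multiset A)
    (h : ∀ y ∈ s, ∃ k, y ∈ S k) : ∃ k, ∀ y ∈ s, y ∈ S k := by
  induction s using Multiset.induction with
  | empty => exact ⟨0, fun y hy => absurd hy (Multiset.notMem_zero y)⟩
  | cons a s ih =>
    obtain ⟨k, hk⟩ := ih fun y hy => h y (Multiset.mem_cons_of_mem hy)
    obtain ⟨l, hl⟩ := h a (Multiset.mem_cons_self a s)
    refine ⟨max k l, ?_⟩
    intro y hy
    rcases Multiset.mem_cons.mp hy with rfl | hy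
    · exact hS (le_max_right k l) hl
    · exact hS (le_max_left k l) (hk y hy)

theorem FS_finitary {S : ℕ → Submodule F A} (hS : Monotone S) {U : Submodule F A}
    (hU : ∀ x ∈ U, ∃ k, x ∈ S k) {t : FF F d A} (ht : t ∈ FS d U) : ∃ k, t ∈ FS d (S k) := by
  have hmono : Monotone fun k => FS d (S k) := fun i j hij => FS_mono (hS hij)
  have h : FS d U ≤ ⨆ k, FS d (S k) := by
    refine FS_le ?_ ?_
    · intro v hv s hs
      obtain ⟨k, hk⟩ := multiset_bound hS (v ::ₘ s) (by
        intro y hy
        rcases Multiset.mem_cons.mp hy with rfl | hy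
        · exact hU _ hv
        · exact hU _ (hs y hy))
      exact (le_iSup (fun k => FS d (S k)) k) (FS_E (hk v (Multiset.mem_cons_self v s))
        fun y hy => hk y (Multiset.mem_cons_of_mem hy))
    · intro s t hs ht
      obtain ⟨k, hk⟩ := multiset_bound hS s fun y hy => hU _ (hs y hy)
      obtain ⟨l, hl⟩ := multiset_bound hS t fun y hy => hU _ (ht y hy)
      exact (le_iSup (fun k => FS d (S k)) (max k l))
        (FS_Ph (fun y hy => hS (le_max_left k l) (hk y hy))
          fun y hy => hS (le_max_right k l) (hl y hy))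
  exact (Submodule.mem_iSup_of_directed _ hmono.directed_le).mp (h ht)

theorem multiset_lift {B : Submodule F A} {S : Submodule F A} (hSB : S ≤ B) (s : Multiset A)
    (h : ∀ y ∈ s, y ∈ S) : ∃ s' : Multiset B, s'.map B.subtype = s ∧
      ∀ y ∈ s', y ∈ S.comap B.subtype := by
  refine ⟨s.pmap (fun x hx => (⟨x, hSB hx⟩ : B)) h, ?_, ?_⟩
  · rw [Multiset.map_pmap]
    exact (Multiset.pmap_eq_map _ _ _ _).trans (Multiset.map_id s)
  · intro y hy
    obtain ⟨x, hx, rfl⟩ := Multiset.mem_pmap.mp hy
    exact h x hx

theorem FS_lift {B : Submodule F A} {S : Submodule F A} (hSB : S ≤ B) {t : FF F d A}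
    (ht : t ∈ FS d S) : ∃ t' ∈ FS d (S.comap B.subtype), FF.map B.subtype t' = t := by
  have h : FS d S ≤ (FS d (S.comap B.subtype)).map (FF.map B.subtype) := by
    refine FS_le ?_ ?_
    · intro v hv s hs
      obtain ⟨s', hs1, hs2⟩ := multiset_lift hSB s hs
      refine ⟨E F d ⟨v, hSB hv⟩ s', FS_E (S := S.comap B.subtype) hv hs2, ?_⟩
      rw [map_E, hs1]
      rfl
    · intro s t hs ht
      obtain ⟨s', hs1, hs2⟩ := multiset_lift hSB s hs
      obtain ⟨t', ht1, ht2⟩ := multiset_lift hSB t ht
      refine ⟨Ph F d s' t', FS_Ph hs2 ht2, ?_⟩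
      rw [map_Ph, hs1, ht1]
  exact h ht

end FFSec

end Pool.Agent.H551R3.Sab
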