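import Mathlib

set_option autoImplicit false
set_option linter.unusedSectionVars false

namespace Pool.Agent.H551R3.Sab

universe u

section Jet

variable {F : Type u} [Field F] {A B : Type u} [AddCommGroup A] [Module F A]
  [AddCommGroup B] [Module F B]

/-- The composition pairing. -/
def star (K : A → Multiset A → B) (g : Multiset A → A) (s : Multiset A) : B :=
  ((Multiset.antidiagonal s).map (fun p => K (g p.2) p.1)).sum

/-- Derivative in a constant direction. -/
def dd (a : A) (f : Multiset A → B) : Multiset A → B := fun s => f (a ::ₘ s)

theorem dd_apply (a : A) (f : Multiset A → B) (s : Multiset A) : dd a f s = f (a ::ₘ s) := rfl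

theorem star_zero (K : A → Multiset A → B) (g : Multiset A → A) : star K g 0 = K (g 0) 0 := by
  simp [star]

theorem star_cons (K : A → Multiset A → B) (g : Multiset A → A) (a : A) (s : Multiset A) :
    star K g (a ::ₘ s) = star (fun u => dd a (K u)) g s + star K (dd a g) s := by
  simp only [star, Multiset.antidiagonal_cons, Multiset.map_add, Multiset.sum_add,
    Multiset.map_map]
  rw [add_comm]
  rfl

theorem dd_star (K : A → Multiset A → B) (g : Multiset A → A) (a : A) :
    dd a (star K g) = star (fun u => dd a (K u)) g + star K (dd a g) := by
  funext s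
  exact star_cons K g a s

theorem dd_comm (a b : A) (f : Multiset A → B) : dd a (dd b f) = dd b (dd a f) := by
  funext s
  simp only [dd_apply]
  rw [Multiset.cons_swap]

theorem dd_add (a : A) (f g : Multiset A → B) : dd a (f + g) = dd a f + dd a g := rfl

theorem dd_smul (a : A) (r : F) (f : Multiset A → B) : dd a (r • f) = r • dd a f := rfl

theorem star_add_left (K K' : A → Multiset A → B) (g : Multiset A → A) :
    star (fun u => K u + K' u) g = star K g + star K' g := by
  funext s
  simp only [star, Pi.add_apply, Multiset.sum_map_add]

theorem star_neg_left (K : A → Multiset A → B) (g : Multiset A → A) :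
    star (fun u => -K u) g = -star K g := by
  funext s
  simp only [star, Pi.neg_apply, Multiset.sum_map_neg]

theorem star_sub_left (K K' : A → Multiset A → B) (g : Multiset A → A) :
    star (fun u => K u - K' u) g = star K g - star K' g := by
  funext s
  simp only [star, Pi.sub_apply, Multiset.sum_map_sub]

theorem star_smul_left (r : F) (K : A → Multiset A → B) (g : Multiset A → A) :
    star (fun u => r • K u) g = r • star K g := by
  funext s
  simp only [star, Pi.smul_apply, Multiset.smul_sum, Multiset.map_map, Function.comp_apply]

theorem star_zero_left (g : Multiset A → A) :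
    star (fun _ => (0 : Multiset A → B)) g = 0 := by
  funext s
  simp [star]

/-- `star` as a linear map in the second argument. -/
def starL (K : A → Multiset A → B) (hK : IsLinearMap F K) :
    (Multiset A → A) →ₗ[F] (Multiset A → B) where
  toFun := star K
  map_add' := by
    intro f g
    funext s
    simp only [star, Pi.add_apply, hK.map_add, Multiset.sum_map_add]
  map_smul' := by
    intro r f
    funext s
    simp only [star, Pi.smul_apply, hK.map_smul, Multiset.smul_sum, Multiset.map_map,
      Function.comp_apply, RingHom.id_apply]

theorem starL_apply (K : A → Multiset A → B) (hK : IsLinearMap F K) (g : Multiset A → A) :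
    starL K hK g = star K g := rfl

/-- Multilinearity of a function on multisets. -/
def ML (F : Type u) [Field F] {A B : Type u} [AddCommGroup A] [Module F A]
    [AddCommGroup B] [Module F B] (f : Multiset A → B) : Prop :=
  IsLinearMap F (fun u => dd u f)

theorem star_assoc {K : A → Multiset A → B} (hK : IsLinearMap F K) (G : A → Multiset A → A)
    (h : Multiset A → A) : star (fun u => star K (G u)) h = star K (star G h) := by
  funext s
  induction s using Multiset.induction generalizing K G h with
  | empty => simp only [star_zero]
  | cons a s ih =>
    rw [star_cons, star_cons]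
    have hdK : IsLinearMap F (fun u => dd a (K u)) :=
      ⟨fun u v => by rw [hK.map_add, dd_add], fun r u => by rw [hK.map_smul, dd_smul]⟩
    have e1 : (fun u => dd a (star K (G u))) =
        fun u => star (fun w => dd a (K w)) (G u) + star K (dd a (G u)) := by
      funext u
      rw [dd_star]
    rw [e1, star_add_left, Pi.add_apply, ih hdK, ih hK, ih hK, dd_star]
    have e2 : star K (star (fun u => dd a (G u)) h + star G (dd a h)) =
        star K (star (fun u => dd a (G u)) h) + star K (star G (dd a h)) :=
      (starL K hK).map_add _ _
    rw [e2, Pi.add_apply]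
    abel

theorem star_comm (M : A → A → Multiset A → B) (g h : Multiset A → A) :
    star (fun u => star (fun w => M u w) g) h = star (fun w => star (fun u => M u w) h) g := by
  funext s
  induction s using Multiset.induction generalizing M g h with
  | empty => simp only [star_zero]
  | cons a s ih =>
    rw [star_cons, star_cons]
    simp only [dd_star]
    rw [star_add_left, star_add_left, Pi.add_apply, Pi.add_apply,
      ih (fun u w => dd a (M u w)), ih M (dd a g) h, ih M g (dd a h)]
    abel

/-- Constant function. -/
def delta (a : A) : Multiset A → A := fun s => if Multiset.card s = 0 then a else 0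

/-- The radial field. -/
def rad : Multiset A → A := fun s => if Multiset.card s = 1 then s.sum else 0

theorem dd_rad (a : A) : dd a (rad (A := A)) = delta a := by
  funext s
  simp only [dd_apply, rad, delta, Multiset.card_cons, Multiset.sum_cons]
  by_cases h : Multiset.card s = 0
  · rw [Multiset.card_eq_zero] at h
    simp [h]
  · rw [if_neg h, if_neg (by omega)]

theorem dd_delta (a b : A) : dd b (delta a) = 0 := by
  funext s
  simp [dd_apply, delta]

theorem delta_zero_apply (a : A) : delta a 0 = a := by simp [delta]

theorem rad_zero_apply : rad (0 : Multiset A) = 0 := by simp [rad]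

theorem isLinear_delta : IsLinearMap F (delta (A := A)) :=
  ⟨fun u v => by
    funext s
    by_cases h : Multiset.card s = 0 <;> simp [delta, h],
  fun r u => by
    funext s
    by_cases h : Multiset.card s = 0 <;> simp [delta, h]⟩

theorem star_zero_right {K : A → Multiset A → B} (hK : IsLinearMap F K) : star K 0 = 0 :=
  (starL K hK).map_zero

theorem isLinear_dd {K : A → Multiset A → B} (hK : IsLinearMap F K) (a : A) :
    IsLinearMap F (fun u => dd a (K u)) :=
  ⟨fun u v => by rw [hK.map_add, dd_add], fun r u => by rw [hK.map_smul, dd_smul]⟩

theorem star_delta {K : A → Multiset A → B} (hK : IsLinearMap F K) (a : A) :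
    star K (delta a) = K a := by
  funext s
  induction s using Multiset.induction generalizing K with
  | empty => rw [star_zero, delta_zero_apply]
  | cons b s ih =>
    rw [star_cons, dd_delta, star_zero_right hK, Pi.zero_apply, add_zero, ih (isLinear_dd hK b)]
    rfl

theorem delta_star (g : Multiset A → A) : star (delta (A := A)) g = g := by
  funext s
  induction s using Multiset.induction generalizing g with
  | empty => rw [star_zero, delta_zero_apply]
  | cons b s ih =>
    rw [star_cons]
    simp only [dd_delta]
    rw [star_zero_left, Pi.zero_apply, zero_add, ih]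
    rfl

theorem star_rad_zero {K : A → Multiset A → B} (hK : IsLinearMap F K) : star K rad 0 = 0 := by
  rw [star_zero, rad_zero_apply, hK.map_zero]
  rfl

theorem star_rad_cons {K : A → Multiset A → B} (hK : IsLinearMap F K) (a : A) (s : Multiset A) :
    star K rad (a ::ₘ s) = star (fun u => dd a (K u)) rad s + K a s := by
  rw [star_cons, dd_rad, star_delta hK]

/-- Degree operator. -/
def deg (f : Multiset A → B) : Multiset A → B := fun s => Multiset.card s • f s

theorem deg_add (f g : Multiset A → B) : deg (f + g) = deg f + deg g := by
  funext s
  simp only [deg, Pi.add_apply, smul_add]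

theorem deg_sub (f g : Multiset A → B) : deg (f - g) = deg f - deg g := by
  funext s
  simp only [deg, Pi.sub_apply, smul_sub]

theorem deg_smul (r : F) (f : Multiset A → B) : deg (r • f) = r • deg f := by
  funext s
  simp only [deg, Pi.smul_apply]
  rw [smul_comm]

theorem deg_zero_apply (f : Multiset A → B) : deg f 0 = 0 := by simp [deg]

theorem deg_cons (f : Multiset A → B) (a : A) (s : Multiset A) :
    deg f (a ::ₘ s) = deg (dd a f) s + dd a f s := by
  simp only [deg, Multiset.card_cons, dd_apply, succ_nsmul]

theorem dd_deg (f : Multiset A → B) (a : A) : dd a (deg f) = deg (dd a f) + dd a f := by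
  funext s
  exact deg_cons f a s

theorem deg_delta (a : A) : deg (delta a) = 0 := by
  funext s
  by_cases h : Multiset.card s = 0 <;> simp [deg, delta, h]

theorem deg_rad : deg (rad (A := A)) = rad := by
  funext s
  by_cases h : Multiset.card s = 1
  · simp [deg, rad, h]
  · simp [deg, rad, h]

theorem isLinear_deg {K : A → Multiset A → B} (hK : IsLinearMap F K) :
    IsLinearMap F (fun u => deg (K u)) :=
  ⟨fun u v => by rw [hK.map_add, deg_add], fun r u => by rw [hK.map_smul, deg_smul]⟩

/-- The degree operator is a derivation. -/
theorem deg_star (K : A → Multiset A → B) (hK : IsLinearMap F K) (g : Multiset A → A) :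
    deg (star K g) = star (fun u => deg (K u)) g + star K (deg g) := by
  funext s
  induction s using Multiset.induction generalizing K g with
  | empty =>
    rw [deg_zero_apply, Pi.add_apply, star_zero, star_zero, deg_zero_apply, deg_zero_apply,
      hK.map_zero]
    simp
  | cons a s ih =>
    rw [deg_cons, dd_star, deg_add, Pi.add_apply, ih _ (isLinear_dd hK a), ih K hK, Pi.add_apply,
      Pi.add_apply, Pi.add_apply, Pi.add_apply, star_cons, star_cons]
    simp only [dd_deg]
    have e2 : star K (deg (dd a g) + dd a g) = star K (deg (dd a g)) + star K (dd a g) :=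
      (starL K hK).map_add _ _
    rw [star_add_left, e2]
    simp only [Pi.add_apply]
    abel

/-- Euler's identity. -/
theorem euler {f : Multiset A → B} (hf : ML F f) : star (fun u => dd u f) rad = deg f := by
  funext s
  induction s using Multiset.induction generalizing f with
  | empty => rw [star_rad_zero hf, deg_zero_apply]
  | cons a s ih =>
    have hf' : ML F (dd a f) :=
      ⟨fun u v => by rw [dd_comm, hf.map_add, dd_add, dd_comm a u, dd_comm a v],
        fun r u => by rw [dd_comm, hf.map_smul, dd_smul, dd_comm a u]⟩
    rw [star_rad_cons hf, deg_cons]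
    simp only [dd_comm a]
    rw [ih hf']

theorem ML.dd {f : Multiset A → B} (hf : ML F f) (a : A) : ML F (dd a f) :=
  ⟨fun u v => by rw [dd_comm, hf.map_add, dd_add, dd_comm a u, dd_comm a v],
    fun r u => by rw [dd_comm, hf.map_smul, dd_smul, dd_comm a u]⟩

theorem ML.add {f g : Multiset A → B} (hf : ML F f) (hg : ML F g) : ML F (f + g) :=
  ⟨fun u v => by
    rw [dd_add, dd_add, dd_add, hf.map_add, hg.map_add]
    abel,
  fun r u => by rw [dd_add, dd_add, hf.map_smul, hg.map_smul, smul_add]⟩

theorem ML.smul {f : Multiset A → B} (hf : ML F f) (r : F) : ML F (r • f) :=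
  ⟨fun u v => by rw [dd_smul, dd_smul, dd_smul, hf.map_add, smul_add],
  fun c u => by rw [dd_smul, dd_smul, hf.map_smul, smul_comm]⟩

theorem ML.neg {f : Multiset A → B} (hf : ML F f) : ML F (-f) := by
  have := hf.smul (-1)
  rwa [neg_one_smul] at this

theorem ML.sub {f g : Multiset A → B} (hf : ML F f) (hg : ML F g) : ML F (f - g) := by
  rw [sub_eq_add_neg]
  exact hf.add hg.neg

theorem ML.star {K : A → Multiset A → B} (hK : IsLinearMap F K) (hKm : ∀ u, ML F (K u))
    {g : Multiset A → A} (hg : ML F g) : ML F (star K g) := by
  constructor
  · intro u v
    rw [dd_star, dd_star, dd_star, hg.map_add]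
    have e1 : (fun w => Sab.dd (u + v) (K w)) =
        fun w => Sab.dd u (K w) + Sab.dd v (K w) := by
      funext w
      exact (hKm w).map_add u v
    have e2 : Sab.star K (Sab.dd u g + Sab.dd v g) =
        Sab.star K (Sab.dd u g) + Sab.star K (Sab.dd v g) := (starL K hK).map_add _ _
    rw [e1, star_add_left, e2]
    abel
  · intro r u
    rw [dd_star, dd_star, hg.map_smul]
    have e1 : (fun w => Sab.dd (r • u) (K w)) = fun w => r • Sab.dd u (K w) := by
      funext w
      exact (hKm w).map_smul r u
    have e2 : Sab.star K (r • Sab.dd u g) = r • Sab.star K (Sab.dd u g) :=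
      (starL K hK).map_smul _ _
    rw [e1, star_smul_left, e2, smul_add]

theorem ML_delta (a : A) : ML F (delta a) :=
  ⟨fun u v => by rw [dd_delta, dd_delta, dd_delta, add_zero],
  fun r u => by rw [dd_delta, dd_delta, smul_zero]⟩

theorem ML_zero : ML F (0 : Multiset A → B) :=
  ⟨fun u v => by
    funext s
    simp [dd_apply],
  fun r u => by
    funext s
    simp [dd_apply]⟩

/-- The covariant derivative. -/
def nab (E : A → Multiset A → A) (v : A) (f : Multiset A → B) : Multiset A → B :=
  star (fun u => dd u f) (E v)

theorem nab_add (E : A → Multiset A → A) (v : A) (f g : Multiset A → B) :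
    nab E v (f + g) = nab E v f + nab E v g := by
  unfold nab
  rw [← star_add_left]
  rfl

theorem nab_smul (E : A → Multiset A → A) (v : A) (r : F) (f : Multiset A → B) :
    nab E v (r • f) = r • nab E v f := by
  unfold nab
  rw [← star_smul_left]
  rfl

theorem nab_neg (E : A → Multiset A → A) (v : A) (f : Multiset A → B) :
    nab E v (-f) = -nab E v f := by
  unfold nab
  rw [← star_neg_left]
  rfl

theorem nab_sub (E : A → Multiset A → A) (v : A) (f g : Multiset A → B) :
    nab E v (f - g) = nab E v f - nab E v g := by
  unfold nab
  rw [← star_sub_left]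
  rfl

theorem nab_zero (E : A → Multiset A → A) (v : A) :
    nab E v (0 : Multiset A → B) = 0 := by
  unfold nab
  exact star_zero_left _

theorem isLinear_nab {K : A → Multiset A → B} (hK : IsLinearMap F K) (E : A → Multiset A → A)
    (v : A) : IsLinearMap F (fun u => nab E v (K u)) :=
  ⟨fun u w => by rw [hK.map_add, nab_add], fun r u => by rw [hK.map_smul, nab_smul]⟩

/-- Leibniz rule. -/
theorem nab_star (E : A → Multiset A → A) (v : A) {K : A → Multiset A → B}
    (hK : IsLinearMap F K) (g : Multiset A → A) :
    nab E v (star K g) = star (fun u => nab E v (K u)) g + star K (nab E v g) := by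
  unfold nab
  simp only [dd_star]
  rw [star_add_left, star_comm (fun u w => dd u (K w)) g (E v), star_assoc hK]

/-- The commutator of covariant derivatives. -/
theorem nab_comm (E : A → Multiset A → A) {f : Multiset A → B} (hf : ML F f) (y z : A) :
    nab E y (nab E z f) - nab E z (nab E y f) =
      star (fun u => dd u f) (nab E y (E z) - nab E z (E y)) := by
  have h1 : ∀ y z : A, nab E y (nab E z f) =
      star (fun u => nab E y (dd u f)) (E z) + star (fun u => dd u f) (nab E y (E z)) :=
    fun y z => nab_star E y hf (E z)
  have h2 : star (fun u => nab E y (dd u f)) (E z) = star (fun u => nab E z (dd u f)) (E y) := by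
    unfold nab
    rw [star_comm (fun u w => dd w (dd u f)) (E y) (E z)]
    simp only [dd_comm]
  have h3 : star (fun u => dd u f) (nab E y (E z) - nab E z (E y)) =
      star (fun u => dd u f) (nab E y (E z)) - star (fun u => dd u f) (nab E z (E y)) :=
    (starL _ hf).map_sub _ _
  rw [h1, h1, h2, h3]
  abel

theorem ML.nab {E : A → Multiset A → A} {v : A} (hE : ML F (E v)) {f : Multiset A → B}
    (hf : ML F f) : ML F (nab E v f) :=
  ML.star hf (fun u => hf.dd u) hE

theorem nab_linear {E : A → Multiset A → A} (hE : IsLinearMap F E) {f : Multiset A → B}
    (hf : ML F f) : IsLinearMap F (fun v => Sab.nab E v f) :=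
  ⟨fun u v => by
    unfold Sab.nab
    rw [hE.map_add]
    exact (starL _ hf).map_add _ _,
  fun r u => by
    unfold Sab.nab
    rw [hE.map_smul]
    exact (starL _ hf).map_smul _ _⟩

end Jet

section Solve

variable {F : Type u} [Field F] {A B : Type u} [AddCommGroup A] [Module F A]
  [AddCommGroup B] [Module F B]

theorem star_congr (K : A → Multiset A → B) {g g' : Multiset A → A} (s : Multiset A)
    (h : ∀ W : Multiset A, Multiset.card W ≤ Multiset.card s → g W = g' W) :
    star K g s = star K g' s := by
  induction s using Multiset.induction generalizing K g g' with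
  | empty => rw [star_zero, star_zero, h 0 (by simp)]
  | cons a s ih =>
    rw [star_cons, star_cons]
    congr 1
    · exact ih _ fun W hW => h W (by rw [Multiset.card_cons]; omega)
    · exact ih _ fun W hW => h _ (by rw [Multiset.card_cons, Multiset.card_cons]; omega)

theorem star_congr_low {K : A → Multiset A → B} (hK : ∀ u, K u 0 = 0)
    {g g' : Multiset A → A} (s : Multiset A)
    (h : ∀ W : Multiset A, Multiset.card W < Multiset.card s → g W = g' W) :
    star K g s = star K g' s := by
  induction s using Multiset.induction generalizing g g' with
  | empty => rw [star_zero, star_zero, hK, hK]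
  | cons a s ih =>
    rw [star_cons, star_cons]
    congr 1
    · exact star_congr _ s fun W hW => h W (by rw [Multiset.card_cons]; omega)
    · exact ih fun W hW => h _ (by rw [Multiset.card_cons, Multiset.card_cons]; omega)

/-- Approximate solutions. -/
def approx (K : A → Multiset A → A) (c : ℕ → F) (w : Multiset A → A) : ℕ → Multiset A → A
  | 0 => 0
  | n + 1 => fun s => c (Multiset.card s) • (w s + star K (approx K c w n) s)

theorem approx_stable {K : A → Multiset A → A} (hK : ∀ u, K u 0 = 0) (c : ℕ → F)
    (w : Multiset A → A) (n : ℕ) : ∀ s : Multiset A, Multiset.card s < n →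
      approx K c w (n + 1) s = approx K c w n s := by
  induction n with
  | zero => intro s hs; omega
  | succ n ih =>
    intro s hs
    change c (Multiset.card s) • (w s + star K (approx K c w (n + 1)) s) =
      c (Multiset.card s) • (w s + star K (approx K c w n) s)
    rw [star_congr_low hK s fun W hW => ih W (by omega)]

theorem approx_stable' {K : A → Multiset A → A} (hK : ∀ u, K u 0 = 0) (c : ℕ → F)
    (w : Multiset A → A) (s : Multiset A) (n k : ℕ) (h : Multiset.card s < n) :
      approx K c w (n + k) s = approx K c w n s := by
  induction k with
  | zero => rfl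
  | succ k ih => rw [← ih]; exact approx_stable hK c w (n + k) s (by omega)

/-- Solution of the triangular system. -/
def solve (K : A → Multiset A → A) (c : ℕ → F) (w : Multiset A → A) : Multiset A → A :=
  fun s => approx K c w (Multiset.card s + 1) s

theorem solve_spec {K : A → Multiset A → A} (hK : ∀ u, K u 0 = 0) (c : ℕ → F)
    (w : Multiset A → A) (s : Multiset A) :
    solve K c w s = c (Multiset.card s) • (w s + star K (solve K c w) s) := by
  change c (Multiset.card s) • (w s + star K (approx K c w (Multiset.card s)) s) = _
  rw [star_congr_low hK s]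
  intro W hW
  change _ = approx K c w (Multiset.card W + 1) W
  obtain ⟨k, hk⟩ := Nat.exists_eq_add_of_le (Nat.succ_le_of_lt hW)
  rw [hk]
  exact approx_stable' hK c w W _ k (Nat.lt_succ_self _)

theorem solve_unique {K : A → Multiset A → A} (hKl : IsLinearMap F K) (hK : ∀ u, K u 0 = 0)
    (c : ℕ → F) {g : Multiset A → A}
    (h : ∀ s, g s = c (Multiset.card s) • star K g s) : g = 0 := by
  have key : ∀ n : ℕ, ∀ s : Multiset A, Multiset.card s < n → g s = 0 := by
    intro n
    induction n with
    | zero => intro s hs; omega
    | succ n ih =>
      intro s hs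
      rw [h, star_congr_low hK (g' := 0) s fun W hW => ih W (by omega), star_zero_right hKl]
      simp
  funext s
  exact key _ s (Nat.lt_succ_self _)

end Solve

end Pool.Agent.H551R3.Sab
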