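import Pool.Agent.H551R3.SabFrame
import Pool.Agent.H551R3.SabDefs

set_option autoImplicit false
set_option linter.unusedSectionVars false

namespace Pool.Agent.H551R3.Sab

universe u

section NabL

variable {F : Type u} [Field F] {A B : Type u} [AddCommGroup A] [Module F A]
  [AddCommGroup B] [Module F B]

/-- Iterated covariant derivative. -/
def nabL (E : A → Multiset A → A) (X : List A) (f : Multiset A → B) : Multiset A → B :=
  X.foldr (fun v g => nab E v g) f

variable (E : A → Multiset A → A)

theorem nabL_nil (f : Multiset A → B) : nabL E [] f = f := rfl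

theorem nabL_cons (x : A) (X : List A) (f : Multiset A → B) :
    nabL E (x :: X) f = nab E x (nabL E X f) := rfl

theorem nabL_append (X Y : List A) (f : Multiset A → B) :
    nabL E (X ++ Y) f = nabL E X (nabL E Y f) := by
  unfold nabL
  rw [List.foldr_append]

theorem nabL_add (X : List A) (f g : Multiset A → B) :
    nabL E X (f + g) = nabL E X f + nabL E X g := by
  induction X with
  | nil => rfl
  | cons x X ih => rw [nabL_cons, nabL_cons, nabL_cons, ih, nab_add]

theorem nabL_sub (X : List A) (f g : Multiset A → B) :
    nabL E X (f - g) = nabL E X f - nabL E X g := by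
  induction X with
  | nil => rfl
  | cons x X ih => rw [nabL_cons, nabL_cons, nabL_cons, ih, nab_sub]

theorem nabL_neg (X : List A) (f : Multiset A → B) : nabL E X (-f) = -nabL E X f := by
  induction X with
  | nil => rfl
  | cons x X ih => rw [nabL_cons, nabL_cons, ih, nab_neg]

theorem nabL_smul (X : List A) (r : F) (f : Multiset A → B) :
    nabL E X (r • f) = r • nabL E X f := by
  induction X with
  | nil => rfl
  | cons x X ih => rw [nabL_cons, nabL_cons, ih, nab_smul]

theorem nabL_zero (X : List A) : nabL E X (0 : Multiset A → B) = 0 := by
  induction X with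
  | nil => rfl
  | cons x X ih => rw [nabL_cons, ih, nab_zero]

theorem nab_listSum (x : A) {ι : Type u} (l : List ι) (g : ι → Multiset A → B) :
    nab E x (l.map g).sum = (l.map fun i => nab E x (g i)).sum := by
  induction l with
  | nil => exact nab_zero E x
  | cons i l ih => simp only [List.map_cons, List.sum_cons, nab_add, ih]

theorem isLinear_nabL {K : A → Multiset A → B} (hK : IsLinearMap F K) (X : List A) :
    IsLinearMap F (fun u => nabL E X (K u)) :=
  ⟨fun u v => by rw [hK.map_add, nabL_add], fun r u => by rw [hK.map_smul, nabL_smul]⟩

theorem sum_map_add_list {ι : Type u} {M : Type u} [AddCommMonoid M] (l : List ι)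
    (f g : ι → M) : (l.map fun i => f i + g i).sum = (l.map f).sum + (l.map g).sum := by
  induction l with
  | nil => simp
  | cons i l ih =>
    simp only [List.map_cons, List.sum_cons, ih]
    abel

/-- Leibniz rule for iterated derivatives. -/
theorem nabL_star (X : List A) {K : A → Multiset A → B} (hK : IsLinearMap F K)
    (g : Multiset A → A) :
    nabL E X (star K g) =
      ((splits X).map fun p => star (fun u => nabL E p.1 (K u)) (nabL E p.2 g)).sum := by
  induction X with
  | nil =>
    simp only [splits, List.map_cons, List.map_nil, List.sum_cons, List.sum_nil, add_zero]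
    rfl
  | cons x X ih =>
    rw [nabL_cons, ih, nab_listSum]
    have e1 : (fun p : List A × List A =>
        nab E x (star (fun u => nabL E p.1 (K u)) (nabL E p.2 g))) =
        fun p => star (fun u => nabL E (x :: p.1) (K u)) (nabL E p.2 g) +
          star (fun u => nabL E p.1 (K u)) (nabL E (x :: p.2) g) := by
      funext p
      rw [nab_star E x (isLinear_nabL E hK p.1)]
      rfl
    rw [e1, sum_map_add_list, splits, List.map_append, List.sum_append, List.map_map,
      List.map_map]
    rfl

theorem listSum_apply {ι : Type u} (l : List ι) (g : ι → Multiset A → B) (s : Multiset A) :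
    (l.map g).sum s = (l.map fun i => g i s).sum := by
  induction l with
  | nil => rfl
  | cons i l ih => simp only [List.map_cons, List.sum_cons, Pi.add_apply, ih]

theorem nabL_star_zero (X : List A) {K : A → Multiset A → B} (hK : IsLinearMap F K)
    (g : Multiset A → A) :
    nabL E X (star K g) 0 =
      ((splits X).map fun p => nabL E p.1 (K (nabL E p.2 g 0)) 0).sum := by
  rw [nabL_star E X hK, listSum_apply]
  simp only [star_zero]

variable {E} (hE : Frame F E)

include hE

theorem nabL_ml (X : List A) {f : Multiset A → B} (hf : ML F f) : ML F (nabL E X f) := by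
  induction X with
  | nil => exact hf
  | cons x X ih => exact ML.nab (hE.ml x) ih

theorem nabL_arg_add (X Z : List A) (a b : A) {f : Multiset A → B} (hf : ML F f) :
    nabL E (X ++ (a + b) :: Z) f = nabL E (X ++ a :: Z) f + nabL E (X ++ b :: Z) f := by
  rw [nabL_append, nabL_append, nabL_append, nabL_cons, nabL_cons, nabL_cons,
    (nab_linear hE.lin (nabL_ml hE Z hf)).map_add, nabL_add]

theorem nabL_arg_smul (X Z : List A) (r : F) (a : A) {f : Multiset A → B} (hf : ML F f) :
    nabL E (X ++ (r • a) :: Z) f = r • nabL E (X ++ a :: Z) f := by
  rw [nabL_append, nabL_append, nabL_cons, nabL_cons,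
    (nab_linear hE.lin (nabL_ml hE Z hf)).map_smul, nabL_smul]

end NabL

section Bracket

variable {F : Type u} [Field F] [CharZero F] {A : Type u} [AddCommGroup A] [Module F A]

/-- The brackets of a frame. -/
def bk (F : Type u) [Field F] {A : Type u} [AddCommGroup A] [Module F A]
    (E : A → Multiset A → A) (X : List A) (y z : A) : A := nabL E X (tor F E y z) 0

variable {E : A → Multiset A → A} (hE : Frame F E)

include hE

theorem bk_s1 (X : List A) (y z : A) : bk F E X y z + bk F E X z y = 0 := by
  unfold bk
  rw [← Pi.add_apply, ← nabL_add, tor_skew hE, nabL_zero]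
  rfl

theorem bk_s2 (X Z : List A) (a b y z : A) :
    bk F E (X ++ a :: b :: Z) y z - bk F E (X ++ b :: a :: Z) y z +
      ((splits X).map fun p => bk F E (p.1 ++ bk F E p.2 a b :: Z) y z).sum = 0 := by
  unfold bk
  rw [nabL_append, nabL_append, nabL_cons, nabL_cons, nabL_cons, nabL_cons]
  have hf : ML F (nabL E Z (tor F E y z)) := nabL_ml hE Z (tor_ml hE y z)
  have h1 := ricci hE hf a b
  have h2 := congrArg (nabL E X) h1
  rw [nabL_add, nabL_sub, nabL_zero] at h2
  have h3 := congrFun h2 0
  rw [Pi.add_apply, Pi.sub_apply, nabL_star_zero E X (nab_linear hE.lin hf)] at h3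
  simp only [nabL_append, nabL_cons]
  exact h3

theorem bk_s3 (X : List A) (x y z : A) :
    (bk F E (X ++ [x]) y z + ((splits X).map fun p => bk F E p.1 (bk F E p.2 y z) x).sum) +
      (bk F E (X ++ [y]) z x + ((splits X).map fun p => bk F E p.1 (bk F E p.2 z x) y).sum) +
      (bk F E (X ++ [z]) x y + ((splits X).map fun p => bk F E p.1 (bk F E p.2 x y) z).sum)
        = 0 := by
  have h1 := congrArg (nabL E X) (bianchi hE x y z)
  rw [nabL_add, nabL_add, nabL_add, nabL_add, nabL_add, nabL_zero] at h1
  have h2 := congrFun h1 0
  simp only [Pi.add_apply] at h2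
  rw [nabL_star_zero E X (tor_lin_left hE x), nabL_star_zero E X (tor_lin_left hE y),
    nabL_star_zero E X (tor_lin_left hE z)] at h2
  unfold bk
  simp only [nabL_append, nabL_cons, nabL_nil]
  exact h2

theorem bk_add (X Z : List A) (a b y z : A) :
    bk F E (X ++ (a + b) :: Z) y z = bk F E (X ++ a :: Z) y z + bk F E (X ++ b :: Z) y z := by
  unfold bk
  rw [nabL_arg_add hE X Z a b (tor_ml hE y z)]
  rfl

theorem bk_smul (X Z : List A) (r : F) (a y z : A) :
    bk F E (X ++ (r • a) :: Z) y z = r • bk F E (X ++ a :: Z) y z := by
  unfold bk
  rw [nabL_arg_smul hE X Z r a (tor_ml hE y z)]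
  rfl

theorem bk_add_left (X : List A) (y y' z : A) :
    bk F E X (y + y') z = bk F E X y z + bk F E X y' z := by
  unfold bk
  rw [(tor_lin_left hE z).map_add, nabL_add]
  rfl

theorem bk_smul_left (X : List A) (r : F) (y z : A) :
    bk F E X (r • y) z = r • bk F E X y z := by
  unfold bk
  rw [(tor_lin_left hE z).map_smul, nabL_smul]
  rfl

theorem bk_add_right (X : List A) (y z z' : A) :
    bk F E X y (z + z') = bk F E X y z + bk F E X y z' := by
  unfold bk
  rw [(tor_lin_right hE y).map_add, nabL_add]
  rfl

theorem bk_smul_right (X : List A) (r : F) (y z : A) :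
    bk F E X y (r • z) = r • bk F E X y z := by
  unfold bk
  rw [(tor_lin_right hE y).map_smul, nabL_smul]
  rfl

end Bracket

section SplitLen

theorem length_splits {α : Type u} (X : List α) :
    ∀ p ∈ splits X, p.1.length + p.2.length = X.length := by
  induction X with
  | nil =>
    intro p hp
    simp only [splits, List.mem_singleton] at hp
    subst hp
    rfl
  | cons x X ih =>
    intro p hp
    simp only [splits, List.mem_append, List.mem_map] at hp
    rcases hp with ⟨q, hq, rfl⟩ | ⟨q, hq, rfl⟩
    · have := ih q hq
      simp only [List.length_cons]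
      omega
    · have := ih q hq
      simp only [List.length_cons]
      omega

end SplitLen

section Build

variable {F : Type u} [Field F] [CharZero F] {A : Type u} [AddCommGroup A] [Module F A]
  (d : ℕ)

/-- Operations `Φ` given on multisets. -/
structure PhiData (F : Type u) [Field F] (d : ℕ) {A : Type u} [AddCommGroup A] [Module F A]
    (f : Multiset A → Multiset A → A) : Prop where
  ml_left : ∀ t, ML F (fun s => f s t)
  ml_right : ∀ s, ML F (f s)
  range : ∀ s t, Multiset.card s < 1 ∨ Multiset.card t < 2 ∨
    d < Multiset.card s + Multiset.card t → f s t = 0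

/-- The degree `d` Sabinin algebra of a frame. -/
noncomputable def build {E : A → Multiset A → A} (hE : Frame F E)
    {f : Multiset A → Multiset A → A} (hf : PhiData F d f) : SabAlg F d A where
  br := fun X y z => if X.length + 2 ≤ d then bk F E X y z else 0
  phi := fun X Y => f X Y
  br_add := by
    intro X Z a b y z
    simp only [List.length_append, List.length_cons]
    split_ifs
    · exact bk_add hE X Z a b y z
    · rw [add_zero]
  br_smul := by
    intro X Z r a y z
    simp only [List.length_append, List.length_cons]
    split_ifs
    · exact bk_smul hE X Z r a y z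
    · rw [smul_zero]
  br_add_left := by
    intro X y y' z
    split_ifs
    · exact bk_add_left hE X y y' z
    · rw [add_zero]
  br_smul_left := by
    intro X r y z
    split_ifs
    · exact bk_smul_left hE X r y z
    · rw [smul_zero]
  br_add_right := by
    intro X y z z'
    split_ifs
    · exact bk_add_right hE X y z z'
    · rw [add_zero]
  br_smul_right := by
    intro X r y z
    split_ifs
    · exact bk_smul_right hE X r y z
    · rw [smul_zero]
  phi_add_left := by
    intro X Z Y a b
    have h := congrFun ((hf.ml_left (Y : Multiset A)).map_add a b) ((X ++ Z : List A) : Multiset A)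
    have e : ∀ c : A, ((X ++ c :: Z : List A) : Multiset A) = c ::ₘ ((X ++ Z : List A) : Multiset A) :=
      fun c => Multiset.coe_eq_coe.mpr List.perm_middle
    rw [e, e, e]
    exact h
  phi_smul_left := by
    intro X Z Y r a
    have h := congrFun ((hf.ml_left (Y : Multiset A)).map_smul r a)
      ((X ++ Z : List A) : Multiset A)
    have e : ∀ c : A, ((X ++ c :: Z : List A) : Multiset A) = c ::ₘ ((X ++ Z : List A) : Multiset A) :=
      fun c => Multiset.coe_eq_coe.mpr List.perm_middle
    rw [e, e]
    exact h
  phi_add_right := by
    intro X Y Z a b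
    have h := congrFun ((hf.ml_right (X : Multiset A)).map_add a b)
      ((Y ++ Z : List A) : Multiset A)
    have e : ∀ c : A, ((Y ++ c :: Z : List A) : Multiset A) = c ::ₘ ((Y ++ Z : List A) : Multiset A) :=
      fun c => Multiset.coe_eq_coe.mpr List.perm_middle
    rw [e, e, e]
    exact h
  phi_smul_right := by
    intro X Y Z r a
    have h := congrFun ((hf.ml_right (X : Multiset A)).map_smul r a)
      ((Y ++ Z : List A) : Multiset A)
    have e : ∀ c : A, ((Y ++ c :: Z : List A) : Multiset A) = c ::ₘ ((Y ++ Z : List A) : Multiset A) :=
      fun c => Multiset.coe_eq_coe.mpr List.perm_middle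
    rw [e, e]
    exact h
  br_arity := by
    intro X y z h
    rw [if_neg (by omega)]
  phi_arity := fun X Y h => hf.range X Y (by simpa using h)
  s1 := by
    intro X y z h
    rw [if_pos h, if_pos h]
    exact bk_s1 hE X y z
  s2 := by
    intro X Z a b y z h
    have h1 := bk_s2 hE X Z a b y z
    rw [if_pos (by simp only [List.length_append, List.length_cons]; omega),
      if_pos (by simp only [List.length_append, List.length_cons]; omega), ← h1]
    congr 2
    refine List.map_congr_left fun p hp => ?_
    have h2 := length_splits X p hp
    rw [if_pos (by simp only [List.length_append, List.length_cons]; omega),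
      if_pos (by omega)]
  s3 := by
    intro X x y z h
    have h1 := bk_s3 hE X x y z
    have key : ∀ x y z : A, (splits X).map (fun p =>
        if p.1.length + 2 ≤ d then
          bk F E p.1 (if p.2.length + 2 ≤ d then bk F E p.2 y z else 0) x else 0) =
        (splits X).map (fun p => bk F E p.1 (bk F E p.2 y z) x) := by
      intro x y z
      refine List.map_congr_left fun p hp => ?_
      have h2 := length_splits X p hp
      rw [if_pos (by omega), if_pos (by omega)]
    have hl : ∀ w : A, (X ++ [w]).length + 2 ≤ d := by
      intro w
      simp only [List.length_append, List.length_cons, List.length_nil]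
      omega
    rw [key, key, key, if_pos (hl x), if_pos (hl y), if_pos (hl z)]
    exact h1
  s4 := by
    intro X X' Y Y' h h'
    rw [Multiset.coe_eq_coe.mpr h, Multiset.coe_eq_coe.mpr h']

end Build

end Pool.Agent.H551R3.Sab
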