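import Pool.Agent.H551R3.SabFun

set_option autoImplicit false
set_option linter.unusedSectionVars false

namespace Pool.Agent.H551R3.Sab

universe u

section Abstract

variable {F : Type u} [Field F] {d : ℕ} {A : Type u} [AddCommGroup A] [Module F A]

/-- Freeness for algebras over the functor. -/
def FreeMu (μ : FF F d A →ₗ[F] A) {X : Type u} (ι : X → A) : Prop :=
  ∀ (C : Type u) [AddCommGroup C] [Module F C] (ν : FF F d C →ₗ[F] C) (g : X → C),
    ∃! φ : A →ₗ[F] C, (∀ t, φ (μ t) = ν (FF.map φ t)) ∧ ∀ x, φ (ι x) = g x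

/-- The linear extension of the generators. -/
noncomputable def lin {X : Type u} (F : Type u) [Field F] [Module F A] (ι : X → A) :
    (X →₀ F) →ₗ[F] A := Finsupp.linearCombination F ι

theorem lin_single {X : Type u} (ι : X → A) (x : X) : lin F ι (Finsupp.single x 1) = ι x := by
  simp [lin]

/-- Lambek's lemma. -/
theorem lambek {μ : FF F d A →ₗ[F] A} {X : Type u} {ι : X → A} (h : FreeMu μ ι) :
    ∃ τ : A →ₗ[F] (X →₀ F) × FF F d A,
      (∀ a, lin F ι (τ a).1 + μ (τ a).2 = a) ∧ ∀ v t, τ (lin F ι v + μ t) = (v, t) := by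
  let Z := (X →₀ F) × FF F d A
  let lam : Z →ₗ[F] A := (lin F ι).coprod μ
  let νZ : FF F d Z →ₗ[F] Z := (LinearMap.inr F (X →₀ F) (FF F d A)).comp (FF.map lam)
  obtain ⟨τ, ⟨hτ1, hτ2⟩, _⟩ := h Z νZ (fun x => (Finsupp.single x 1, 0))
  obtain ⟨_, _, huniq⟩ := h A μ ι
  have e1 : lam.comp τ = LinearMap.id := by
    rw [huniq (lam.comp τ), huniq LinearMap.id]
    · constructor
      · intro t
        rw [map_id']
        rfl
      · intro x
        rfl
    · constructor
      · intro t
        rw [LinearMap.comp_apply, hτ1]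
        change lin F ι 0 + μ (FF.map lam (FF.map τ t)) = _
        rw [map_zero, zero_add, map_comp_apply']
      · intro x
        rw [LinearMap.comp_apply, hτ2]
        change lin F ι (Finsupp.single x 1) + μ 0 = _
        rw [map_zero, add_zero, lin_single]
  refine ⟨τ, ?_, ?_⟩
  · intro a
    exact LinearMap.congr_fun e1 a
  · intro v t
    rw [map_add, hτ1]
    change _ + ((0 : X →₀ F), FF.map lam (FF.map τ t)) = _
    rw [map_comp_apply', e1, map_id']
    have e2 : τ.comp (lin F ι) = LinearMap.inl F (X →₀ F) (FF F d A) := by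
      apply Finsupp.lhom_ext'
      intro x
      apply LinearMap.ext_ring
      change τ (lin F ι (Finsupp.single x 1)) = (Finsupp.single x 1, 0)
      rw [lin_single, hτ2]
    have e3 : τ (lin F ι v) = (v, 0) := LinearMap.congr_fun e2 v
    rw [e3]
    simp

/-- The height filtration. -/
noncomputable def filt (μ : FF F d A →ₗ[F] A) {X : Type u} (ι : X → A) : ℕ → Submodule F A
  | 0 => ⊥
  | k + 1 => LinearMap.range (lin F ι) ⊔ (FS d (filt μ ι k)).map μ

theorem filt_succ_le (μ : FF F d A →ₗ[F] A) {X : Type u} (ι : X → A) (k : ℕ) :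
    filt μ ι k ≤ filt μ ι (k + 1) := by
  induction k with
  | zero => exact bot_le
  | succ k ih => exact sup_le_sup le_rfl (Submodule.map_mono (FS_mono ih))

theorem filt_mono (μ : FF F d A →ₗ[F] A) {X : Type u} (ι : X → A) : Monotone (filt μ ι) :=
  monotone_nat_of_le_succ (filt_succ_le μ ι)

/-- The filtration is exhaustive. -/
theorem filt_exhaust {μ : FF F d A →ₗ[F] A} {X : Type u} {ι : X → A} (h : FreeMu μ ι)
    (a : A) : ∃ k, a ∈ filt μ ι k := by
  let U : Submodule F A := ⨆ k, filt μ ι k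
  have hdir := (filt_mono μ ι).directed_le
  have hU : ∀ x ∈ U, ∃ k, x ∈ filt μ ι k := fun x hx =>
    (Submodule.mem_iSup_of_directed _ hdir).mp hx
  have hmem : ∀ k x, x ∈ filt μ ι k → x ∈ U := fun k x hx => le_iSup (filt μ ι) k hx
  have hclosed : ∀ t : FF F d U, μ (FF.map U.subtype t) ∈ U := by
    intro t
    have h1 : FF.map U.subtype t ∈ FS d U := by
      refine map_mem_FS (S := ⊤) U.subtype (fun x _ => x.2) ?_
      rw [FS_top]
      exact Submodule.mem_top
    obtain ⟨k, hk⟩ := FS_finitary (filt_mono μ ι) hU h1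
    exact hmem (k + 1) _ ((le_sup_right : _ ≤ filt μ ι (k + 1)) (Submodule.mem_map_of_mem hk))
  let μU : FF F d U →ₗ[F] U := LinearMap.codRestrict U (μ.comp (FF.map U.subtype)) hclosed
  have hι : ∀ x, ι x ∈ U := fun x =>
    hmem 1 _ ((le_sup_left : LinearMap.range (lin F ι) ≤ filt μ ι 1) ⟨Finsupp.single x 1,
      lin_single ι x⟩)
  obtain ⟨ψ, ⟨hψ1, hψ2⟩, _⟩ := h U μU (fun x => ⟨ι x, hι x⟩)
  obtain ⟨_, _, huniq⟩ := h A μ ι
  have e1 : U.subtype.comp ψ = LinearMap.id := by
    rw [huniq (U.subtype.comp ψ), huniq LinearMap.id]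
    · constructor
      · intro t
        rw [map_id']
        rfl
      · intro x
        rfl
    · constructor
      · intro t
        rw [LinearMap.comp_apply, hψ1]
        change μ (FF.map U.subtype (FF.map ψ t)) = _
        rw [map_comp_apply']
      · intro x
        rw [LinearMap.comp_apply, hψ2]
        rfl
  have e2 : ((ψ a : U) : A) = a := LinearMap.congr_fun e1 a
  rw [← e2]
  exact hU _ (ψ a).2

/-- The adapted complements. -/
theorem complements (Bk : ℕ → Submodule F A) (hB : Monotone Bk) (hB0 : Bk 0 = ⊥)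
    (M : Submodule F A) :
    ∃ W : ℕ → Submodule F A, Monotone W ∧ (∀ k, W k ≤ Bk k) ∧ (∀ k, Disjoint (W k) M) ∧
      ∀ k, Bk k ≤ W k ⊔ (M ⊓ Bk k) := by
  have step : ∀ k (W : Submodule F A), W ≤ Bk k ∧ Disjoint W M →
      ∃ W' : Submodule F A, W ≤ W' ∧ (W' ≤ Bk (k + 1) ∧ Disjoint W' M) ∧
        Bk (k + 1) ≤ W' ⊔ (M ⊓ Bk (k + 1)) := by
    rintro k W ⟨hW1, hW2⟩
    have hN : W ⊔ (M ⊓ Bk (k + 1)) ≤ Bk (k + 1) :=
      sup_le (hW1.trans (hB (Nat.le_succ k))) inf_le_right
    obtain ⟨R, hR1, hR2⟩ := IsModularLattice.exists_disjoint_and_sup_eq hN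
    have hRle : R ≤ Bk (k + 1) := by
      rw [← hR2]
      exact le_sup_right
    refine ⟨W ⊔ R, le_sup_left, ⟨sup_le (hW1.trans (hB (Nat.le_succ k))) hRle, ?_⟩, ?_⟩
    · rw [Submodule.disjoint_def]
      intro x hx hxM
      have hxB : x ∈ Bk (k + 1) := (sup_le (hW1.trans (hB (Nat.le_succ k))) hRle) hx
      obtain ⟨w, hw, r, hr, rfl⟩ := Submodule.mem_sup.mp hx
      have hr0 : r = 0 := by
        refine (Submodule.disjoint_def.mp hR1) r ?_ hr
        have e : r = -w + (w + r) := by abel
        rw [e]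
        exact Submodule.add_mem _
          ((le_sup_left : W ≤ W ⊔ (M ⊓ Bk (k + 1))) (W.neg_mem hw))
          ((le_sup_right : M ⊓ Bk (k + 1) ≤ W ⊔ (M ⊓ Bk (k + 1))) ⟨hxM, hxB⟩)
      rw [hr0, add_zero] at hxM ⊢
      exact (Submodule.disjoint_def.mp hW2) w hw hxM
    · conv_lhs => rw [← hR2]
      exact sup_le (sup_le (le_sup_left.trans le_sup_left) le_sup_right)
        (le_sup_right.trans le_sup_left)
  choose! nxt hn1 hn2 hn3 using step
  let W : ℕ → Submodule F A := fun k => Nat.rec ⊥ (fun k W => nxt k W) k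
  have hW : ∀ k, W k ≤ Bk k ∧ Disjoint (W k) M := by
    intro k
    induction k with
    | zero => exact ⟨bot_le, disjoint_bot_left⟩
    | succ k ih => exact hn2 k (W k) ih
  refine ⟨W, monotone_nat_of_le_succ fun k => hn1 k (W k) (hW k), fun k => (hW k).1,
    fun k => (hW k).2, ?_⟩
  intro k
  cases k with
  | zero => rw [hB0]; exact bot_le
  | succ k => exact hn3 k (W k) (hW k)

/-- Subalgebras of free algebras over the functor are free. -/
theorem free_sub {μ : FF F d A →ₗ[F] A} {X : Type u} {ι : X → A} (h : FreeMu μ ι)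
    (B : Submodule F A) (μB : FF F d B →ₗ[F] B)
    (hμB : ∀ t, (μB t : A) = μ (FF.map B.subtype t)) :
    ∃ (Y : Type u) (κ : Y → B), FreeMu μB κ := by
  obtain ⟨τ, hτ1, hτ2⟩ := lambek h
  have hex := filt_exhaust h
  -- the filtration of B
  let Bk : ℕ → Submodule F A := fun k => B ⊓ filt μ ι k
  have hBmono : Monotone Bk := fun i j hij => inf_le_inf le_rfl (filt_mono μ ι hij)
  have hB0 : Bk 0 = ⊥ := by
    change B ⊓ ⊥ = ⊥
    rw [inf_bot_eq]
  let M : Submodule F A := (FS d B).map μ
  have hMB : M ≤ B := by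
    rintro a ⟨t, ht, rfl⟩
    obtain ⟨t', _, rfl⟩ := FS_lift (le_refl B) ht
    rw [← hμB]
    exact (μB t').2
  -- the decomposable elements of bounded height
  have hMk : ∀ k a, a ∈ M → a ∈ filt μ ι (k + 1) → ∃ t ∈ FS d (Bk k), μ t = a := by
    rintro k a ⟨t, ht, rfl⟩ ha
    obtain ⟨x, ⟨v, rfl⟩, y, ⟨t', ht', rfl⟩, hxy⟩ := Submodule.mem_sup.mp ha
    have h1 := hτ2 v t'
    have h2 := hτ2 0 t
    rw [map_zero, zero_add, ← hxy, h1] at h2
    have h3 : t' = t := (Prod.ext_iff.mp h2).2
    subst h3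
    exact ⟨t', FS_inf ht ht', rfl⟩
  obtain ⟨W, hWmono, hWB, hWM, hWsup⟩ := complements Bk hBmono hB0 M
  have hdec : ∀ k b, b ∈ Bk (k + 1) → ∃ w ∈ W (k + 1), ∃ t ∈ FS d (Bk k), b = w + μ t := by
    intro k b hb
    obtain ⟨w, hw, m, hm, rfl⟩ := Submodule.mem_sup.mp (hWsup (k + 1) hb)
    obtain ⟨t, ht, rfl⟩ := hMk k m hm.1 hm.2.2
    exact ⟨w, hw, t, ht, rfl⟩
  let WW : Submodule F A := ⨆ k, W k
  have hWW : ∀ x ∈ WW, ∃ k, x ∈ W k := fun x hx =>
    (Submodule.mem_iSup_of_directed _ hWmono.directed_le).mp hx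
  have hWle : ∀ k, W k ≤ WW := fun k => le_iSup W k
  have hWWM : Disjoint WW M := by
    rw [Submodule.disjoint_def]
    intro x hx hxM
    obtain ⟨k, hk⟩ := hWW x hx
    exact (Submodule.disjoint_def.mp (hWM k)) x hk hxM
  have hWWB : WW ≤ B := iSup_le fun k => (hWB k).trans inf_le_left
  obtain ⟨p, hp1, hp2, hp3⟩ := proj_exists hWWM
  let b := Module.Basis.ofVectorSpace F WW
  refine ⟨Module.Basis.ofVectorSpaceIndex F WW, fun y => ⟨(b y : A), hWWB (b y).2⟩, ?_⟩
  intro C _ _ ν g
  -- linear part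
  let pW : A →ₗ[F] WW := LinearMap.codRestrict WW p hp3
  let gt : A →ₗ[F] C := (b.constr F g).comp pW
  have hgt1 : ∀ y, gt (b y : A) = g y := by
    intro y
    change b.constr F g (pW (b y : A)) = g y
    have : pW (b y : A) = b y := Subtype.ext (hp1 _ (b y).2)
    rw [this, Module.Basis.constr_basis]
  have hgt2 : ∀ m ∈ M, gt m = 0 := by
    intro m hm
    change b.constr F g (pW m) = 0
    have : pW m = 0 := Subtype.ext (hp2 m hm)
    rw [this, map_zero]
  let σ : A →ₗ[F] FF F d A := (LinearMap.snd F (X →₀ F) (FF F d A)).comp τ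
  have hσ : ∀ t, σ (μ t) = t := by
    intro t
    have h1 := hτ2 0 t
    rw [map_zero, zero_add] at h1
    change (τ (μ t)).2 = t
    rw [h1]
  let stp : (A →ₗ[F] C) → (A →ₗ[F] C) := fun φ =>
    gt + (ν.comp (FF.map φ)).comp (σ.comp (LinearMap.id - p))
  have hstp : ∀ (φ : A →ₗ[F] C) (w : A) (t : FF F d A), w ∈ WW → t ∈ FS d B →
      stp φ (w + μ t) = gt w + ν (FF.map φ t) := by
    intro φ w t hw ht
    have hm : μ t ∈ M := Submodule.mem_map_of_mem ht
    change gt (w + μ t) + ν (FF.map φ (σ ((w + μ t) - p (w + μ t)))) = _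
    rw [map_add, map_add, hgt2 _ hm, hp1 w hw, hp2 _ hm, add_zero, add_zero,
      add_sub_cancel_left, hσ]
  let Φ : ℕ → (A →ₗ[F] C) := fun k => Nat.rec 0 (fun _ φ => stp φ) k
  have hΦ : ∀ k, Φ (k + 1) = stp (Φ k) := fun k => rfl
  have hFSB : ∀ k, FS d (Bk k) ≤ FS d B := fun k => FS_mono inf_le_left
  have hstab : ∀ k, ∀ x ∈ Bk k, Φ (k + 1) x = Φ k x := by
    intro k
    induction k with
    | zero =>
      intro x hx
      rw [hB0, Submodule.mem_bot] at hx
      rw [hx, map_zero, map_zero]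
    | succ k ih =>
      intro x hx
      obtain ⟨w, hw, t, ht, rfl⟩ := hdec k x hx
      rw [hΦ (k + 1), hstp _ _ _ (hWle _ hw) (hFSB k ht)]
      nth_rewrite 1 [hΦ k]
      rw [hΦ k, hstp _ _ _ (hWle _ hw) (hFSB k ht), ← hΦ k, FS_congr ih ht]
  have hstab' : ∀ k n, ∀ x ∈ Bk k, Φ (k + n) x = Φ k x := by
    intro k n x hx
    induction n with
    | zero => rfl
    | succ n ih =>
      rw [← ih]
      exact hstab (k + n) x (hBmono (Nat.le_add_right k n) hx)
  have hexB : ∀ x : B, ∃ k, (x : A) ∈ Bk k := by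
    intro x
    obtain ⟨k, hk⟩ := hex x
    exact ⟨k, x.2, hk⟩
  choose kk hkk using hexB
  have hval : ∀ (x : B) n, (x : A) ∈ Bk n → Φ (kk x) x = Φ n x := by
    intro x n hn
    rw [← hstab' (kk x) n x (hkk x), ← hstab' n (kk x) x hn, Nat.add_comm]
  let φ : B →ₗ[F] C :=
    { toFun := fun x => Φ (kk x) x
      map_add' := by
        intro x y
        have hx : (x : A) ∈ Bk (max (kk x) (kk y)) := hBmono (le_max_left _ _) (hkk x)
        have hy : (y : A) ∈ Bk (max (kk x) (kk y)) := hBmono (le_max_right _ _) (hkk y)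
        rw [hval x _ hx, hval y _ hy, hval (x + y) _ (Submodule.add_mem _ hx hy)]
        exact map_add _ _ _
      map_smul' := by
        intro r x
        rw [hval (r • x) _ (Submodule.smul_mem _ r (hkk x)), RingHom.id_apply]
        exact map_smul _ _ _ }
  have hφ : ∀ (x : B) n, (x : A) ∈ Bk n → φ x = Φ n x := hval
  -- the filtration inside B
  let Sk : ℕ → Submodule F B := fun k => (Bk k).comap B.subtype
  have hSmono : Monotone Sk := fun i j hij => Submodule.comap_mono (hBmono hij)
  have hFSsub : ∀ t : FF F d B, ∃ k, t ∈ FS d (Sk k) := by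
    intro t
    have ht : t ∈ FS d (⊤ : Submodule F B) := by
      rw [FS_top]
      exact Submodule.mem_top
    exact FS_finitary hSmono (fun x _ => ⟨kk x, hkk x⟩) ht
  have hincl : ∀ k (t : FF F d B), t ∈ FS d (Sk k) → FF.map B.subtype t ∈ FS d (Bk k) :=
    fun k t ht => map_mem_FS B.subtype (fun x hx => hx) ht
  refine ⟨φ, ⟨?_, ?_⟩, ?_⟩
  · intro t
    obtain ⟨k, hk⟩ := hFSsub t
    have h1 := hincl k t hk
    have h2 : ((μB t : B) : A) ∈ Bk (k + 1) := by
      refine ⟨(μB t).2, ?_⟩
      rw [hμB]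
      exact (le_sup_right : _ ≤ filt μ ι (k + 1))
        (Submodule.mem_map_of_mem (FS_mono inf_le_right h1))
    rw [hφ _ _ h2, hμB, hΦ]
    have h3 := hstp (Φ k) 0 (FF.map B.subtype t) (Submodule.zero_mem _) (hFSB k h1)
    rw [zero_add, map_zero, zero_add] at h3
    rw [h3, map_comp_apply']
    congr 1
    refine FS_congr ?_ hk
    intro x hx
    exact (hφ x k hx).symm
  · intro y
    obtain ⟨k, hk⟩ := hWW (b y : A) (b y).2
    have h1 : (b y : A) ∈ Bk (k + 1) := hBmono (Nat.le_succ k) (hWB k hk)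
    rw [hφ ⟨(b y : A), hWWB (b y).2⟩ (k + 1) h1, hΦ]
    have h3 := hstp (Φ k) (b y : A) 0 (b y).2 (Submodule.zero_mem _)
    rw [map_zero, add_zero, map_zero, map_zero, add_zero] at h3
    rw [h3, hgt1]
  · rintro φ' ⟨hφ1, hφ2⟩
    have hhom : ∀ t, φ (μB t) = ν (FF.map φ t) := by
      intro t
      obtain ⟨k, hk⟩ := hFSsub t
      have h1 := hincl k t hk
      have h2 : ((μB t : B) : A) ∈ Bk (k + 1) := by
        refine ⟨(μB t).2, ?_⟩
        rw [hμB]
        exact (le_sup_right : _ ≤ filt μ ι (k + 1))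
          (Submodule.mem_map_of_mem (FS_mono inf_le_right h1))
      rw [hφ _ _ h2, hμB, hΦ]
      have h3 := hstp (Φ k) 0 (FF.map B.subtype t) (Submodule.zero_mem _) (hFSB k h1)
      rw [zero_add, map_zero, zero_add] at h3
      rw [h3, map_comp_apply']
      congr 1
      refine FS_congr ?_ hk
      intro x hx
      exact (hφ x k hx).symm
    have hgen : ∀ y, φ ⟨(b y : A), hWWB (b y).2⟩ = g y := by
      intro y
      obtain ⟨k, hk⟩ := hWW (b y : A) (b y).2
      have h1 : (b y : A) ∈ Bk (k + 1) := hBmono (Nat.le_succ k) (hWB k hk)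
      rw [hφ ⟨(b y : A), hWWB (b y).2⟩ (k + 1) h1, hΦ]
      have h3 := hstp (Φ k) (b y : A) 0 (b y).2 (Submodule.zero_mem _)
      rw [map_zero, add_zero, map_zero, map_zero, add_zero] at h3
      rw [h3, hgt1]
    have hW' : ∀ w : WW, φ' ⟨(w : A), hWWB w.2⟩ = φ ⟨(w : A), hWWB w.2⟩ := by
      have e : φ'.comp (Submodule.inclusion hWWB) = φ.comp (Submodule.inclusion hWWB) := by
        apply b.ext
        intro y
        change φ' ⟨(b y : A), hWWB (b y).2⟩ = φ ⟨(b y : A), hWWB (b y).2⟩
        rw [hgen, hφ2]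
      intro w
      exact LinearMap.congr_fun e w
    have hall : ∀ k, ∀ x : B, (x : A) ∈ Bk k → φ' x = φ x := by
      intro k
      induction k with
      | zero =>
        intro x hx
        rw [hB0, Submodule.mem_bot] at hx
        have : x = 0 := Subtype.ext hx
        rw [this, map_zero, map_zero]
      | succ k ih =>
        intro x hx
        obtain ⟨w, hw, t, ht, hwt⟩ := hdec k x hx
        obtain ⟨t', ht', rfl⟩ := FS_lift (inf_le_left : Bk k ≤ B) ht
        have hx' : x = ⟨w, hWWB (hWle _ hw)⟩ + μB t' := by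
          apply Subtype.ext
          rw [hwt, Submodule.coe_add, hμB]
        rw [hx', map_add, map_add, hW' ⟨w, hWle _ hw⟩, hφ1, hhom]
        congr 2
        refine FS_congr ?_ ht'
        intro x hx
        exact ih x hx
    ext x
    exact hall _ x (hkk x)

end Abstract

section Main

variable {F : Type u} [Field F] [CharZero F] {d : ℕ} {A : Type u} [AddCommGroup A] [Module F A]

/-- The operations `Φ` on multisets. -/
noncomputable def pm (S : SabAlg F d A) (s t : Multiset A) : A := S.phi s.toList t.toList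

theorem pm_coe (S : SabAlg F d A) (X Y : List A) : pm S X Y = S.phi X Y :=
  S.s4 _ _ _ _ (Multiset.coe_eq_coe.mp (Multiset.coe_toList _))
    (Multiset.coe_eq_coe.mp (Multiset.coe_toList _))

theorem opData_S (S : SabAlg F d A) : OpData F d (hk S) (pm S) where
  lin := hk_lin S
  ml := hk_ml S
  normal := hk_normal S
  zero := hk_zero S
  range := hk_range S
  mlL := by
    intro t
    induction t using Quotient.inductionOn with
    | _ Y =>
    constructor
    · intro a b
      funext s
      induction s using Quotient.inductionOn with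
      | _ X =>
      change pm S ((a + b) :: X : List A) Y = pm S (a :: X : List A) Y + pm S (b :: X : List A) Y
      rw [pm_coe, pm_coe, pm_coe]
      exact S.phi_add_left [] X Y a b
    · intro r a
      funext s
      induction s using Quotient.inductionOn with
      | _ X =>
      change pm S ((r • a) :: X : List A) Y = r • pm S (a :: X : List A) Y
      rw [pm_coe, pm_coe]
      exact S.phi_smul_left [] X Y r a
  mlR := by
    intro s
    induction s using Quotient.inductionOn with
    | _ X =>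
    constructor
    · intro a b
      funext t
      induction t using Quotient.inductionOn with
      | _ Y =>
      change pm S X ((a + b) :: Y : List A) = pm S X (a :: Y : List A) + pm S X (b :: Y : List A)
      rw [pm_coe, pm_coe, pm_coe]
      exact S.phi_add_right X [] Y a b
    · intro r a
      funext t
      induction t using Quotient.inductionOn with
      | _ Y =>
      change pm S X ((r • a) :: Y : List A) = r • pm S X (a :: Y : List A)
      rw [pm_coe, pm_coe]
      exact S.phi_smul_right X [] Y r a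
  prange := by
    intro s t h
    induction s using Quotient.inductionOn with
    | _ X =>
    induction t using Quotient.inductionOn with
    | _ Y =>
    change pm S X Y = 0
    rw [pm_coe]
    exact S.phi_arity X Y (by simpa using h)

/-- The structure map. -/
noncomputable def mu (S : SabAlg F d A) : FF F d A →ₗ[F] A := FF.lift (opData_S S)

theorem mu_E (S : SabAlg F d A) (v : A) (s : Multiset A) : mu S (E F d v s) = hk S v s :=
  lift_E _ v s

theorem mu_Ph (S : SabAlg F d A) (s t : Multiset A) : mu S (Ph F d s t) = pm S s t :=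
  lift_Ph _ s t

theorem isHom_iff {C : Type u} [AddCommGroup C] [Module F C] (S : SabAlg F d A)
    (S' : SabAlg F d C) (φ : A →ₗ[F] C) :
    IsHom S S' φ ↔ ∀ t, φ (mu S t) = mu S' (FF.map φ t) := by
  constructor
  · intro h
    have e : φ.comp (mu S) = (mu S').comp (FF.map φ) := by
      apply FF.hom_ext
      · intro v s
        rw [LinearMap.comp_apply, LinearMap.comp_apply, mu_E, map_E, mu_E, hom_hk h]
      · intro s t
        rw [LinearMap.comp_apply, LinearMap.comp_apply, mu_Ph, map_Ph, mu_Ph]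
        induction s using Quotient.inductionOn with
        | _ X =>
        induction t using Quotient.inductionOn with
        | _ Y =>
        change φ (pm S X Y) = pm S' (X.map φ : List C) (Y.map φ : List C)
        rw [pm_coe, pm_coe, h.phi]
    exact fun t => LinearMap.congr_fun e t
  · intro h
    apply isHom_of_hk
    · intro v s
      have := h (E F d v s)
      rwa [mu_E, map_E, mu_E] at this
    · intro X Y
      have h1 := h (Ph F d X Y)
      rw [mu_Ph, map_Ph, mu_Ph] at h1
      change φ (pm S X Y) = pm S' (X.map φ : List C) (Y.map φ : List C) at h1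
      rwa [pm_coe, pm_coe] at h1

theorem exists_mu {C : Type u} [AddCommGroup C] [Module F C] (ν : FF F d C →ₗ[F] C) :
    ∃ S : SabAlg F d C, mu S = ν := by
  have h := (opData_FF F d C).lcomp ν
  obtain ⟨S, hS1, hS2⟩ := exists_sab h.lin h.ml h.normal h.zero h.range
    ⟨h.mlL, h.mlR, h.prange⟩
  refine ⟨S, ?_⟩
  apply FF.hom_ext
  · intro v s
    rw [mu_E, hS1]
  · intro s t
    rw [mu_Ph]
    induction s using Quotient.inductionOn with
    | _ X =>
    induction t using Quotient.inductionOn with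
    | _ Y =>
    change pm S X Y = _
    rw [pm_coe, hS2]
    rfl

theorem isFree_iff (S : SabAlg F d A) {X : Type u} (ι : X → A) :
    IsFree S ι ↔ FreeMu (mu S) ι := by
  constructor
  · intro h C _ _ ν g
    obtain ⟨S', rfl⟩ := exists_mu ν
    obtain ⟨φ, ⟨h1, h2⟩, h3⟩ := h C S' g
    refine ⟨φ, ⟨(isHom_iff S S' φ).mp h1, h2⟩, ?_⟩
    rintro ψ ⟨h4, h5⟩
    exact h3 ψ ⟨(isHom_iff S S' ψ).mpr h4, h5⟩
  · intro h C _ _ S' g
    obtain ⟨φ, ⟨h1, h2⟩, h3⟩ := h C (mu S') g
    refine ⟨φ, ⟨(isHom_iff S S' φ).mpr h1, h2⟩, ?_⟩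
    rintro ψ ⟨h4, h5⟩
    exact h3 ψ ⟨(isHom_iff S S' ψ).mp h4, h5⟩

/-- Over a field of characteristic zero degree `d` Sabinin algebras form a Schreier variety. -/
theorem isSchreier (F : Type u) [Field F] [CharZero F] (d : ℕ) : IsSchreier F d := by
  intro A _ _ S X ι hfree B hB
  have h1 : IsHom (S.restrict B hB) S B.subtype := ⟨fun X y z => rfl, fun X Y => rfl⟩
  have h2 := (isHom_iff (S.restrict B hB) S B.subtype).mp h1
  obtain ⟨Y, κ, hκ⟩ := free_sub ((isFree_iff S ι).mp hfree) B (mu (S.restrict B hB)) h2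
  exact ⟨Y, κ, (isFree_iff _ κ).mpr hκ⟩

end Main

end Pool.Agent.H551R3.Sab
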