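import Pool.Agent.H551R3.SabModel

set_option autoImplicit false
set_option linter.unusedSectionVars false

namespace Pool.Agent.H551R3.Sab

universe u

section PS

variable {A B C : Type u} [AddCommGroup B] [AddCommGroup C]

open Classical in
/-- Sum over all ways of picking one element of a multiset. -/
noncomputable def PS (K : A → Multiset A → B) (s : Multiset A) : B :=
  (s.map (fun x => K x (s.erase x))).sum

theorem PS_zero (K : A → Multiset A → B) : PS K 0 = 0 := by simp [PS]

theorem PS_cons (K : A → Multiset A → B) (a : A) (s : Multiset A) :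
    PS K (a ::ₘ s) = K a s + PS (fun x t => K x (a ::ₘ t)) s := by
  classical
  unfold PS
  rw [Multiset.map_cons, Multiset.sum_cons, Multiset.erase_cons_head]
  congr 2
  refine Multiset.map_congr rfl fun x hx => ?_
  rw [Multiset.erase_cons_tail_of_mem hx]

theorem PS_congr {K K' : A → Multiset A → B} (s : Multiset A)
    (h : ∀ x t, x ::ₘ t = s → K x t = K' x t) : PS K s = PS K' s := by
  classical
  unfold PS
  congr 1
  refine Multiset.map_congr rfl fun x hx => ?_
  exact h _ _ (Multiset.cons_erase hx)

theorem PS_add (K K' : A → Multiset A → B) (s : Multiset A) :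
    PS (fun x t => K x t + K' x t) s = PS K s + PS K' s := by
  unfold PS
  rw [Multiset.sum_map_add]

theorem PS_neg (K : A → Multiset A → B) (s : Multiset A) :
    PS (fun x t => -K x t) s = -PS K s := by
  unfold PS
  rw [Multiset.sum_map_neg]

theorem PS_hom (φ : B →+ C) (K : A → Multiset A → B) (s : Multiset A) :
    φ (PS K s) = PS (fun x t => φ (K x t)) s := by
  unfold PS
  rw [map_multiset_sum, Multiset.map_map]
  rfl

theorem PS_nsmul (n : ℕ) (K : A → Multiset A → B) (s : Multiset A) :
    PS (fun x t => n • K x t) s = n • PS K s :=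
  (PS_hom (nsmulAddMonoidHom n) K s).symm

theorem PS_smul {F : Type u} [Field F] [Module F B] (r : F) (K : A → Multiset A → B)
    (s : Multiset A) : PS (fun x t => r • K x t) s = r • PS K s :=
  (PS_hom (DistribSMul.toAddMonoidHom B r) K s).symm

theorem PS_map {A' : Type u} (φ : A' → A) (K : A → Multiset A → B) (s : Multiset A') :
    PS K (s.map φ) = PS (fun x t => K (φ x) (t.map φ)) s := by
  induction s using Multiset.induction generalizing K with
  | empty => rw [Multiset.map_zero, PS_zero, PS_zero]
  | cons a s ih =>
    rw [Multiset.map_cons, PS_cons, PS_cons, ih]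
    simp only [Multiset.map_cons]

theorem PS_const (G : Multiset A → B) (s : Multiset A) :
    PS (fun x t => G (x ::ₘ t)) s = Multiset.card s • G s := by
  classical
  unfold PS
  have h1 : ∀ x ∈ s, (fun x t => G (x ::ₘ t)) x (s.erase x) = G s :=
    fun x hx => congrArg G (Multiset.cons_erase hx)
  rw [Multiset.map_congr rfl h1, Multiset.map_const', Multiset.sum_replicate]

theorem PS_swap (K : A → A → Multiset A → B) (s : Multiset A) :
    PS (fun x t => PS (fun y r => K x y r) t) s = PS (fun x t => PS (fun y r => K y x r) t) s := by
  induction s using Multiset.induction generalizing K with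
  | empty => rw [PS_zero, PS_zero]
  | cons a s ih =>
    rw [PS_cons, PS_cons]
    have e1 : ∀ K : A → A → Multiset A → B, PS (fun x t => PS (fun y r => K x y r) (a ::ₘ t)) s =
        PS (fun x t => K x a t) s + PS (fun x t => PS (fun y r => K x y (a ::ₘ r)) t) s := by
      intro K
      rw [← PS_add]
      refine PS_congr s fun x t _ => ?_
      rw [PS_cons]
    rw [e1, e1 (fun x y r => K y x r), ih (fun x y r => K x y (a ::ₘ r))]
    abel

theorem star_rad_eq_PS {F : Type u} [Field F] {A : Type u} [AddCommGroup A] [Module F A]
    [Module F B] {K : A → Multiset A → B} (hK : IsLinearMap F K) (s : Multiset A) :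
    star K rad s = PS K s := by
  induction s using Multiset.induction generalizing K with
  | empty => rw [star_rad_zero hK, PS_zero]
  | cons a s ih =>
    rw [star_rad_cons hK, PS_cons, ih (isLinear_dd hK a), add_comm]
    rfl

/-- Symmetrisation of functions on lists. -/
noncomputable def SyN : ℕ → (List A → B) → Multiset A → B
  | 0, G, _ => G []
  | n + 1, G, s => PS (fun x t => SyN n (fun l => G (l ++ [x])) t) s

theorem SyN_congr (n : ℕ) {G G' : List A → B} (h : ∀ X : List A, X.length = n → G X = G' X)
    (s : Multiset A) : SyN n G s = SyN n G' s := by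
  induction n generalizing G G' s with
  | zero => exact h [] rfl
  | succ n ih =>
    refine PS_congr s fun x t _ => ?_
    exact ih (fun X hX => h _ (by simp [hX])) t

theorem SyN_perm (n : ℕ) {G : List A → B} {G' : Multiset A → B}
    (h : ∀ X : List A, X.length = n → G X = G' X) (s : Multiset A) (hs : Multiset.card s = n) :
    SyN n G s = n.factorial • G' s := by
  induction n generalizing G G' s with
  | zero =>
    rw [Multiset.card_eq_zero] at hs
    subst hs
    rw [Nat.factorial_zero, one_smul]
    exact h [] rfl
  | succ n ih =>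
    change PS (fun x t => SyN n (fun l => G (l ++ [x])) t) s = _
    have h1 : PS (fun x t => SyN n (fun l => G (l ++ [x])) t) s =
        PS (fun x t => n.factorial • G' (x ::ₘ t)) s := by
      refine PS_congr s fun x t hxt => ?_
      refine ih (G' := fun t => G' (x ::ₘ t)) ?_ t ?_
      · intro X hX
        rw [h _ (by simp [hX])]
        congr 1
        rw [← Multiset.coe_add, Multiset.coe_singleton, add_comm, Multiset.singleton_add]
      · have := congrArg Multiset.card hxt
        rw [Multiset.card_cons] at this
        omega
    rw [h1, PS_nsmul, PS_const, hs, smul_smul, Nat.factorial_succ, mul_comm]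

theorem SyN_hom (φ : B →+ C) (n : ℕ) (G : List A → B) (s : Multiset A) :
    φ (SyN n G s) = SyN n (fun l => φ (G l)) s := by
  induction n generalizing G s with
  | zero => rfl
  | succ n ih =>
    change φ (PS (fun x t => SyN n (fun l => G (l ++ [x])) t) s) = _
    rw [PS_hom]
    refine PS_congr s fun x t _ => ?_
    exact ih _ t

theorem SyN_add (n : ℕ) (G G' : List A → B) (s : Multiset A) :
    SyN n (fun l => G l + G' l) s = SyN n G s + SyN n G' s := by
  induction n generalizing G G' s with
  | zero => rfl
  | succ n ih =>
    change PS (fun x t => SyN n (fun l => G (l ++ [x]) + G' (l ++ [x])) t) s =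
      PS (fun x t => SyN n (fun l => G (l ++ [x])) t) s +
        PS (fun x t => SyN n (fun l => G' (l ++ [x])) t) s
    rw [← PS_add]
    refine PS_congr s fun x t _ => ?_
    exact ih _ _ t

theorem SyN_zero_fun (n : ℕ) (s : Multiset A) : SyN n (fun _ : List A => (0 : B)) s = 0 := by
  have h := SyN_add n (fun _ : List A => (0 : B)) (fun _ => 0) s
  simp only [add_zero] at h
  exact left_eq_add.mp h

theorem SyN_map {A' : Type u} (φ : A' → A) (n : ℕ) (G : List A → B) (s : Multiset A') :
    SyN n G (s.map φ) = SyN n (fun l => G (l.map φ)) s := by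
  induction n generalizing G s with
  | zero => rfl
  | succ n ih =>
    change PS (fun x t => SyN n (fun l => G (l ++ [x])) t) (s.map φ) = _
    rw [PS_map]
    refine PS_congr s fun x t _ => ?_
    rw [ih]
    simp only [List.map_append, List.map_cons, List.map_nil]

/-- Multilinearity of functions on lists. -/
structure MLl (F : Type u) [Field F] {A B : Type u} [AddCommGroup A] [Module F A]
    [AddCommGroup B] [Module F B] (G : List A → B) : Prop where
  add : ∀ (X Z : List A) (a b : A), G (X ++ (a + b) :: Z) = G (X ++ a :: Z) + G (X ++ b :: Z)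
  smul : ∀ (X Z : List A) (r : F) (a : A), G (X ++ (r • a) :: Z) = r • G (X ++ a :: Z)

theorem SyN_ml {F : Type u} [Field F] {A : Type u} [AddCommGroup A] [Module F A]
    [Module F B] (n : ℕ) {G : List A → B} (hG : MLl F G) (s : Multiset A)
    (hs : Multiset.card s + 1 = n) :
    (∀ a b : A, SyN n G ((a + b) ::ₘ s) = SyN n G (a ::ₘ s) + SyN n G (b ::ₘ s)) ∧
    (∀ (r : F) (a : A), SyN n G ((r • a) ::ₘ s) = r • SyN n G (a ::ₘ s)) := by
  induction n generalizing G s with
  | zero => omega
  | succ n ih =>
    have hG' : ∀ x : A, MLl F (fun l => G (l ++ [x])) := by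
      intro x
      constructor
      · intro X Z a b
        simp only [List.append_assoc, List.cons_append]
        exact hG.add _ _ _ _
      · intro X Z r a
        simp only [List.append_assoc, List.cons_append]
        exact hG.smul _ _ _ _
    have e : ∀ c : A, SyN (n + 1) G (c ::ₘ s) = SyN n (fun l => G (l ++ [c])) s +
        PS (fun x t => SyN n (fun l => G (l ++ [x])) (c ::ₘ t)) s := by
      intro c
      change PS (fun x t => SyN n (fun l => G (l ++ [x])) t) (c ::ₘ s) = _
      rw [PS_cons]
    constructor
    · intro a b
      rw [e, e, e]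
      have h1 : SyN n (fun l => G (l ++ [a + b])) s =
          SyN n (fun l => G (l ++ [a])) s + SyN n (fun l => G (l ++ [b])) s := by
        rw [← SyN_add]
        exact SyN_congr n (fun X _ => hG.add X [] a b) s
      have h2 : PS (fun x t => SyN n (fun l => G (l ++ [x])) ((a + b) ::ₘ t)) s =
          PS (fun x t => SyN n (fun l => G (l ++ [x])) (a ::ₘ t)) s +
          PS (fun x t => SyN n (fun l => G (l ++ [x])) (b ::ₘ t)) s := by
        rw [← PS_add]
        refine PS_congr s fun x t hxt => ?_
        have hc := congrArg Multiset.card hxt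
        rw [Multiset.card_cons] at hc
        exact (ih (hG' x) t (by omega)).1 a b
      rw [h1, h2]
      abel
    · intro r a
      rw [e, e]
      have h1 : SyN n (fun l => G (l ++ [r • a])) s = r • SyN n (fun l => G (l ++ [a])) s := by
        have h := SyN_hom (DistribSMul.toAddMonoidHom B r) n (fun l => G (l ++ [a])) s
        refine Eq.trans ?_ h.symm
        exact SyN_congr n (fun X _ => hG.smul X [] r a) s
      have h2 : PS (fun x t => SyN n (fun l => G (l ++ [x])) ((r • a) ::ₘ t)) s =
          r • PS (fun x t => SyN n (fun l => G (l ++ [x])) (a ::ₘ t)) s := by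
        rw [← PS_smul]
        refine PS_congr s fun x t hxt => ?_
        have hc := congrArg Multiset.card hxt
        rw [Multiset.card_cons] at hc
        exact (ih (hG' x) t (by omega)).2 r a
      rw [h1, h2, smul_add]

end PS

section Hooks

variable {F : Type u} [Field F] {d : ℕ} {A : Type u} [AddCommGroup A] [Module F A]

/-- The hook operations of a degree `d` Sabinin algebra. -/
noncomputable def hk (S : SabAlg F d A) (v : A) (s : Multiset A) : A :=
  PS (fun x t => SyN (Multiset.card t) (fun X => S.br X x v) t) s

theorem hk_zero (S : SabAlg F d A) (v : A) : hk S v 0 = 0 := PS_zero _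

theorem hk_range (S : SabAlg F d A) (v : A) (s : Multiset A) (h : d ≤ Multiset.card s) :
    hk S v s = 0 := by
  unfold hk
  have h1 : PS (fun x t => SyN (Multiset.card t) (fun X => S.br X x v) t) s =
      PS (fun _ _ => (0 : A)) s := by
    refine PS_congr s fun x t hxt => ?_
    have hc := congrArg Multiset.card hxt
    rw [Multiset.card_cons] at hc
    rw [SyN_congr _ (G' := fun _ => 0) (fun X hX => S.br_arity X x v (by omega)),
      SyN_zero_fun]
  rw [h1]
  simp [PS]

theorem hk_lin (S : SabAlg F d A) : IsLinearMap F (hk S) := by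
  constructor
  · intro u v
    funext s
    rw [Pi.add_apply]
    unfold hk
    rw [← PS_add]
    refine PS_congr s fun x t _ => ?_
    rw [← SyN_add]
    exact SyN_congr _ (fun X _ => S.br_add_right X x u v) t
  · intro r v
    funext s
    rw [Pi.smul_apply]
    unfold hk
    rw [← PS_smul]
    refine PS_congr s fun x t _ => ?_
    have h := SyN_hom (DistribSMul.toAddMonoidHom A r) (Multiset.card t) (fun X => S.br X x v) t
    refine Eq.trans ?_ h.symm
    exact SyN_congr _ (fun X _ => S.br_smul_right X r x v) t

theorem hk_ml (S : SabAlg F d A) (v : A) : ML F (hk S v) := by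
  have hml : ∀ x : A, MLl F (fun X => S.br X x v) := fun x =>
    ⟨fun X Z a b => S.br_add X Z a b x v, fun X Z r a => S.br_smul X Z r a x v⟩
  have e : ∀ (c : A) (s : Multiset A), hk S v (c ::ₘ s) =
      SyN (Multiset.card s) (fun X => S.br X c v) s +
      PS (fun x t => SyN (Multiset.card t + 1) (fun X => S.br X x v) (c ::ₘ t)) s := by
    intro c s
    unfold hk
    rw [PS_cons]
    simp only [Multiset.card_cons]
  constructor
  · intro a b
    funext s
    rw [Pi.add_apply, dd_apply, dd_apply, dd_apply, e, e, e]
    have h1 : SyN (Multiset.card s) (fun X => S.br X (a + b) v) s =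
        SyN (Multiset.card s) (fun X => S.br X a v) s +
        SyN (Multiset.card s) (fun X => S.br X b v) s := by
      rw [← SyN_add]
      exact SyN_congr _ (fun X _ => S.br_add_left X a b v) s
    have h2 : PS (fun x t => SyN (Multiset.card t + 1) (fun X => S.br X x v) ((a + b) ::ₘ t)) s =
        PS (fun x t => SyN (Multiset.card t + 1) (fun X => S.br X x v) (a ::ₘ t)) s +
        PS (fun x t => SyN (Multiset.card t + 1) (fun X => S.br X x v) (b ::ₘ t)) s := by
      rw [← PS_add]
      refine PS_congr s fun x t _ => ?_
      exact (SyN_ml _ (hml x) t rfl).1 a b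
    rw [h1, h2]
    abel
  · intro r a
    funext s
    rw [Pi.smul_apply, dd_apply, dd_apply, e, e]
    have h1 : SyN (Multiset.card s) (fun X => S.br X (r • a) v) s =
        r • SyN (Multiset.card s) (fun X => S.br X a v) s := by
      have h := SyN_hom (DistribSMul.toAddMonoidHom A r) (Multiset.card s)
        (fun X => S.br X a v) s
      refine Eq.trans ?_ h.symm
      exact SyN_congr _ (fun X _ => S.br_smul_left X r a v) s
    have h2 : PS (fun x t => SyN (Multiset.card t + 1) (fun X => S.br X x v) ((r • a) ::ₘ t)) s =
        r • PS (fun x t => SyN (Multiset.card t + 1) (fun X => S.br X x v) (a ::ₘ t)) s := by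
      rw [← PS_smul]
      refine PS_congr s fun x t _ => ?_
      exact (SyN_ml _ (hml x) t rfl).2 r a
    rw [h1, h2, smul_add]

theorem br_skew (S : SabAlg F d A) (X : List A) (y z : A) : S.br X y z = -S.br X z y := by
  by_cases h : X.length + 2 ≤ d
  · exact eq_neg_of_add_eq_zero_left (S.s1 X y z h)
  · rw [S.br_arity X y z (by omega), S.br_arity X z y (by omega), neg_zero]

theorem hk_normal [CharZero F] (S : SabAlg F d A) (s : Multiset A) : PS (hk S) s = 0 := by
  have h1 : PS (hk S) s =
      PS (fun v t => PS (fun x r => SyN (Multiset.card r) (fun X => S.br X x v) r) t) s := rfl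
  have h2 := PS_swap (fun v x r => SyN (Multiset.card r) (fun X => S.br X x v) r) s
  have h3 : PS (fun v t => PS (fun x r => SyN (Multiset.card r) (fun X => S.br X v x) r) t) s =
      -PS (fun v t => PS (fun x r => SyN (Multiset.card r) (fun X => S.br X x v) r) t) s := by
    rw [← PS_neg]
    refine PS_congr s fun v t _ => ?_
    rw [← PS_neg]
    refine PS_congr t fun x r _ => ?_
    have h := SyN_hom (negAddMonoidHom : A →+ A) (Multiset.card r) (fun X => S.br X x v) r
    refine Eq.trans ?_ h.symm
    exact SyN_congr _ (fun X _ => br_skew S X v x) r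
  rw [h1]
  rw [← h2] at h3
  have h4 : (2 : F) • PS (fun v t => PS (fun x r =>
      SyN (Multiset.card r) (fun X => S.br X x v) r) t) s = 0 := by
    rw [two_smul]
    nth_rewrite 1 [h3]
    rw [neg_add_cancel]
  exact (smul_eq_zero.mp h4).resolve_left two_ne_zero

theorem hom_hk {C : Type u} [AddCommGroup C] [Module F C] {S : SabAlg F d A}
    {S' : SabAlg F d C} {φ : A →ₗ[F] C} (h : IsHom S S' φ) (v : A) (s : Multiset A) :
    φ (hk S v s) = hk S' (φ v) (s.map φ) := by
  unfold hk
  rw [PS_map]
  have h1 := PS_hom φ.toAddMonoidHom (fun x t => SyN (Multiset.card t) (fun X => S.br X x v) t) s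
  refine Eq.trans h1 ?_
  refine PS_congr s fun x t _ => ?_
  rw [SyN_map, Multiset.card_map]
  refine Eq.trans (SyN_hom φ.toAddMonoidHom _ _ t) ?_
  exact SyN_congr _ (fun X _ => h.br X x v) t

end Hooks

end Pool.Agent.H551R3.Sab
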