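import Pool.Agent.H551R3.SabSym

set_option autoImplicit false
set_option linter.unusedSectionVars false

namespace Pool.Agent.H551R3.Sab

universe u

section Uniq

variable {F : Type u} [Field F] [CharZero F] {d : ℕ} {A C : Type u} [AddCommGroup A]
  [Module F A] [AddCommGroup C] [Module F C]

variable (F) in
include F in
/-- The abstract uniqueness statement for symmetric data. -/
theorem uniq_core (m : ℕ) (D : Multiset A → A → A → C)
    (hskew : ∀ s y z, Multiset.card s = m → D s y z = -D s z y)
    (hcyc : ∀ t x y z, Multiset.card t + 1 = m →
      D (x ::ₘ t) y z + D (y ::ₘ t) z x + D (z ::ₘ t) x y = 0)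
    (hhook : ∀ s v, Multiset.card s = m + 1 → PS (fun x t => D t x v) s = 0)
    (s : Multiset A) (hs : Multiset.card s = m) (y z : A) : D s y z = 0 := by
  have h1 := hhook (y ::ₘ s) z (by rw [Multiset.card_cons, hs])
  have h2 := hhook (z ::ₘ s) y (by rw [Multiset.card_cons, hs])
  rw [PS_cons] at h1 h2
  have h3 : PS (fun x t => D (x ::ₘ t) y z + D (y ::ₘ t) z x + D (z ::ₘ t) x y) s = 0 := by
    have : PS (fun x t => D (x ::ₘ t) y z + D (y ::ₘ t) z x + D (z ::ₘ t) x y) s =
        PS (fun _ _ => (0 : C)) s := by
      refine PS_congr s fun x t hxt => ?_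
      have hc := congrArg Multiset.card hxt
      rw [Multiset.card_cons] at hc
      exact hcyc t x y z (by omega)
    rw [this]
    simp [PS]
  rw [PS_add, PS_add, PS_const (fun r => D r y z), hs] at h3
  have h4 : PS (fun x t => D (y ::ₘ t) z x) s = -PS (fun x t => D (y ::ₘ t) x z) s := by
    rw [← PS_neg]
    refine PS_congr s fun x t hxt => ?_
    have hc := congrArg Multiset.card hxt
    rw [Multiset.card_cons] at hc
    exact hskew _ _ _ (by rw [Multiset.card_cons]; omega)
  rw [h4] at h3
  have h5 := hskew s z y hs
  have h6 : ((m : F) + 2) • D s y z = 0 := by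
    rw [add_smul, Nat.cast_smul_eq_nsmul, two_smul]
    have e1 : PS (fun x t => D (y ::ₘ t) x z) s = -D s y z :=
      (neg_eq_of_add_eq_zero_right h1).symm
    have e2 : PS (fun x t => D (z ::ₘ t) x y) s = -D s z y :=
      (neg_eq_of_add_eq_zero_right h2).symm
    rw [e1, e2, h5, neg_neg] at h3
    rw [← h3]
    abel
  have hne : ((m : F) + 2) ≠ 0 := by
    exact_mod_cast (by omega : m + 2 ≠ 0)
  exact (smul_eq_zero.mp h6).resolve_left hne

theorem isHom_of_hk {S : SabAlg F d A} {S' : SabAlg F d C} {φ : A →ₗ[F] C}
    (h : ∀ v s, φ (hk S v s) = hk S' (φ v) (s.map φ))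
    (hphi : ∀ X Y : List A, φ (S.phi X Y) = S'.phi (X.map φ) (Y.map φ)) : IsHom S S' φ := by
  refine ⟨?_, hphi⟩
  have key : ∀ m : ℕ, ∀ X : List A, X.length = m → ∀ y z : A,
      φ (S.br X y z) = S'.br (X.map φ) (φ y) (φ z) := by
    intro m
    induction m using Nat.strong_induction_on with
    | _ m ih =>
    intro X hX y z
    by_cases hm : m + 2 ≤ d
    swap
    · rw [S.br_arity _ _ _ (by omega), S'.br_arity _ _ _ (by rw [List.length_map]; omega),
        map_zero]
    let D : List A → A → A → C := fun X y z => φ (S.br X y z) - S'.br (X.map φ) (φ y) (φ z)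
    -- adjacent swaps
    have hswap : ∀ (P Q : List A) (a b y z : A), P.length + Q.length + 2 = m →
        D (P ++ a :: b :: Q) y z = D (P ++ b :: a :: Q) y z := by
      intro P Q a b y z hlen
      have h1 := S.s2 P Q a b y z (by omega)
      have h2 := S'.s2 (P.map φ) (Q.map φ) (φ a) (φ b) (φ y) (φ z)
        (by rw [List.length_map, List.length_map]; omega)
      have h3 := congrArg φ h1
      rw [map_add, map_sub, map_zero, map_list_sum, List.map_map] at h3
      rw [splits_map, List.map_map] at h2
      have h4 : (splits P).map (⇑φ ∘ fun p => S.br (p.1 ++ S.br p.2 a b :: Q) y z) =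
          (splits P).map ((fun p => S'.br (p.1 ++ S'.br p.2 (φ a) (φ b) :: Q.map φ)
            (φ y) (φ z)) ∘ fun p => (p.1.map φ, p.2.map φ)) := by
        refine List.map_congr_left fun p hp => ?_
        have hl := length_splits P p hp
        simp only [Function.comp_apply]
        rw [ih _ (by simp only [List.length_append, List.length_cons]; omega) _ rfl,
          List.map_append, List.map_cons, ih _ (by omega) _ rfl]
      rw [h4] at h3
      change φ (S.br (P ++ a :: b :: Q) y z) - S'.br ((P ++ a :: b :: Q).map φ) (φ y) (φ z) =
        φ (S.br (P ++ b :: a :: Q) y z) - S'.br ((P ++ b :: a :: Q).map φ) (φ y) (φ z)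
      simp only [List.map_append, List.map_cons]
      rw [← sub_eq_zero]
      have h5 := h3.trans h2.symm
      have h6 := add_right_cancel h5
      rw [← sub_eq_zero] at h6
      rw [← h6]
      abel
    have hperm : ∀ (X X' : List A), X.Perm X' → ∀ (P : List A) (y z : A),
        P.length + X.length = m → D (P ++ X) y z = D (P ++ X') y z := by
      intro X X' hp
      induction hp with
      | nil => intro P y z _; rfl
      | @cons x l l' _ ihp =>
        intro P y z hl
        have := ihp (P ++ [x]) y z (by
          simp only [List.length_append, List.length_cons, List.length_nil] at hl ⊢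
          omega)
        simpa using this
      | swap x y' l =>
        intro P y z hl
        exact hswap P l y' x y z (by
          simp only [List.length_cons] at hl
          omega)
      | @trans l l' l'' hp1 _ ih1 ih2 =>
        intro P y z hl
        rw [ih1 P y z hl, ih2 P y z (by rw [← hp1.length_eq]; exact hl)]
    let D' : Multiset A → A → A → C := fun s y z => D s.toList y z
    have hDD : ∀ X : List A, X.length = m → ∀ y z, D X y z = D' X y z := by
      intro X hX y z
      have hp : X.Perm ((X : Multiset A).toList) :=
        Multiset.coe_eq_coe.mp (Multiset.coe_toList _).symm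
      exact hperm _ _ hp [] y z (by simpa using hX)
    have h0 : D' (X : Multiset A) y z = 0 := by
      refine uniq_core F m D' ?_ ?_ ?_ X (by simpa using hX) y z
      · intro s y z _
        change φ (S.br s.toList y z) - S'.br (s.toList.map φ) (φ y) (φ z) =
          -(φ (S.br s.toList z y) - S'.br (s.toList.map φ) (φ z) (φ y))
        rw [br_skew S, br_skew S', map_neg]
        abel
      · intro t x y z ht
        have htl : t.toList.length = Multiset.card t := Multiset.length_toList t
        have e : ∀ x y z : A, D' (x ::ₘ t) y z = D (t.toList ++ [x]) y z := by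
          intro x y z
          rw [hDD (t.toList ++ [x]) (by
            simp only [List.length_append, List.length_cons, List.length_nil]; omega)]
          congr 1
          rw [← Multiset.coe_add, Multiset.coe_toList, Multiset.coe_singleton, add_comm,
            Multiset.singleton_add]
        rw [e, e, e]
        have h1 := S.s3 t.toList x y z (by omega)
        have h2 := S'.s3 (t.toList.map φ) (φ x) (φ y) (φ z) (by rw [List.length_map]; omega)
        have h3 := congrArg φ h1
        simp only [map_add, map_zero, map_list_sum, List.map_map] at h3
        rw [splits_map, List.map_map, List.map_map, List.map_map] at h2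
        have h4 : ∀ x y z : A, (splits t.toList).map (⇑φ ∘ fun p => S.br p.1 (S.br p.2 y z) x) =
            (splits t.toList).map ((fun p => S'.br p.1 (S'.br p.2 (φ y) (φ z)) (φ x)) ∘
              fun p => (p.1.map φ, p.2.map φ)) := by
          intro x y z
          refine List.map_congr_left fun p hp => ?_
          have hl := length_splits _ p hp
          simp only [Function.comp_apply]
          rw [ih _ (by omega) _ rfl, ih _ (by omega) _ rfl]
        rw [h4, h4, h4] at h3
        change (φ (S.br (t.toList ++ [x]) y z) -
            S'.br ((t.toList ++ [x]).map φ) (φ y) (φ z)) +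
          (φ (S.br (t.toList ++ [y]) z x) -
            S'.br ((t.toList ++ [y]).map φ) (φ z) (φ x)) +
          (φ (S.br (t.toList ++ [z]) x y) -
            S'.br ((t.toList ++ [z]).map φ) (φ x) (φ y)) = 0
        simp only [List.map_append, List.map_cons, List.map_nil]
        have h5 := h3.trans h2.symm
        rw [← sub_eq_zero] at h5
        rw [← h5]
        abel
      · intro s v hs
        have h1 := h v s
        unfold hk at h1
        rw [PS_map] at h1
        have h2 := PS_hom φ.toAddMonoidHom
          (fun x t => SyN (Multiset.card t) (fun X => S.br X x v) t) s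
        have h3 : PS (fun x t => SyN (Multiset.card t) (fun X => D X x v) t) s = 0 := by
          have e1 : PS (fun x t => SyN (Multiset.card t) (fun X => D X x v) t) s +
              PS (fun x t => SyN (Multiset.card (t.map φ)) (fun X => S'.br X (φ x) (φ v))
                (t.map φ)) s =
              PS (fun x t => φ.toAddMonoidHom
                (SyN (Multiset.card t) (fun X => S.br X x v) t)) s := by
            rw [← PS_add]
            refine PS_congr s fun x t _ => ?_
            rw [SyN_map, Multiset.card_map, SyN_hom, ← SyN_add]
            refine SyN_congr _ (fun X _ => ?_) t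
            change φ (S.br X x v) - S'.br (X.map φ) (φ x) (φ v) +
              S'.br (X.map φ) (φ x) (φ v) = φ (S.br X x v)
            abel
          rw [← h2] at e1
          change _ + _ = φ (PS _ s) at e1
          rw [h1] at e1
          exact add_eq_right.mp e1
        have h4 : PS (fun x t => SyN (Multiset.card t) (fun X => D X x v) t) s =
            PS (fun x t => m.factorial • D' t x v) s := by
          refine PS_congr s fun x t hxt => ?_
          have hc := congrArg Multiset.card hxt
          rw [Multiset.card_cons] at hc
          have hct : Multiset.card t = m := by omega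
          rw [hct]
          exact SyN_perm m (G' := fun t => D' t x v) (fun X hX => hDD X hX x v) t hct
        rw [h4, PS_nsmul, ← Nat.cast_smul_eq_nsmul F] at h3
        exact (smul_eq_zero.mp h3).resolve_left
          (Nat.cast_ne_zero.mpr (Nat.factorial_ne_zero m))
    rw [← hDD X hX] at h0
    exact sub_eq_zero.mp h0
  exact fun X y z => key _ X rfl y z

end Uniq

section Exist

variable {F : Type u} [Field F] [CharZero F] {d : ℕ} {A : Type u} [AddCommGroup A] [Module F A]

/-- Symmetrisation of iterated covariant derivatives in normal coordinates. -/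
theorem SyN_nabL {E : A → Multiset A → A} (hE : Frame F E) (hr : star E rad = rad) (n : ℕ)
    {f : Multiset A → A} (hf : ML F f) (s : Multiset A) (hs : Multiset.card s = n) :
    SyN n (fun X => nabL E X f 0) s = n.factorial • f s := by
  induction n generalizing f s with
  | zero =>
    rw [Multiset.card_eq_zero] at hs
    subst hs
    rw [Nat.factorial_zero, one_smul]
    rfl
  | succ n ih =>
    change PS (fun x t => SyN n (fun X => nabL E (X ++ [x]) f 0) t) s = _
    have h1 : PS (fun x t => SyN n (fun X => nabL E (X ++ [x]) f 0) t) s =
        PS (fun x t => n.factorial • nab E x f t) s := by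
      refine PS_congr s fun x t hxt => ?_
      have hc := congrArg Multiset.card hxt
      rw [Multiset.card_cons] at hc
      have := ih (f := nab E x f) (ML.nab (hE.ml x) hf) t (by omega)
      rw [← this]
      refine SyN_congr n (fun X _ => ?_) t
      rw [nabL_append]
      rfl
    have h2 : star (fun x => nab E x f) rad = deg f := by
      have : (fun x => nab E x f) = fun x => star (fun w => dd w f) (E x) := rfl
      rw [this, star_assoc hf, hr, euler hf]
    rw [h1, PS_nsmul, ← star_rad_eq_PS (nab_linear hE.lin hf), h2]
    simp only [deg, hs]
    rw [smul_smul, Nat.factorial_succ, mul_comm]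

theorem exists_sab {e : A → Multiset A → A} {f : Multiset A → Multiset A → A}
    (he : IsLinearMap F e) (hml : ∀ v, ML F (e v)) (hn : ∀ s, PS e s = 0)
    (h0 : ∀ v, e v 0 = 0) (hr : ∀ v s, d ≤ Multiset.card s → e v s = 0)
    (hf : PhiData F d f) :
    ∃ S : SabAlg F d A, (∀ v s, hk S v s = e v s) ∧ ∀ X Y : List A, S.phi X Y = f X Y := by
  let q : A → Multiset A → A := fun v s => ((Multiset.card s).factorial : F)⁻¹ • e v s
  have hq : Hook F q := by
    refine ⟨⟨?_, ?_⟩, ?_, ?_⟩
    · intro u v
      funext s
      change ((Multiset.card s).factorial : F)⁻¹ • e (u + v) s =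
        ((Multiset.card s).factorial : F)⁻¹ • e u s + ((Multiset.card s).factorial : F)⁻¹ • e v s
      rw [he.map_add, Pi.add_apply, smul_add]
    · intro r u
      funext s
      change ((Multiset.card s).factorial : F)⁻¹ • e (r • u) s =
        r • ((Multiset.card s).factorial : F)⁻¹ • e u s
      rw [he.map_smul, Pi.smul_apply, smul_comm]
    · intro v
      constructor
      · intro a b
        funext s
        change ((Multiset.card ((a + b) ::ₘ s)).factorial : F)⁻¹ • e v ((a + b) ::ₘ s) =
          ((Multiset.card (a ::ₘ s)).factorial : F)⁻¹ • e v (a ::ₘ s) +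
          ((Multiset.card (b ::ₘ s)).factorial : F)⁻¹ • e v (b ::ₘ s)
        have := congrFun ((hml v).map_add a b) s
        rw [dd_apply] at this
        rw [this, Multiset.card_cons, Multiset.card_cons, Multiset.card_cons, ← smul_add]
        rfl
      · intro r a
        funext s
        change ((Multiset.card ((r • a) ::ₘ s)).factorial : F)⁻¹ • e v ((r • a) ::ₘ s) =
          r • ((Multiset.card (a ::ₘ s)).factorial : F)⁻¹ • e v (a ::ₘ s)
        have := congrFun ((hml v).map_smul r a) s
        rw [dd_apply] at this
        rw [this, Multiset.card_cons, Multiset.card_cons, smul_comm]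
        rfl
    · funext s
      have hql : IsLinearMap F q := by
        constructor
        · intro u v
          funext s
          change ((Multiset.card s).factorial : F)⁻¹ • e (u + v) s =
        ((Multiset.card s).factorial : F)⁻¹ • e u s + ((Multiset.card s).factorial : F)⁻¹ • e v s
          rw [he.map_add, Pi.add_apply, smul_add]
        · intro r u
          funext s
          change ((Multiset.card s).factorial : F)⁻¹ • e (r • u) s =
        r • ((Multiset.card s).factorial : F)⁻¹ • e u s
          rw [he.map_smul, Pi.smul_apply, smul_comm]
      rw [star_rad_eq_PS hql]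
      have h1 : PS q s =
          PS (fun x t => ((Multiset.card s - 1).factorial : F)⁻¹ • e x t) s := by
        refine PS_congr s fun x t hxt => ?_
        have hc := congrArg Multiset.card hxt
        rw [Multiset.card_cons] at hc
        have : Multiset.card t = Multiset.card s - 1 := by omega
        change ((Multiset.card t).factorial : F)⁻¹ • e x t = _
        rw [this]
      rw [h1, PS_smul, hn, smul_zero]
      rfl
  have hE := frm_frame hq
  refine ⟨build d hE hf, ?_, fun X Y => rfl⟩
  intro v s
  by_cases hs : d ≤ Multiset.card s
  · rw [hk_range _ _ _ hs, hr v s hs]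
  by_cases hs0 : Multiset.card s = 0
  · rw [Multiset.card_eq_zero] at hs0
    subst hs0
    rw [hk_zero, h0]
  obtain ⟨n, hn'⟩ : ∃ n, Multiset.card s = n + 1 := ⟨Multiset.card s - 1, by omega⟩
  have h1 : hk (build d hE hf) v s =
      PS (fun x t => n.factorial • tor F (frm F q) x v t) s := by
    refine PS_congr s fun x t hxt => ?_
    have hc := congrArg Multiset.card hxt
    rw [Multiset.card_cons] at hc
    have hct : Multiset.card t = n := by omega
    rw [hct]
    rw [← SyN_nabL hE (frm_rad hq) n (tor_ml hE x v) t hct]
    refine SyN_congr n (fun X hX => ?_) t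
    change (if X.length + 2 ≤ d then bk F (frm F q) X x v else 0) = _
    rw [if_pos (by omega)]
    rfl
  rw [h1, PS_nsmul, ← star_rad_eq_PS (tor_lin_left hE v), tor_rad hq]
  simp only [deg, hn']
  change n.factorial • (n + 1) • (((Multiset.card s).factorial : F)⁻¹ • e v s) = e v s
  rw [smul_smul, mul_comm, ← Nat.factorial_succ, hn', ← Nat.cast_smul_eq_nsmul F, smul_smul,
    mul_inv_cancel₀ (Nat.cast_ne_zero.mpr (Nat.factorial_ne_zero _)), one_smul]

end Exist

end Pool.Agent.H551R3.Sab
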